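import Mathlib
import Pool.Agent.N989.MK.Model

/-!
# Wilson loops on the four dimensional hierarchical lattice, for an arbitrary compact gauge group

The hierarchical squares `Ed n`, `Pq n`, the plaquette product `hol`, the product `lp` around the
boundary of a square and the weight `wt` are those of `Pool.Agent.N989.MK.Defs`.
-/

open MeasureTheory Matrix Filter
open Pool.Agent.N989.MK

namespace Pool.Agent.N541.HC

noncomputable section

/-- The edges of the subsquare of level `k` at the position `P` of the square of level `k + j`: the
square of level `k + j` is made of the `16 ^ j` subsquares of level `k`, which are indexed by `Pq j`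
(for `j + 1` the position `(s, q, P)` is the position `P` in the quarter `q` of the sheet `s`). -/
def emk (k : ℕ) : ∀ j : ℕ, Pq j → Ed k → Ed (k + j)
  | 0, _ => fun e => e
  | j + 1, (s, q, P) => fun e => emb s q (emk k j P e)

/-- The product of the variables around the boundary of the subsquare of level `k` at the position
`P` of the square of level `k + j`. -/
def loop {G : Type*} [Group G] (k j : ℕ) (P : Pq j) (U : Ed (k + j) → G) : G :=
  lp fun e => U (emk k j P (.inl e))

section

variable {G : Type*} [Group G] [MeasurableSpace G]

/-- The expectation of the complex observable `O` in the gauge theory with plaquette weight `w` on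
the square of level `n`. -/
def ExC (μ : Measure G) (w : G → ℝ) (n : ℕ) (O : (Ed n → G) → ℂ) : ℂ :=
  (∫ U : Ed n → G, O U * ((wt w U : ℝ) : ℂ) ∂(Measure.pi fun _ => μ)) /
    ((∫ U : Ed n → G, wt w U ∂(Measure.pi fun _ => μ) : ℝ) : ℂ)

end

/-- The vectors fixed by the identity component of `G` in the representation `ρ`. -/
def fixed {G : Type*} [Group G] [TopologicalSpace G] [IsTopologicalGroup G] {M : ℕ}
    (ρ : G →* Matrix (Fin M) (Fin M) ℂ) : Submodule ℂ (Fin M → ℂ) where
  carrier := {v | ∀ g ∈ Subgroup.connectedComponentOfOne G, ρ g *ᵥ v = v}
  zero_mem' := fun g _ => mulVec_zero _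
  add_mem' := fun {a b} ha hb g hg => by
    rw [mulVec_add, ha g hg, hb g hg]
  smul_mem' := fun c v hv g hg => by
    rw [mulVec_smul, hv g hg]

/-- The defining representation. -/
def taut {N : ℕ} (G : Subgroup (unitaryGroup (Fin N) ℂ)) : G →* Matrix (Fin N) (Fin N) ℂ :=
  (Submonoid.subtype _).comp G.subtype

end

end Pool.Agent.N541.HC
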