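import Mathlib
import Pool.Agent.N541.HC.Defs

/-!
# Rectangular loops in the planar surfaces of the hierarchical squares
-/

open MeasureTheory Matrix Filter
open Pool.Agent.N989.MK

namespace Pool.Agent.N541.HC

noncomputable section

/-- A planar surface which spans the boundary of the square of level `n`: the choice of one of the
four sheets and of a planar surface in each of the four quarters of this sheet. It is a
`2 ^ n × 2 ^ n` array of plaquettes. -/
def Sec : ℕ → Type
  | 0 => Unit
  | n + 1 => Fin 4 × (Fin 4 → Sec n)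

section

variable {G : Type*} [Group G]

/-- The product of the variables along the vertical line with the abscissa `x` of the planar surface
`σ`, from the height `0` up to the height `y`. -/
def vp : ∀ n : ℕ, Sec n → (Ed n → G) → ℕ → ℕ → G
  | 0, _, U, x, y => if y = 0 then 1 else if x = 0 then U (.inl (3, 0)) else U (.inl (1, 0))
  | n + 1, (s, σ), U, x, y =>
    if x ≤ 2 ^ n then
      vp n (σ 0) (fun e => U (emb s 0 e)) x (min y (2 ^ n)) *
        vp n (σ 2) (fun e => U (emb s 2 e)) x (y - 2 ^ n)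
    else
      vp n (σ 1) (fun e => U (emb s 1 e)) (x - 2 ^ n) (min y (2 ^ n)) *
        vp n (σ 3) (fun e => U (emb s 3 e)) (x - 2 ^ n) (y - 2 ^ n)

/-- The product of the variables along the horizontal line with the height `y` of the planar surface
`σ`, from the abscissa `0` to the abscissa `x`. -/
def hp : ∀ n : ℕ, Sec n → (Ed n → G) → ℕ → ℕ → G
  | 0, _, U, x, y => if x = 0 then 1 else if y = 0 then U (.inl (0, 0)) else U (.inl (2, 0))
  | n + 1, (s, σ), U, x, y =>
    if y ≤ 2 ^ n then
      hp n (σ 0) (fun e => U (emb s 0 e)) (min x (2 ^ n)) y *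
        hp n (σ 1) (fun e => U (emb s 1 e)) (x - 2 ^ n) y
    else
      hp n (σ 2) (fun e => U (emb s 2 e)) (min x (2 ^ n)) (y - 2 ^ n) *
        hp n (σ 3) (fun e => U (emb s 3 e)) (x - 2 ^ n) (y - 2 ^ n)

/-- The product of the variables around the rectangle `[0, a] × [0, b]` of the planar surface `σ`
of the square of level `n`, for `a, b ≤ 2 ^ n`. -/
def rect (n : ℕ) (σ : Sec n) (U : Ed n → G) (a b : ℕ) : G :=
  hp n σ U a 0 * vp n σ U a b * (hp n σ U a b)⁻¹ * (vp n σ U 0 b)⁻¹

/-- The statement of task R1. -/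
def RectSucc (G : Type*) [Group G] : Prop :=
  ∀ (n : ℕ) (s : Fin 4) (σ : Fin 4 → Sec n) (U : Ed (n + 1) → G) (a b : ℕ),
    a ≤ 2 ^ (n + 1) → b ≤ 2 ^ (n + 1) →
    rect (n + 1) (s, σ) U a b =
      (sd (fun e => U (emb s 0 (.inl e))) 0 *
        rect n (σ 1) (fun e => U (emb s 1 e)) (a - 2 ^ n) (min b (2 ^ n)) *
        (sd (fun e => U (emb s 0 (.inl e))) 0)⁻¹) *
      rect n (σ 0) (fun e => U (emb s 0 e)) (min a (2 ^ n)) (min b (2 ^ n)) *
      ((sd (fun e => U (emb s 0 (.inl e))) 3 * sd (fun e => U (emb s 0 (.inl e))) 2) *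
        rect n (σ 3) (fun e => U (emb s 3 e)) (a - 2 ^ n) (b - 2 ^ n) *
        (sd (fun e => U (emb s 0 (.inl e))) 3 * sd (fun e => U (emb s 0 (.inl e))) 2)⁻¹) *
      (sd (fun e => U (emb s 0 (.inl e))) 3 *
        rect n (σ 2) (fun e => U (emb s 2 e)) (min a (2 ^ n)) (b - 2 ^ n) *
        (sd (fun e => U (emb s 0 (.inl e))) 3)⁻¹)

/-- The statement of task R2. -/
def RectFull (G : Type*) [Group G] : Prop :=
  ∀ (n : ℕ) (σ : Sec n) (U : Ed n → G), rect n σ U (2 ^ n) (2 ^ n) = lp fun e => U (.inl e)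

variable [MeasurableSpace G]

/-- The expectation of the Wilson loop in the representation `ρ` around the rectangle
`[0, a] × [0, b]` of the planar surface `σ` of the subsquare of level `k` at the position `P`, in
the gauge theory on the square of level `k + j`. -/
def wil (μ : Measure G) (w : G → ℝ) {M : ℕ} (ρ : G →* Matrix (Fin M) (Fin M) ℂ) (k j : ℕ)
    (P : Pq j) (σ : Sec k) (a b : ℕ) : ℂ :=
  ExC μ w (k + j) fun U => trace (ρ (rect k σ (fun e => U (emk k j P e)) a b))

/-- The area law for all the side lengths `a`, `b`, uniformly in the size of the lattice and in the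
position of the rectangle. -/
def AreaLaw (μ : Measure G) (w : G → ℝ) {M : ℕ} (ρ : G →* Matrix (Fin M) (Fin M) ℂ) : Prop :=
  ∃ C c : ℝ, 0 < c ∧ ∀ (k j : ℕ) (P : Pq j) (σ : Sec k) (a b : ℕ), a ≤ 2 ^ k → b ≤ 2 ^ k →
    ‖wil μ w ρ k j P σ a b‖ ≤ C * Real.exp (-(c * (a * b)))

end

end

end Pool.Agent.N541.HC
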