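import Mathlib
import Pool.Agent.N989.MK.Strong
import Pool.Agent.N541.HC.Rect

/-!
# Statements for the rectangular loops: functions with values in a Banach algebra
-/

open MeasureTheory Filter Pool.Agent.N991.MK
open Pool.Agent.N989.MK

namespace Pool.Agent.N541.HC

set_option linter.unusedSectionVars false

noncomputable section

variable {G : Type*} [Group G] [TopologicalSpace G] [IsTopologicalGroup G] [CompactSpace G]
  [MeasurableSpace G] [BorelSpace G] [SecondCountableTopology G]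
  {𝔸 : Type*} [NormedRing 𝔸] [NormedAlgebra ℝ 𝔸] [CompleteSpace 𝔸]

/-- the convolution of functions with values in a Banach algebra -/
def cv (μ : Measure G) (f g : G → 𝔸) (x : G) : 𝔸 := ∫ y, f y * g (y⁻¹ * x) ∂μ

/-- the fourfold convolution, in the order of the quarters `1, 0, 3, 2` -/
def cv4 (μ : Measure G) (F : Fin 4 → G → 𝔸) : G → 𝔸 :=
  cv μ (cv μ (F 1) (F 0)) (cv μ (F 3) (F 2))

/-- equivariant functions -/
def Eqv (ρ : G →* 𝔸) (F : G → 𝔸) : Prop := ∀ g x, F (g * x * g⁻¹) = ρ g * F x * ρ g⁻¹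

/-- the integral of `ρ` of the rectangle over the inner variables, as a function of the product
around the boundary of the square -/
def FR (μ : Measure G) (w : G → ℝ) (ρ : G →* 𝔸) : ℕ → ℕ → ℕ → G → 𝔸
  | 0, a, b => fun x => if a = 0 ∨ b = 0 then w x • (1 : 𝔸) else w x • ρ x
  | n + 1, a, b => fun x => (H4 μ (Zr μ w n) x) ^ 3 •
      cv4 μ ![FR μ w ρ n (min a (2 ^ n)) (min b (2 ^ n)), FR μ w ρ n (a - 2 ^ n) (min b (2 ^ n)),
        FR μ w ρ n (min a (2 ^ n)) (b - 2 ^ n), FR μ w ρ n (a - 2 ^ n) (b - 2 ^ n)] x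

/-- an invariant minorant -/
def Minor (H : Subgroup G) (Q : ℝ) (f : G → ℝ) : Prop := ∃ m : G → ℝ, Continuous m ∧ Cls m ∧
  (∀ h ∈ H, ∀ x, m (h * x) = m x) ∧ ∀ x, 0 ≤ m x ∧ m x ≤ f x ∧ (1 - Q) * f x ≤ m x

/-- the properties of the sequence of the constants -/
structure Lam (Q lam : ℕ → ℝ) : Prop where
  Q0 : ∀ n, 0 ≤ Q n
  Q1 : ∀ n, Q n < 1
  pos : ∀ n, 0 < lam n
  zero : Q 0 ≤ Real.exp (-lam 0)
  step : ∀ (n : ℕ) (x : ℝ), 1 ≤ x → x ≤ 4 ^ (n + 1) →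
    Q (n + 1) + (1 - Q (n + 1)) * Real.exp (-(lam n * x)) ≤ Real.exp (-(lam (n + 1) * x))

/-- Task L: the sequence of the constants. -/
def TaskL : Prop := ∀ (Q : ℕ → ℝ) (C c : ℝ), 0 < c → (∀ n, 0 ≤ Q n) → (∀ n, Q n < 1) →
  (∀ n, Q n ≤ C * Real.exp (-(c * 4 ^ n))) → ∃ (lam : ℕ → ℝ) (l : ℝ), 0 < l ∧ (∀ n, l ≤ lam n) ∧
    Lam Q lam

/-- Task B: the decomposition in an equivariant part and a small part. -/
def TaskB (G : Type*) [Group G] [TopologicalSpace G] [IsTopologicalGroup G] [CompactSpace G]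
    [MeasurableSpace G] [BorelSpace G] [SecondCountableTopology G]
    (𝔸 : Type*) [NormedRing 𝔸] [NormedAlgebra ℝ 𝔸] [CompleteSpace 𝔸] : Prop :=
  ∀ (μ : Measure G) [IsProbabilityMeasure μ] [μ.IsHaarMeasure] [μ.IsMulRightInvariant]
    [μ.IsInvInvariant] (H : Subgroup G) [H.Normal] (ρ : G →* 𝔸) (w : G → ℝ) (Q lam : ℕ → ℝ),
    Continuous ρ → (∀ g, ‖ρ g‖ ≤ 1) → ‖(1 : 𝔸)‖ ≤ 1 → Adm w → Lam Q lam → Minor H (Q 0) w →
    (∀ n, Minor H (Q (n + 1)) (fun x => H4 μ (Zr μ w n) x ^ 3)) →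
    ∀ n a b : ℕ, a ≤ 2 ^ n → b ≤ 2 ^ n → ∃ U K : G → 𝔸, Continuous U ∧ Continuous K ∧
      (∀ x, FR μ w ρ n a b x = U x + K x) ∧ (∀ h ∈ H, ∀ x, U (h * x) = ρ h * U x) ∧
      (∀ x, ‖K x‖ ≤ Real.exp (-(lam n * (a * b))) * Zr μ w n x) ∧
      (∀ x, ‖FR μ w ρ n a b x‖ ≤ Zr μ w n x)

/-- Task M: the matrix valued decimation. -/
def TaskM (G : Type*) [Group G] [TopologicalSpace G] [IsTopologicalGroup G] [CompactSpace G]
    [MeasurableSpace G] [BorelSpace G] [SecondCountableTopology G]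
    (𝔸 : Type*) [NormedRing 𝔸] [NormedAlgebra ℝ 𝔸] [CompleteSpace 𝔸] : Prop :=
  ∀ (μ : Measure G) [IsProbabilityMeasure μ] [μ.IsHaarMeasure] [μ.IsMulRightInvariant]
    [μ.IsInvInvariant] (ρ : G →* 𝔸) (w : G → ℝ), Continuous ρ → Continuous w → Cls w →
    (∀ n a b, Continuous (FR μ w ρ n a b)) ∧ (∀ n a b, Eqv ρ (FR μ w ρ n a b)) ∧
    ∀ (n : ℕ) (σ : Sec n) (a b : ℕ), a ≤ 2 ^ n → b ≤ 2 ^ n → ∀ V : BE n → G,
      ∫ I : IE n → G, wt w (Sum.elim V I : Ed n → G) •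
        ρ (rect n σ (Sum.elim V I : Ed n → G) a b) ∂(Measure.pi fun _ => μ) =
      FR μ w ρ n a b (lp V)

end

end Pool.Agent.N541.HC
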