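import Mathlib
import Pool.Agent.N989.MK.Part2
import Pool.Agent.N541.HC.Defs

/-!
# Decimation: the expectation of functions of the loop around a subsquare
-/

open MeasureTheory Pool.Agent.N991.MK
open Pool.Agent.N989.MK

namespace Pool.Agent.N541.HC

set_option linter.unusedSectionVars false

noncomputable section

variable {G : Type*} [Group G] [TopologicalSpace G] [IsTopologicalGroup G] [CompactSpace G]
  [MeasurableSpace G] [BorelSpace G] [SecondCountableTopology G]
  {μ : Measure G} [IsProbabilityMeasure μ] [μ.IsHaarMeasure] [μ.IsMulRightInvariant]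
  [μ.IsInvInvariant] {w : G → ℝ}

/-- integration over the inner variables of a product of functions of the quarters -/
theorem int_quarters {n : ℕ} (Φ : Fin 4 × Fin 4 → (Ed n → G) → ℝ) (hΦ : ∀ x, Continuous (Φ x))
    (A : Fin 4 × Fin 4 → G → ℝ) (hA : ∀ x, Continuous (A x)) (hAc : ∀ x, Cls (A x))
    (h : ∀ x (V : BE n → G), ∫ I : IE n → G, Φ x (Sum.elim V I) ∂(Measure.pi fun _ => μ) =
      A x (lp V)) (V : BE (n + 1) → G) :
    ∫ I : IE (n + 1) → G, ∏ x : Fin 4 × Fin 4,
        Φ x (fun e => (Sum.elim V I : Ed (n + 1) → G) (emb x.1 x.2 e))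
        ∂(Measure.pi fun _ => μ) = ∏ s : Fin 4, c4 μ (fun q => A (s, q)) (lp V) := by
  -- splitting of the inner edges
  let φ : ((Fin 4 → Fin 4 → Fin (2 ^ n) → G) × ((Fin 4 × Fin 4) → IE n → G)) →*
      (IE (n + 1) → G) :=
    { toFun := fun p => (Sum.elim (fun x => p.1 x.1 x.2.1 x.2.2)
        (fun x => p.2 (x.1, x.2.1) x.2.2) :
        (Fin 4 × Fin 4 × Fin (2 ^ n)) ⊕ (Fin 4 × Fin 4 × IE n) → G)
      map_one' := by
        funext e
        rcases e with e | e <;> rfl
      map_mul' := fun p q => by
        funext e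
        rcases e with e | e <;> rfl }
  have hφ : Continuous φ := by
    refine continuous_pi fun e => ?_
    rcases e with ⟨a, b, c⟩ | ⟨a, b, c⟩
    · change Continuous fun p : (Fin 4 → Fin 4 → Fin (2 ^ n) → G) ×
        ((Fin 4 × Fin 4) → IE n → G) => p.1 a b c
      fun_prop
    · change Continuous fun p : (Fin 4 → Fin 4 → Fin (2 ^ n) → G) ×
        ((Fin 4 × Fin 4) → IE n → G) => p.2 (a, b) c
      fun_prop
  have hs : Function.Surjective φ := fun I => ⟨(fun a b c => I (.inl (a, b, c)),
    fun x e => I (.inr (x.1, x.2, e))), by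
      funext e
      rcases e with e | e <;> rfl⟩
  have i1 : (Measure.pi fun _ : Fin (2 ^ n) => μ).IsMulLeftInvariant := inferInstance
  have i2 : (Measure.pi fun _ : Fin 4 => Measure.pi fun _ : Fin (2 ^ n) =>
    μ).IsMulLeftInvariant := inferInstance
  have i3 : (Measure.pi fun _ : Fin 4 => Measure.pi fun _ : Fin 4 =>
    Measure.pi fun _ : Fin (2 ^ n) => μ).IsMulLeftInvariant := inferInstance
  have i4 : (Measure.pi fun _ : IE n => μ).IsMulLeftInvariant := inferInstance
  have i5 : (Measure.pi fun _ : Fin 4 × Fin 4 =>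
    Measure.pi fun _ : IE n => μ).IsMulLeftInvariant := inferInstance
  have i6 := Measure.prod.instIsMulLeftInvariant
    (μ := Measure.pi fun _ : Fin 4 => Measure.pi fun _ : Fin 4 =>
      Measure.pi fun _ : Fin (2 ^ n) => μ)
    (ν := Measure.pi fun _ : Fin 4 × Fin 4 => Measure.pi fun _ : IE n => μ)
  have hmp := mp_hom ((Measure.pi fun _ : Fin 4 => Measure.pi fun _ : Fin 4 =>
    Measure.pi fun _ : Fin (2 ^ n) => μ).prod (Measure.pi fun _ : Fin 4 × Fin 4 =>
      Measure.pi fun _ : IE n => μ)) (Measure.pi fun _ : IE (n + 1) => μ) φ hφ hs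
  have hwc : Continuous fun I : IE (n + 1) → G => ∏ x : Fin 4 × Fin 4,
        Φ x (fun e => (Sum.elim V I : Ed (n + 1) → G) (emb x.1 x.2 e)) := by
    refine continuous_finsetProd _ fun x _ => (hΦ x).comp (continuous_pi fun e => ?_)
    rcases emb x.1 x.2 e with e' | e'
    · exact continuous_const
    · exact continuous_apply e'
  rw [int_mp hmp hwc]
  have hcs : Continuous fun p => ∏ x : Fin 4 × Fin 4,
        Φ x (fun e => (Sum.elim V (φ p) : Ed (n + 1) → G) (emb x.1 x.2 e)) := hwc.comp hφ
  rw [integral_prod _ (hcs.integrable_of_hasCompactSupport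
    (HasCompactSupport.of_compactSpace _))]
  have h1 : ∀ M : Fin 4 → Fin 4 → Fin (2 ^ n) → G,
      ∫ J : (Fin 4 × Fin 4) → IE n → G, ∏ x : Fin 4 × Fin 4,
        Φ x (fun e => (Sum.elim V (φ (M, J)) : Ed (n + 1) → G) (emb x.1 x.2 e))
        ∂(Measure.pi fun _ => Measure.pi fun _ => μ) =
      ∏ s : Fin 4, FG (fun q => A (s, q)) V (mids (M s)) := by
    intro M
    have h2 : ∀ (J : (Fin 4 × Fin 4) → IE n → G) (x : Fin 4 × Fin 4),
        Φ x (fun e => (Sum.elim V (φ (M, J)) : Ed (n + 1) → G) (emb x.1 x.2 e)) =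
        Φ x (Sum.elim (sub V (fun y => M y.1 y.2.1 y.2.2) x.1 x.2) (J x) : Ed n → G) := by
      intro J x
      congr 1
      exact emb_elim V (fun y => M y.1 y.2.1 y.2.2) (fun y => J (y.1, y.2.1) y.2.2) x.1 x.2
    simp only [h2]
    rw [integral_fintype_prod_eq_prod (fun (x : Fin 4 × Fin 4) (I : IE n → G) =>
      Φ x (Sum.elim (sub V (fun y => M y.1 y.2.1 y.2.2) x.1 x.2) I : Ed n → G))]
    simp only [h]
    rw [Fintype.prod_prod_type]
    refine Finset.prod_congr rfl fun s _ => ?_
    obtain ⟨e0, e1, e2, e3⟩ := lp_sub V (fun y => M y.1 y.2.1 y.2.2) s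
    rw [Fin.prod_univ_four]
    unfold FG
    dsimp only
    rw [e0, e1, e2, e3]
  simp only [h1]
  rw [integral_fintype_prod_eq_prod (fun (s : Fin 4) (a : Fin 4 → Fin (2 ^ n) → G) =>
    FG (fun q => A (s, q)) V (mids a))]
  refine Finset.prod_congr rfl fun s _ => ?_
  exact int_FG (fun q => hA (s, q)) (fun q => hAc (s, q)) V

/-- the weight is the product of the weights of the quarters -/
lemma wt_quarters {n : ℕ} (U : Ed (n + 1) → G) :
    wt w U = ∏ x : Fin 4 × Fin 4, wt w (fun e => U (emb x.1 x.2 e)) := by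
  unfold wt
  rw [Fintype.prod_prod_type]
  change ∏ p : Fin 4 × Fin 4 × Pq n, w (hol U (p : Pq (n + 1))) = _
  rw [Fintype.prod_prod_type]
  refine Finset.prod_congr rfl fun s _ => ?_
  rw [Fintype.prod_prod_type]
  rfl

variable (μ w)

/-- the partition functions with the insertion of `O` in a subsquare of level `k` -/
def ZO (k : ℕ) (O : G → ℝ) : ℕ → G → ℝ
  | 0 => fun x => O x * Zr μ w k x
  | j + 1 => fun x =>
      conv μ (conv μ (ZO k O j) (Zr μ w (k + j))) (conv μ (Zr μ w (k + j)) (Zr μ w (k + j))) x *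
        conv μ (conv μ (Zr μ w (k + j)) (Zr μ w (k + j)))
          (conv μ (Zr μ w (k + j)) (Zr μ w (k + j))) x ^ 3

variable {μ w}

lemma ZO_cont (hw : Continuous w) (k : ℕ) {O : G → ℝ} (hO : Continuous O) : ∀ j,
    Continuous (ZO μ w k O j)
  | 0 => hO.mul (Zr_cont hw k)
  | j + 1 => by
    have h := ZO_cont hw k hO j
    have hz := Zr_cont (μ := μ) hw (k + j)
    exact (cont_conv (cont_conv h hz) (cont_conv hz hz)).mul
      ((cont_conv (cont_conv hz hz) (cont_conv hz hz)).pow 3)

lemma ZO_cls (hw : Cls w) (k : ℕ) {O : G → ℝ} (hO : Cls O) : ∀ j, Cls (ZO μ w k O j)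
  | 0 => fun g x => by
    change O _ * Zr μ w k _ = O _ * Zr μ w k _
    rw [hO, Zr_cls hw k]
  | j + 1 => fun g x => by
    have h := ZO_cls hw k hO j
    have hz := Zr_cls (μ := μ) hw (k + j)
    change conv μ _ _ _ * conv μ _ _ _ ^ 3 = conv μ _ _ _ * conv μ _ _ _ ^ 3
    rw [conv_cls (conv_cls h hz) (conv_cls hz hz), conv_cls (conv_cls hz hz) (conv_cls hz hz)]

/-- the fourfold convolution does not depend on the position of the insertion -/
lemma c4_ins {B Z : G → ℝ} (hB : Cls B) (hZ : Cls Z) (q : Fin 4) (x : G) :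
    c4 μ (fun q' => if q' = q then B else Z) x = conv μ (conv μ B Z) (conv μ Z Z) x := by
  unfold c4
  fin_cases q
  · simp
  · simp [conv_comm hZ hB]
  · simp only [Fin.reduceFinMk, Fin.reduceEq, if_false, if_true]
    rw [conv_comm (conv_cls hZ hZ) (conv_cls hB hZ)]
  · simp only [Fin.reduceFinMk, Fin.reduceEq, if_false, if_true]
    rw [conv_comm (conv_cls hZ hZ) (conv_cls hZ hB), conv_comm hZ hB]

theorem Zb_ins (hw : Continuous w) (hc : Cls w) (k : ℕ) {O : G → ℝ} (hO : Continuous O)
    (hOc : Cls O) : ∀ (j : ℕ) (P : Pq j) (V : BE (k + j) → G),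
    ∫ I : IE (k + j) → G, O (loop k j P (Sum.elim V I)) * wt w (Sum.elim V I)
      ∂(Measure.pi fun _ => μ) = ZO μ w k O j (lp V)
  | 0, P, V => by
    have h2 : ∀ I : IE k → G, O (loop k 0 P (Sum.elim V I)) * wt w (Sum.elim V I) =
        O (lp V) * wt w (Sum.elim V I : Ed k → G) := fun I => rfl
    change ∫ I : IE k → G, O (loop k 0 P (Sum.elim V I)) * wt w (Sum.elim V I)
      ∂(Measure.pi fun _ => μ) = _
    simp only [h2]
    rw [integral_const_mul]
    exact congrArg (fun z => O (lp V) * z) (Zb_eq hw hc k V)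
  | j + 1, (s0, q0, P), V => by
    have ih := Zb_ins hw hc k hO hOc j P
    set n := k + j with hn
    -- the functions of the quarters
    let Φ : Fin 4 × Fin 4 → (Ed n → G) → ℝ := fun x U =>
      (if x = (s0, q0) then O (loop k j P U) else 1) * wt w U
    let A : Fin 4 × Fin 4 → G → ℝ := fun x =>
      if x = (s0, q0) then ZO μ w k O j else Zr μ w n
    have hlc : Continuous fun U : Ed n → G => loop k j P U :=
      lp_cont.comp (continuous_pi fun e => continuous_apply _)
    have hΦ : ∀ x, Continuous (Φ x) := by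
      intro x
      by_cases hx : x = (s0, q0)
      · simp only [Φ, hx, if_true]
        exact (hO.comp hlc).mul (wt_cont hw)
      · simp only [Φ, hx, if_false]
        exact continuous_const.mul (wt_cont hw)
    have hA : ∀ x, Continuous (A x) := by
      intro x
      by_cases hx : x = (s0, q0)
      · simp only [A, hx, if_true]; exact ZO_cont hw k hO j
      · simp only [A, hx, if_false]; exact Zr_cont hw n
    have hAc : ∀ x, Cls (A x) := by
      intro x
      by_cases hx : x = (s0, q0)
      · simp only [A, hx, if_true]; exact ZO_cls hc k hOc j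
      · simp only [A, hx, if_false]; exact Zr_cls hc n
    have h : ∀ x (V : BE n → G), ∫ I : IE n → G, Φ x (Sum.elim V I) ∂(Measure.pi fun _ => μ) =
        A x (lp V) := by
      intro x V
      by_cases hx : x = (s0, q0)
      · simp only [A, Φ, hx, if_true]; exact ih V
      · simp only [A, Φ, hx, if_false, one_mul]; exact Zb_eq hw hc n V
    have key := int_quarters Φ hΦ A hA hAc h V
    have h3 : ∀ U : Ed (n + 1) → G, ∏ x : Fin 4 × Fin 4, Φ x (fun e => U (emb x.1 x.2 e)) =
        O (loop k j P (fun e => U (emb s0 q0 e))) * wt w U := by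
      intro U
      rw [wt_quarters]
      simp only [Φ]
      rw [Finset.prod_mul_distrib]
      congr 1
      rw [Finset.prod_eq_single (s0, q0)]
      · exact if_pos rfl
      · intro b _ hb
        simp [hb]
      · intro hh
        exact absurd (Finset.mem_univ _) hh
    simp only [h3] at key
    change ∫ I : IE (n + 1) → G, O (loop k j P (fun e =>
      (Sum.elim V I : Ed (n + 1) → G) (emb s0 q0 e))) * wt w (Sum.elim V I : Ed (n + 1) → G)
      ∂(Measure.pi fun _ => μ) = _
    rw [key]
    -- the product over the sheets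
    have h4 : ∀ s : Fin 4, s ≠ s0 → c4 μ (fun q => A (s, q)) (lp V) =
        conv μ (conv μ (Zr μ w n) (Zr μ w n)) (conv μ (Zr μ w n) (Zr μ w n)) (lp V) := by
      intro s hs
      have : ∀ q, A (s, q) = Zr μ w n := fun q => by
        simp only [A]
        rw [if_neg]
        intro hh
        exact hs (congrArg Prod.fst hh)
      unfold c4
      simp only [this]
    have h5 : c4 μ (fun q => A (s0, q)) (lp V) =
        conv μ (conv μ (ZO μ w k O j) (Zr μ w n)) (conv μ (Zr μ w n) (Zr μ w n)) (lp V) := by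
      rw [← c4_ins (ZO_cls hc k hOc j) (Zr_cls hc n) q0]
      congr 1
      funext q
      simp only [A]
      by_cases hq : q = q0
      · simp [hq]
      · simp [hq]
    rw [← Finset.mul_prod_erase _ _ (Finset.mem_univ s0), h5,
      Finset.prod_congr rfl fun s hs => h4 s (Finset.ne_of_mem_erase hs), Finset.prod_const,
      Finset.card_erase_of_mem (Finset.mem_univ _), Finset.card_univ, Fintype.card_fin]
    rfl

theorem int_loop (hw : Continuous w) (hc : Cls w) (k j : ℕ) (P : Pq j) {O : G → ℝ}
    (hO : Continuous O) (hOc : Cls O) :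
    ∫ U : Ed (k + j) → G, O (loop k j P U) * wt w U ∂(Measure.pi fun _ => μ) =
      ∫ x, ZO μ w k O j x ∂μ := by
  set n := k + j with hn
  let φ : ((BE n → G) × (IE n → G)) →* (Ed n → G) :=
    { toFun := fun p => Sum.elim p.1 p.2
      map_one' := by
        funext e
        rcases e with e | e <;> rfl
      map_mul' := fun p q => by
        funext e
        rcases e with e | e <;> rfl }
  have hφ : Continuous φ := by
    refine continuous_pi fun e => ?_
    rcases e with e | e
    · exact (continuous_apply e).comp continuous_fst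
    · exact (continuous_apply e).comp continuous_snd
  have hs : Function.Surjective φ := fun I => ⟨(fun e => I (.inl e), fun e => I (.inr e)), by
    funext e
    rcases e with e | e <;> rfl⟩
  have i1 : (Measure.pi fun _ : BE n => μ).IsMulLeftInvariant := inferInstance
  have i2 : (Measure.pi fun _ : IE n => μ).IsMulLeftInvariant := inferInstance
  have i3 := Measure.prod.instIsMulLeftInvariant (μ := Measure.pi fun _ : BE n => μ)
    (ν := Measure.pi fun _ : IE n => μ)
  have hmp := mp_hom ((Measure.pi fun _ : BE n => μ).prod (Measure.pi fun _ : IE n => μ))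
    (Measure.pi fun _ : Ed n => μ) φ hφ hs
  have hlc : Continuous fun U : Ed n → G => loop k j P U :=
    lp_cont.comp (continuous_pi fun e => continuous_apply _)
  have hF : Continuous fun U : Ed n → G => O (loop k j P U) * wt w U :=
    (hO.comp hlc).mul (wt_cont hw)
  rw [int_mp hmp hF]
  have hcs : Continuous fun p => O (loop k j P (φ p)) * wt w (φ p) := hF.comp hφ
  rw [integral_prod _ (hcs.integrable_of_hasCompactSupport
    (HasCompactSupport.of_compactSpace _))]
  have h1 : ∀ V : BE n → G, ∫ I : IE n → G, O (loop k j P (φ (V, I))) * wt w (φ (V, I))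
      ∂(Measure.pi fun _ => μ) = ZO μ w k O j (lp V) := fun V => Zb_ins hw hc k hO hOc j P V
  simp only [h1]
  exact (int_mp (mp_lp (μ := μ) n) (F := fun x => ZO μ w k O j x) (ZO_cont hw k hO j)).symm

end

end Pool.Agent.N541.HC
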