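import Mathlib
import Pool.Agent.N541.HC.Dec

/-!
# Decimation: insertion of an observable of a subsquare
-/

open MeasureTheory Pool.Agent.N991.MK
open Pool.Agent.N989.MK

namespace Pool.Agent.N541.HC

set_option linter.unusedSectionVars false

noncomputable section

variable {G : Type*} [Group G] [TopologicalSpace G] [IsTopologicalGroup G] [CompactSpace G]
  [MeasurableSpace G] [BorelSpace G] [SecondCountableTopology G]
  {μ : Measure G} [IsProbabilityMeasure μ] [μ.IsHaarMeasure] [μ.IsMulRightInvariant]
  [μ.IsInvInvariant] {w : G → ℝ}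

variable (μ w)

/-- the partition functions with the insertion of `B` for a subsquare of level `k` -/
def ZI (k : ℕ) (B : G → ℝ) : ℕ → G → ℝ
  | 0 => B
  | j + 1 => fun x =>
      conv μ (conv μ (ZI k B j) (Zr μ w (k + j))) (conv μ (Zr μ w (k + j)) (Zr μ w (k + j))) x *
        conv μ (conv μ (Zr μ w (k + j)) (Zr μ w (k + j)))
          (conv μ (Zr μ w (k + j)) (Zr μ w (k + j))) x ^ 3

variable {μ w}

lemma ZI_cont (hw : Continuous w) (k : ℕ) {B : G → ℝ} (hB : Continuous B) : ∀ j,
    Continuous (ZI μ w k B j)
  | 0 => hB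
  | j + 1 => by
    have h := ZI_cont hw k hB j
    have hz := Zr_cont (μ := μ) hw (k + j)
    exact (cont_conv (cont_conv h hz) (cont_conv hz hz)).mul
      ((cont_conv (cont_conv hz hz) (cont_conv hz hz)).pow 3)

lemma ZI_cls (hw : Cls w) (k : ℕ) {B : G → ℝ} (hB : Cls B) : ∀ j, Cls (ZI μ w k B j)
  | 0 => hB
  | j + 1 => fun g x => by
    have h := ZI_cls hw k hB j
    have hz := Zr_cls (μ := μ) hw (k + j)
    change conv μ _ _ _ * conv μ _ _ _ ^ 3 = conv μ _ _ _ * conv μ _ _ _ ^ 3
    rw [conv_cls (conv_cls h hz) (conv_cls hz hz), conv_cls (conv_cls hz hz) (conv_cls hz hz)]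

theorem Zb_insG (hw : Continuous w) (hc : Cls w) (k : ℕ) {O : (Ed k → G) → ℝ}
    (hO : Continuous O) {B : G → ℝ} (hB : Continuous B) (hBc : Cls B)
    (hOB : ∀ V : BE k → G, ∫ I : IE k → G, O (Sum.elim V I) * wt w (Sum.elim V I : Ed k → G)
      ∂(Measure.pi fun _ => μ) = B (lp V)) :
    ∀ (j : ℕ) (P : Pq j) (V : BE (k + j) → G),
    ∫ I : IE (k + j) → G, O (fun e => (Sum.elim V I : Ed (k + j) → G) (emk k j P e)) *
      wt w (Sum.elim V I) ∂(Measure.pi fun _ => μ) = ZI μ w k B j (lp V)
  | 0, P, V => hOB V
  | j + 1, (s0, q0, P), V => by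
    have ih := Zb_insG hw hc k hO hB hBc hOB j P
    set n := k + j with hn
    -- the functions of the quarters
    let Φ : Fin 4 × Fin 4 → (Ed n → G) → ℝ := fun x U =>
      (if x = (s0, q0) then O (fun e => U (emk k j P e)) else 1) * wt w U
    let A : Fin 4 × Fin 4 → G → ℝ := fun x =>
      if x = (s0, q0) then ZI μ w k B j else Zr μ w n
    have hlc : Continuous fun (U : Ed n → G) (e : Ed k) => U (emk k j P e) :=
      continuous_pi fun e => continuous_apply _
    have hΦ : ∀ x, Continuous (Φ x) := by
      intro x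
      by_cases hx : x = (s0, q0)
      · simp only [Φ, hx, if_true]
        exact (hO.comp hlc).mul (wt_cont hw)
      · simp only [Φ, hx, if_false]
        exact continuous_const.mul (wt_cont hw)
    have hA : ∀ x, Continuous (A x) := by
      intro x
      by_cases hx : x = (s0, q0)
      · simp only [A, hx, if_true]; exact ZI_cont hw k hB j
      · simp only [A, hx, if_false]; exact Zr_cont hw n
    have hAc : ∀ x, Cls (A x) := by
      intro x
      by_cases hx : x = (s0, q0)
      · simp only [A, hx, if_true]; exact ZI_cls hc k hBc j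
      · simp only [A, hx, if_false]; exact Zr_cls hc n
    have h : ∀ x (V : BE n → G), ∫ I : IE n → G, Φ x (Sum.elim V I) ∂(Measure.pi fun _ => μ) =
        A x (lp V) := by
      intro x V
      by_cases hx : x = (s0, q0)
      · simp only [A, Φ, hx, if_true]; exact ih V
      · simp only [A, Φ, hx, if_false, one_mul]; exact Zb_eq hw hc n V
    have key := int_quarters Φ hΦ A hA hAc h V
    have h3 : ∀ U : Ed (n + 1) → G, ∏ x : Fin 4 × Fin 4, Φ x (fun e => U (emb x.1 x.2 e)) =
        O (fun e => U (emb s0 q0 (emk k j P e))) * wt w U := by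
      intro U
      rw [wt_quarters]
      simp only [Φ]
      rw [Finset.prod_mul_distrib]
      congr 1
      rw [Finset.prod_eq_single (s0, q0)]
      · exact if_pos rfl
      · intro b _ hb
        simp [hb]
      · intro hh
        exact absurd (Finset.mem_univ _) hh
    simp only [h3] at key
    change ∫ I : IE (n + 1) → G, O (fun e =>
      (Sum.elim V I : Ed (n + 1) → G) (emb s0 q0 (emk k j P e))) *
        wt w (Sum.elim V I : Ed (n + 1) → G) ∂(Measure.pi fun _ => μ) = _
    rw [key]
    -- the product over the sheets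
    have h4 : ∀ s : Fin 4, s ≠ s0 → c4 μ (fun q => A (s, q)) (lp V) =
        conv μ (conv μ (Zr μ w n) (Zr μ w n)) (conv μ (Zr μ w n) (Zr μ w n)) (lp V) := by
      intro s hs
      have : ∀ q, A (s, q) = Zr μ w n := fun q => by
        simp only [A]
        rw [if_neg]
        intro hh
        exact hs (congrArg Prod.fst hh)
      unfold c4
      simp only [this]
    have h5 : c4 μ (fun q => A (s0, q)) (lp V) =
        conv μ (conv μ (ZI μ w k B j) (Zr μ w n)) (conv μ (Zr μ w n) (Zr μ w n)) (lp V) := by
      rw [← c4_ins (ZI_cls hc k hBc j) (Zr_cls hc n) q0]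
      congr 1
      funext q
      simp only [A]
      by_cases hq : q = q0
      · simp [hq]
      · simp [hq]
    rw [← Finset.mul_prod_erase _ _ (Finset.mem_univ s0), h5,
      Finset.prod_congr rfl fun s hs => h4 s (Finset.ne_of_mem_erase hs), Finset.prod_const,
      Finset.card_erase_of_mem (Finset.mem_univ _), Finset.card_univ, Fintype.card_fin]
    rfl

theorem int_insG (hw : Continuous w) (hc : Cls w) (k : ℕ) {O : (Ed k → G) → ℝ}
    (hO : Continuous O) {B : G → ℝ} (hB : Continuous B) (hBc : Cls B)
    (hOB : ∀ V : BE k → G, ∫ I : IE k → G, O (Sum.elim V I) * wt w (Sum.elim V I : Ed k → G)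
      ∂(Measure.pi fun _ => μ) = B (lp V)) (j : ℕ) (P : Pq j) :
    ∫ U : Ed (k + j) → G, O (fun e => U (emk k j P e)) * wt w U ∂(Measure.pi fun _ => μ) =
      ∫ x, ZI μ w k B j x ∂μ := by
  set n := k + j with hn
  let φ : ((BE n → G) × (IE n → G)) →* (Ed n → G) :=
    { toFun := fun p => Sum.elim p.1 p.2
      map_one' := by
        funext e
        rcases e with e | e <;> rfl
      map_mul' := fun p q => by
        funext e
        rcases e with e | e <;> rfl }
  have hφ : Continuous φ := by
    refine continuous_pi fun e => ?_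
    rcases e with e | e
    · exact (continuous_apply e).comp continuous_fst
    · exact (continuous_apply e).comp continuous_snd
  have hs : Function.Surjective φ := fun I => ⟨(fun e => I (.inl e), fun e => I (.inr e)), by
    funext e
    rcases e with e | e <;> rfl⟩
  have i1 : (Measure.pi fun _ : BE n => μ).IsMulLeftInvariant := inferInstance
  have i2 : (Measure.pi fun _ : IE n => μ).IsMulLeftInvariant := inferInstance
  have i3 := Measure.prod.instIsMulLeftInvariant (μ := Measure.pi fun _ : BE n => μ)
    (ν := Measure.pi fun _ : IE n => μ)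
  have hmp := mp_hom ((Measure.pi fun _ : BE n => μ).prod (Measure.pi fun _ : IE n => μ))
    (Measure.pi fun _ : Ed n => μ) φ hφ hs
  have hlc : Continuous fun (U : Ed n → G) (e : Ed k) => U (emk k j P e) :=
    continuous_pi fun e => continuous_apply _
  have hF : Continuous fun U : Ed n → G => O (fun e => U (emk k j P e)) * wt w U :=
    (hO.comp hlc).mul (wt_cont hw)
  rw [int_mp hmp hF]
  have hcs : Continuous fun p => O (fun e => φ p (emk k j P e)) * wt w (φ p) := hF.comp hφ
  rw [integral_prod _ (hcs.integrable_of_hasCompactSupport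
    (HasCompactSupport.of_compactSpace _))]
  have h1 : ∀ V : BE n → G, ∫ I : IE n → G, O (fun e => φ (V, I) (emk k j P e)) * wt w (φ (V, I))
      ∂(Measure.pi fun _ => μ) = ZI μ w k B j (lp V) := fun V =>
    Zb_insG hw hc k hO hB hBc hOB j P V
  simp only [h1]
  exact (int_mp (mp_lp (μ := μ) n) (F := fun x => ZI μ w k B j x) (ZI_cont hw k hB j)).symm

/-- the partition function -/
lemma int_wt (hw : Continuous w) (hc : Cls w) (n : ℕ) :
    ∫ U : Ed n → G, wt w U ∂(Measure.pi fun _ => μ) = ∫ x, Zr μ w n x ∂μ := by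
  have h := int_lp (μ := μ) hw hc n (O := fun _ => 1) continuous_const
  simpa using h

end

end Pool.Agent.N541.HC
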