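import Mathlib
import Pool.Agent.N989.MK.Strong

/-!
# Averages over an open normal subgroup
-/

open MeasureTheory Pool.Agent.N991.MK Filter
open Pool.Agent.N989.MK
open scoped Topology

namespace Pool.Agent.N541.HC

set_option linter.unusedSectionVars false

noncomputable section

variable {G : Type*} [Group G] [TopologicalSpace G] [IsTopologicalGroup G] [CompactSpace G]
  [MeasurableSpace G] [BorelSpace G] [SecondCountableTopology G]
  (μ : Measure G) [IsProbabilityMeasure μ] [μ.IsHaarMeasure] [μ.IsMulRightInvariant]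
  [μ.IsInvInvariant] (H : Subgroup G)

/-- the normalised indicator of the subgroup -/
def ee : G → ℝ := Set.indicator (H : Set G) (fun _ => (μ.real (H : Set G))⁻¹)

/-- the average over the subgroup -/
def Av (F : G → ℝ) : G → ℝ := conv μ (ee μ H) F

variable {μ H}

/-- open subgroup -/
lemma p_pos (hH : IsOpen (H : Set G)) : 0 < μ.real (H : Set G) := by
  rw [measureReal_def]
  refine ENNReal.toReal_pos ?_ (measure_ne_top _ _)
  exact (hH.measure_pos μ ⟨1, H.one_mem⟩).ne'

lemma p_le : μ.real (H : Set G) ≤ 1 := measureReal_le_one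

lemma clopen (hH : IsOpen (H : Set G)) : IsClopen (H : Set G) :=
  ⟨Subgroup.isClosed_of_isOpen H hH, hH⟩

lemma ee_mem {x : G} (hx : x ∈ H) : ee μ H x = (μ.real (H : Set G))⁻¹ :=
  Set.indicator_of_mem (s := (H : Set G)) hx _

lemma ee_not {x : G} (hx : x ∉ H) : ee μ H x = 0 :=
  Set.indicator_of_notMem (s := (H : Set G)) hx _

lemma ee_nonneg (x : G) : 0 ≤ ee μ H x :=
  Set.indicator_nonneg (fun _ _ => inv_nonneg.2 measureReal_nonneg) x

lemma ee_cont (hH : IsOpen (H : Set G)) : Continuous (ee μ H) := by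
  refine continuous_indicator ?_ continuousOn_const
  intro a ha
  rw [(clopen hH).frontier_eq] at ha
  exact absurd ha (Set.notMem_empty a)

lemma ee_congr {x y : G} (h : x ∈ H ↔ y ∈ H) : ee μ H x = ee μ H y := by
  by_cases hx : x ∈ H
  · rw [ee_mem hx, ee_mem (h.1 hx)]
  · rw [ee_not hx, ee_not fun hy => hx (h.2 hy)]

lemma ee_mul_left {h : G} (hh : h ∈ H) (x : G) : ee μ H (h * x) = ee μ H x :=
  ee_congr (H.mul_mem_cancel_left hh)

lemma ee_mul_right {h : G} (hh : h ∈ H) (x : G) : ee μ H (x * h) = ee μ H x :=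
  ee_congr (H.mul_mem_cancel_right hh)

lemma ee_inv (x : G) : ee μ H x⁻¹ = ee μ H x := ee_congr inv_mem_iff

lemma ee_cls [H.Normal] : Cls (ee μ H) := fun g x =>
  ee_congr (Subgroup.Normal.mem_comm_iff inferInstance |>.trans (by simp))

lemma ee_int (hH : IsOpen (H : Set G)) : ∫ x, ee μ H x ∂μ = 1 := by
  unfold ee
  rw [integral_indicator hH.measurableSet]
  simp [(p_pos (μ := μ) hH).ne']

lemma Av_def (F : G → ℝ) (x : G) : Av μ H F x = ∫ y, ee μ H y * F (y⁻¹ * x) ∂μ := rfl

lemma Av_cont (hH : IsOpen (H : Set G)) {F : G → ℝ} (hF : Continuous F) :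
    Continuous (Av μ H F) := cont_conv (ee_cont hH) hF

lemma Av_inv {h : G} (hh : h ∈ H) (F : G → ℝ) (x : G) : Av μ H F (h * x) = Av μ H F x := by
  rw [Av_def, Av_def, ← integral_mul_left_eq_self (μ := μ)
    (fun y => ee μ H y * F (y⁻¹ * (h * x))) h]
  refine integral_congr_ae (Filter.Eventually.of_forall fun y => ?_)
  beta_reduce
  rw [ee_mul_left hh]
  congr 2
  group

lemma Av_int (hH : IsOpen (H : Set G)) {F : G → ℝ} (hF : Continuous F) :
    ∫ x, Av μ H F x ∂μ = ∫ x, F x ∂μ := by
  unfold Av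
  rw [int_conv (ee_cont hH) hF, ee_int hH, one_mul]

lemma Av_congr {F F' : G → ℝ} {x : G} (h : ∀ y ∈ H, F (y * x) = F' (y * x)) :
    Av μ H F x = Av μ H F' x := by
  rw [Av_def, Av_def]
  refine integral_congr_ae (Filter.Eventually.of_forall fun y => ?_)
  beta_reduce
  by_cases hy : y ∈ H
  · rw [h _ (H.inv_mem hy)]
  · rw [ee_not hy, zero_mul, zero_mul]

lemma Av_const (hH : IsOpen (H : Set G)) (c : ℝ) (x : G) : Av μ H (fun _ => c) x = c := by
  rw [Av_def, integral_mul_const, ee_int hH, one_mul]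

lemma Av_id (hH : IsOpen (H : Set G)) {F : G → ℝ} {x : G} (h : ∀ y ∈ H, F (y * x) = F x) :
    Av μ H F x = F x := by
  rw [Av_congr (F' := fun _ => F x) h, Av_const hH]

lemma Av_mul (F T : G → ℝ) (x : G) (h : ∀ y ∈ H, F (y * x) = F x) :
    Av μ H (fun z => F z * T z) x = F x * Av μ H T x := by
  rw [Av_congr (F' := fun z => F x * T z) (fun y hy => by rw [h y hy]), Av_def,
    Av_def, ← integral_const_mul]
  refine integral_congr_ae (Filter.Eventually.of_forall fun y => ?_)
  beta_reduce
  ring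

lemma integrable_Av (hH : IsOpen (H : Set G)) {F : G → ℝ} (hF : Continuous F) (x : G) :
    Integrable (fun y => ee μ H y * F (y⁻¹ * x)) μ :=
  integrable_of_cont ((ee_cont hH).mul (hF.comp (continuous_inv.mul continuous_const)))

lemma Av_mono (hH : IsOpen (H : Set G)) {F F' : G → ℝ} (hF : Continuous F) (hF' : Continuous F')
    {x : G} (h : ∀ y ∈ H, F (y * x) ≤ F' (y * x)) : Av μ H F x ≤ Av μ H F' x := by
  rw [Av_def, Av_def]
  refine integral_mono (integrable_Av hH hF x) (integrable_Av hH hF' x) fun y => ?_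
  beta_reduce
  by_cases hy : y ∈ H
  · exact mul_le_mul_of_nonneg_left (h _ (H.inv_mem hy)) (ee_nonneg y)
  · rw [ee_not hy, zero_mul, zero_mul]

lemma Av_add (hH : IsOpen (H : Set G)) {F F' : G → ℝ} (hF : Continuous F) (hF' : Continuous F')
    (x : G) : Av μ H (fun z => F z + F' z) x = Av μ H F x + Av μ H F' x := by
  rw [Av_def, Av_def, Av_def, ← integral_add (integrable_Av hH hF x) (integrable_Av hH hF' x)]
  refine integral_congr_ae (Filter.Eventually.of_forall fun y => ?_)
  beta_reduce
  ring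

lemma Av_smul (c : ℝ) (F : G → ℝ) (x : G) : Av μ H (fun z => c * F z) x = c * Av μ H F x := by
  rw [Av_def, Av_def, ← integral_const_mul]
  refine integral_congr_ae (Filter.Eventually.of_forall fun y => ?_)
  beta_reduce
  ring

lemma Av_sub (hH : IsOpen (H : Set G)) {F F' : G → ℝ} (hF : Continuous F) (hF' : Continuous F')
    (x : G) : Av μ H (fun z => F z - F' z) x = Av μ H F x - Av μ H F' x := by
  rw [Av_def, Av_def, Av_def, ← integral_sub (integrable_Av hH hF x) (integrable_Av hH hF' x)]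
  refine integral_congr_ae (Filter.Eventually.of_forall fun y => ?_)
  beta_reduce
  ring

lemma Av_sd (hH : IsOpen (H : Set G)) {a b c : G → ℝ} (ha : Continuous a) (hb : Continuous b)
    (hc : Continuous c) (x : G) :
    Av μ H (fun z => a z + b z - 2 * c z) x = Av μ H a x + Av μ H b x - 2 * Av μ H c x := by
  rw [Av_sub hH (F := fun z => a z + b z) (F' := fun z => 2 * c z) (ha.add hb)
    (continuous_const.mul hc), Av_add hH ha hb, Av_smul]

lemma Av_pos (hH : IsOpen (H : Set G)) {F : G → ℝ} (hF : Continuous F) (h0 : ∀ x, 0 < F x)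
    (x : G) : 0 < Av μ H F x := by
  obtain ⟨z, -, hz⟩ := isCompact_univ.exists_isMinOn (Set.univ_nonempty (α := G)) hF.continuousOn
  have h1 : Av μ H (fun _ => F z) x ≤ Av μ H F x :=
    Av_mono hH continuous_const hF fun y _ => hz (Set.mem_univ _)
  rw [Av_const hH] at h1
  exact (h0 z).trans_le h1

lemma Av_cls [H.Normal] {F : G → ℝ} (hF : Cls F) : Cls (Av μ H F) := conv_cls ee_cls hF

/-- the average of a left translate by an element of the subgroup -/
lemma Av_shift {h : G} (hh : h ∈ H) (g : G → ℝ) (y : G) :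
    Av μ H (fun z => g (h * z)) y = Av μ H g y := by
  rw [Av_def, Av_def, ← integral_mul_right_eq_self (μ := μ)
    (fun z => ee μ H z * g (h * (z⁻¹ * y))) h]
  refine integral_congr_ae (Filter.Eventually.of_forall fun z => ?_)
  beta_reduce
  rw [ee_mul_right hh]
  congr 2
  group

/-- the average of a function of the inverse -/
lemma Av_shift_inv {h : G} (hh : h ∈ H) (g : G → ℝ) (x y : G) :
    Av μ H (fun z => g (z⁻¹ * h * x)) y = Av μ H (fun z => g (z⁻¹ * x)) y := by
  rw [Av_def, Av_def, ← integral_mul_right_eq_self (μ := μ)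
    (fun z => ee μ H z * g ((z⁻¹ * y)⁻¹ * h * x)) h⁻¹]
  refine integral_congr_ae (Filter.Eventually.of_forall fun z => ?_)
  beta_reduce
  rw [ee_mul_right (H.inv_mem hh)]
  congr 2
  group

/-- the integral against an invariant function -/
lemma int_Av_mul (hH : IsOpen (H : Set G)) {F T : G → ℝ} (hF : Continuous F) (hT : Continuous T)
    (h : ∀ y ∈ H, ∀ x, F (y * x) = F x) :
    ∫ x, F x * T x ∂μ = ∫ x, F x * Av μ H T x ∂μ := by
  rw [← Av_int hH (F := fun x => F x * T x) (hF.mul hT)]
  refine integral_congr_ae (Filter.Eventually.of_forall fun x => ?_)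
  exact Av_mul F T x fun y hy => h y hy x

/-- associativity of the convolution -/
lemma conv_assoc' {a b c : G → ℝ} (ha : Continuous a) (hb : Continuous b) (hc : Continuous c) :
    conv μ (conv μ a b) c = conv μ a (conv μ b c) := by
  funext x
  have e1 : conv μ (conv μ a b) c x = ∫ y, ∫ z, a z * b (z⁻¹ * y) * c (y⁻¹ * x) ∂μ ∂μ := by
    unfold conv
    refine integral_congr_ae (Filter.Eventually.of_forall fun y => ?_)
    beta_reduce
    rw [← integral_mul_const]
  have e2 : conv μ a (conv μ b c) x = ∫ z, ∫ y, a z * b (z⁻¹ * y) * c (y⁻¹ * x) ∂μ ∂μ := by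
    unfold conv
    refine integral_congr_ae (Filter.Eventually.of_forall fun z => ?_)
    beta_reduce
    rw [← integral_const_mul, ← integral_mul_left_eq_self (μ := μ) _ z⁻¹]
    refine integral_congr_ae (Filter.Eventually.of_forall fun y => ?_)
    beta_reduce
    have : (z⁻¹ * y)⁻¹ * (z⁻¹ * x) = y⁻¹ * x := by group
    rw [this]
    ring
  rw [e1, e2]
  have hcc : Continuous fun p : G × G => a p.2 * b (p.2⁻¹ * p.1) * c (p.1⁻¹ * x) := by fun_prop
  exact integral_integral_swap (f := fun y z => a z * b (z⁻¹ * y) * c (y⁻¹ * x))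
    (hcc.integrable_of_hasCompactSupport (HasCompactSupport.of_compactSpace _))

lemma Av_conv_left (hH : IsOpen (H : Set G)) {f g : G → ℝ} (hf : Continuous f)
    (hg : Continuous g) : Av μ H (conv μ f g) = conv μ (Av μ H f) g :=
  (conv_assoc' (ee_cont hH) hf hg).symm

lemma Av_conv_right [H.Normal] (hH : IsOpen (H : Set G)) {f g : G → ℝ} (hf : Continuous f)
    (hg : Continuous g) (cf : Cls f) (cg : Cls g) :
    Av μ H (conv μ f g) = conv μ f (Av μ H g) := by
  rw [conv_comm cf cg, Av_conv_left hH hg hf, conv_comm (Av_cls cg) cf]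

lemma Av_Av (hH : IsOpen (H : Set G)) (F : G → ℝ) : Av μ H (Av μ H F) = Av μ H F := by
  funext x
  exact Av_id hH fun y hy => Av_inv hy F x

end

end Pool.Agent.N541.HC
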