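import Mathlib
import Pool.Agent.N541.HC.Av

/-!
# Semiconcave weights on a compact group which is not connected
-/

open MeasureTheory Pool.Agent.N991.MK Filter
open Pool.Agent.N989.MK
open scoped Topology

namespace Pool.Agent.N541.HC

set_option linter.unusedSectionVars false

noncomputable section

section

variable {G : Type*} [Group G] {n : ℕ}

/-- the subgroup is generated by at most `m` exponentials -/
def GenH (D : ED G n) (H : Subgroup G) (m : ℕ) : Prop := ∀ x ∈ H, ∃ l : List (Fin n → ℝ),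
  l.length ≤ m ∧ (∀ X ∈ l, qf X ≤ 1) ∧ x = (l.map D.E).prod

variable {D : ED G n} {H : Subgroup G}

lemma list_mem (hE : ∀ X, D.E X ∈ H) (l : List (Fin n → ℝ)) : (l.map D.E).prod ∈ H := by
  refine H.list_prod_mem fun x hx => ?_
  obtain ⟨X, -, rfl⟩ := List.mem_map.1 hx
  exact hE X

lemma SC.listH {K : ℝ} (hK : 0 ≤ K) {f : G → ℝ} (hf : SC D K f) (hE : ∀ X, D.E X ∈ H) {M : ℝ}
    (y : G) (hM : ∀ x ∈ H, Real.log (f (x * y)) ≤ M) (hy : Real.log (f y) = M)
    (l : List (Fin n → ℝ)) (hl : ∀ X ∈ l, qf X ≤ 1) :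
    M - Real.log (f ((l.map D.E).prod * y)) ≤ (2 ^ l.length - 1) * K := by
  induction l with
  | nil => simp [hy]
  | cons X l ih =>
    have h1 := ih fun Z hZ => hl Z (List.mem_cons_of_mem _ hZ)
    have h0 := hf X ((l.map D.E).prod * y)
    have h2 := hM (D.E (-X) * (l.map D.E).prod) (H.mul_mem (hE _) (list_mem hE l))
    rw [mul_assoc] at h2
    have h3 := mul_le_mul_of_nonneg_left (hl X List.mem_cons_self) hK
    simp only [List.map_cons, List.prod_cons, List.length_cons, pow_succ]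
    rw [mul_assoc (D.E X)]
    linarith

end

variable {G : Type*} [Group G] [TopologicalSpace G] [IsTopologicalGroup G] [CompactSpace G]
  [MeasurableSpace G] [BorelSpace G] [SecondCountableTopology G]
  {n : ℕ} {D : ED G n} {H : Subgroup G}

/-- bound of the oscillation in a coset -/
theorem SC.oscH {m : ℕ} (hH : IsOpen (H : Set G)) (hE : ∀ X, D.E X ∈ H) (hg : GenH D H m) {K : ℝ}
    (hK : 0 ≤ K) {f : G → ℝ} (hfc : Continuous f) (h0 : ∀ x, 0 < f x) (hf : SC D K f) (x y : G)
    (hy : y ∈ H) : Real.log (f (y * x)) - Real.log (f x) ≤ 2 ^ m * K := by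
  have hc : Continuous fun z => Real.log (f z) := hfc.log fun z => (h0 z).ne'
  have hc2 : Continuous fun z => Real.log (f (z * x)) :=
    hc.comp (continuous_id.mul continuous_const)
  have hcp : IsCompact (H : Set G) := (Subgroup.isClosed_of_isOpen H hH).isCompact
  obtain ⟨z, hzH, hz⟩ := hcp.exists_isMaxOn ⟨1, H.one_mem⟩ hc2.continuousOn
  have hM : ∀ a ∈ H, Real.log (f (a * x)) ≤ Real.log (f (z * x)) := fun a ha => hz ha
  obtain ⟨l, hl1, hl2, hl3⟩ := hg z⁻¹ (H.inv_mem hzH)
  have h1 := SC.listH hK hf hE (M := Real.log (f (z * x))) (z * x)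
    (fun a ha => by rw [← mul_assoc]; exact hM _ (H.mul_mem ha hzH)) rfl l hl2
  rw [← hl3, inv_mul_cancel_left] at h1
  have h2 : (2 : ℝ) ^ l.length ≤ 2 ^ m := pow_le_pow_right₀ (by norm_num) hl1
  have h4 := hM y hy
  nlinarith [mul_le_mul_of_nonneg_right h2 hK]

variable {μ : Measure G} [IsProbabilityMeasure μ] [μ.IsHaarMeasure] [μ.IsMulRightInvariant]
  [μ.IsInvInvariant]

/-- the convolution with itself halves the constant, and a bit more -/
theorem SC.convH [H.Normal] (hH : IsOpen (H : Set G)) (hE : ∀ X, D.E X ∈ H) {K Λ : ℝ}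
    (hK : 0 ≤ K) {f : G → ℝ} (hfc : Continuous f) (h0 : ∀ x, 0 < f x) (hf : SC D K f)
    (hΛ : ∀ x, ∀ y ∈ H, Real.log (f (y * x)) - Real.log (f x) ≤ Λ) :
    SC D (K / 2 * (1 - Real.exp (-(2 * Λ)))) (conv μ f f) := by
  intro X x
  set Y : Fin n → ℝ := (1 / 2 : ℝ) • X with hY
  have hXY : X = (2 : ℝ) • Y := by rw [hY, smul_smul]; norm_num
  have hqX : qf X = 4 * qf Y := by rw [hXY, qf_smul]; norm_num
  have hq0 := qf_nonneg Y
  have hnX : -X = (2 : ℝ) • (-Y) := by rw [smul_neg, ← hXY]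
  have hlc : Continuous fun x => Real.log (f x) := hfc.log fun x => (h0 x).ne'
  have hi : ∀ {g : G → ℝ}, Continuous g → Integrable g μ := fun hg => integrable_of_cont hg
  -- shifted convolutions
  have hsh : ∀ Z : Fin n → ℝ, Pool.Agent.N991.MK.conv μ f f (D.E ((2 : ℝ) • Z) * x) =
      ∫ y, f (D.E Z * y) * f (y⁻¹ * D.E Z * x) ∂μ := by
    intro Z
    unfold Pool.Agent.N991.MK.conv
    rw [← integral_mul_left_eq_self (μ := μ)
      (fun y => f y * f (y⁻¹ * (D.E ((2 : ℝ) • Z) * x))) (D.E Z)]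
    refine integral_congr_ae (Filter.Eventually.of_forall fun y => ?_)
    beta_reduce
    rw [D.dbl]
    congr 2
    group
  set Fp : G → ℝ := fun y => f (D.E Y * y) * f (y⁻¹ * D.E Y * x) with hFp
  set Fm : G → ℝ := fun y => f (D.E (-Y) * y) * f (y⁻¹ * D.E (-Y) * x) with hFm
  set F0 : G → ℝ := fun y => f y * f (y⁻¹ * x) with hF0
  set S : G → ℝ := fun y => (Real.log (f (D.E Y * y)) + Real.log (f (D.E (-Y) * y)) -
    2 * Real.log (f y)) + (Real.log (f (y⁻¹ * D.E Y * x)) +
      Real.log (f (y⁻¹ * D.E (-Y) * x)) - 2 * Real.log (f (y⁻¹ * x))) with hS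
  have cp : Continuous Fp := by rw [hFp]; fun_prop
  have cm : Continuous Fm := by rw [hFm]; fun_prop
  have c0 : Continuous F0 := by rw [hF0]; fun_prop
  have a1 : Continuous fun y : G => D.E Y * y := by fun_prop
  have a2 : Continuous fun y : G => D.E (-Y) * y := by fun_prop
  have a3 : Continuous fun y : G => y⁻¹ * D.E Y * x := by fun_prop
  have a4 : Continuous fun y : G => y⁻¹ * D.E (-Y) * x := by fun_prop
  have a5 : Continuous fun y : G => y⁻¹ * x := by fun_prop
  have cS1 : Continuous fun y => (Real.log (f (D.E Y * y)) + Real.log (f (D.E (-Y) * y)) -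
    2 * Real.log (f y)) := ((hlc.comp a1).add (hlc.comp a2)).sub (continuous_const.mul hlc)
  have cS2 : Continuous fun y => (Real.log (f (y⁻¹ * D.E Y * x)) +
      Real.log (f (y⁻¹ * D.E (-Y) * x)) - 2 * Real.log (f (y⁻¹ * x))) :=
    ((hlc.comp a3).add (hlc.comp a4)).sub (continuous_const.mul (hlc.comp a5))
  have cS : Continuous S := cS1.add cS2
  have pp : ∀ y, 0 < Fp y := fun y => mul_pos (h0 _) (h0 _)
  have pm : ∀ y, 0 < Fm y := fun y => mul_pos (h0 _) (h0 _)
  have p0 : ∀ y, 0 < F0 y := fun y => mul_pos (h0 _) (h0 _)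
  have hpos : ∀ {F : G → ℝ}, Continuous F → (∀ y, 0 < F y) → 0 < ∫ y, F y ∂μ :=
    fun hF hF0 => int_pos hF hF0
  set hp := ∫ y, Fp y ∂μ with hhp
  set hm := ∫ y, Fm y ∂μ with hhm
  set hz := ∫ y, F0 y ∂μ with hhz
  have hp0 : 0 < hp := hpos cp pp
  have hm0 : 0 < hm := hpos cm pm
  have hz0 : 0 < hz := hpos c0 p0
  -- the product of the shifted functions
  have hlogS : ∀ y, S y = Real.log (Fp y) + Real.log (Fm y) - 2 * Real.log (F0 y) := by
    intro y
    simp only [hS, hFp, hFm, hF0]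
    rw [Real.log_mul (h0 _).ne' (h0 _).ne', Real.log_mul (h0 _).ne' (h0 _).ne',
      Real.log_mul (h0 _).ne' (h0 _).ne']
    ring
  have hprod : ∀ y, (F0 y * Real.exp (S y / 2)) ^ 2 = Fp y * Fm y := by
    intro y
    have e1 : Real.exp (S y / 2) ^ 2 = Real.exp (S y) := by
      rw [← Real.exp_nat_mul]; congr 1; push_cast; ring
    rw [mul_pow, e1, hlogS, Real.exp_sub, Real.exp_add, Real.exp_log (pp y), Real.exp_log (pm y)]
    have e2 : Real.exp (2 * Real.log (F0 y)) = F0 y ^ 2 := by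
      rw [mul_comm, Real.exp_mul, Real.exp_log (p0 y)]
      norm_cast
    rw [e2]
    field_simp [(p0 y).ne']
  -- lower bound of S
  have hSl : ∀ y, -(2 * K * qf Y) ≤ S y := by
    intro y
    have h1 := hf Y y
    obtain ⟨Y', e1, e2, e3⟩ := D.ad y Y
    have h2 := hf Y' (y⁻¹ * x)
    rw [e3, ← e1, ← e2] at h2
    have e4 : y⁻¹ * D.E Y * y * (y⁻¹ * x) = y⁻¹ * D.E Y * x := by group
    have e5 : y⁻¹ * D.E (-Y) * y * (y⁻¹ * x) = y⁻¹ * D.E (-Y) * x := by group
    rw [e4, e5] at h2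
    simp only [hS]
    linarith
  -- the mean of S over the cosets vanishes
  have hS0 : ∀ y, Av μ H S y = 0 := by
    intro y
    have b1 : ∀ a : G, Continuous fun z => Real.log (f (a * z)) := fun a =>
      hlc.comp (continuous_const.mul continuous_id)
    have b2 : ∀ a : G, Continuous fun z => Real.log (f (z⁻¹ * a * x)) := fun a =>
      hlc.comp ((continuous_inv.mul continuous_const).mul continuous_const)
    have b3 : Continuous fun z => Real.log (f (z⁻¹ * x)) :=
      hlc.comp (continuous_inv.mul continuous_const)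
    rw [hS, Av_add hH cS1 cS2, Av_sd hH (b1 (D.E Y)) (b1 (D.E (-Y))) hlc,
      Av_sd hH (b2 (D.E Y)) (b2 (D.E (-Y))) b3,
      Av_shift (hE Y) (fun z => Real.log (f z)), Av_shift (hE (-Y)) (fun z => Real.log (f z)),
      Av_shift_inv (hE Y) (fun z => Real.log (f z)),
      Av_shift_inv (hE (-Y)) (fun z => Real.log (f z))]
    ring
  -- lower bound of the density by its mean over the coset
  have hF0l : ∀ y, Real.exp (-(2 * Λ)) * Av μ H F0 y ≤ F0 y := by
    intro y
    have h1 : ∀ z ∈ H, Real.exp (-(2 * Λ)) * F0 (z * y) ≤ F0 y := by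
      intro z hz
      have h2 : Real.log (F0 (z * y)) - Real.log (F0 y) ≤ 2 * Λ := by
        simp only [hF0]
        rw [Real.log_mul (h0 _).ne' (h0 _).ne', Real.log_mul (h0 _).ne' (h0 _).ne']
        have h3 := hΛ y z hz
        have h4 := hΛ (y⁻¹ * x) (y⁻¹ * z⁻¹ * y⁻¹⁻¹)
          (Subgroup.Normal.conj_mem inferInstance _ (H.inv_mem hz) _)
        have e : y⁻¹ * z⁻¹ * y⁻¹⁻¹ * (y⁻¹ * x) = (z * y)⁻¹ * x := by group
        rw [e] at h4
        linarith
      calc Real.exp (-(2 * Λ)) * F0 (z * y) ≤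
          Real.exp (Real.log (F0 y) - Real.log (F0 (z * y))) * F0 (z * y) := by
            refine mul_le_mul_of_nonneg_right (Real.exp_le_exp.2 (by linarith)) (p0 _).le
        _ = F0 y := by
            rw [Real.exp_sub, Real.exp_log (p0 y), Real.exp_log (p0 _)]
            field_simp [(p0 (z * y)).ne']
    have h5 := Av_mono (μ := μ) hH (F := fun z => Real.exp (-(2 * Λ)) * F0 z)
      (F' := fun _ => F0 y) (continuous_const.mul c0) continuous_const (x := y) h1
    rwa [Av_const hH, Av_smul] at h5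
  -- the mean of S with respect to the density
  set c : ℝ := (∫ y, F0 y * S y ∂μ) / hz with hc
  have hcl : -(2 * K * qf Y) * (1 - Real.exp (-(2 * Λ))) ≤ c := by
    have cA := Av_cont (μ := μ) hH c0
    have h1 : ∫ y, Real.exp (-(2 * Λ)) * (Av μ H F0 y * (S y + 2 * K * qf Y)) ∂μ ≤
        ∫ y, F0 y * (S y + 2 * K * qf Y) ∂μ := by
      refine integral_mono (hi (continuous_const.mul (cA.mul (cS.add continuous_const))))
        (hi (c0.mul (cS.add continuous_const))) fun y => ?_
      show Real.exp (-(2 * Λ)) * (Av μ H F0 y * (S y + 2 * K * qf Y)) ≤ _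
      rw [← mul_assoc]
      exact mul_le_mul_of_nonneg_right (hF0l y) (by linarith [hSl y])
    have h3 : ∫ y, Av μ H F0 y * (S y + 2 * K * qf Y) ∂μ = hz * (2 * K * qf Y) := by
      rw [int_Av_mul hH (F := Av μ H F0) (T := fun y => S y + 2 * K * qf Y) cA
        (cS.add continuous_const) (fun y hy x => Av_inv hy F0 x)]
      have e : ∀ y, Av μ H (fun y => S y + 2 * K * qf Y) y = 2 * K * qf Y := fun y => by
        rw [Av_add hH cS continuous_const, hS0, Av_const hH, zero_add]
      simp only [e]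
      rw [integral_mul_const, Av_int hH c0]
    rw [integral_const_mul, h3] at h1
    have h2 : ∫ y, F0 y * (S y + 2 * K * qf Y) ∂μ = ∫ y, F0 y * S y ∂μ +
        hz * (2 * K * qf Y) := by
      have e : ∀ y, F0 y * (S y + 2 * K * qf Y) = F0 y * S y + F0 y * (2 * K * qf Y) :=
        fun y => by ring
      simp only [e]
      have I1 : Integrable (fun y => F0 y * S y) μ := hi (c0.mul cS)
      have I2 : Integrable (fun y => F0 y * (2 * K * qf Y)) μ := hi (c0.mul continuous_const)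
      rw [integral_add I1 I2, integral_mul_const]
    rw [h2] at h1
    rw [hc, le_div_iff₀ hz0]
    nlinarith
  -- Jensen
  set U := ∫ y, F0 y * Real.exp (S y / 2) ∂μ with hU
  have cU : Continuous fun y => F0 y * Real.exp (S y / 2) :=
    c0.mul (Real.continuous_exp.comp (cS.div_const 2))
  have hJ : Real.exp (c / 2) * hz ≤ U := by
    have h1 : ∫ y, F0 y * (Real.exp (c / 2) * (1 + (S y / 2 - c / 2))) ∂μ ≤ U := by
      refine integral_mono (hi (c0.mul (continuous_const.mul (continuous_const.add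
        ((cS.div_const 2).sub continuous_const))))) (hi cU) fun y => ?_
      refine mul_le_mul_of_nonneg_left ?_ (p0 y).le
      have h3 := Real.add_one_le_exp (S y / 2 - c / 2)
      calc Real.exp (c / 2) * (1 + (S y / 2 - c / 2)) ≤
          Real.exp (c / 2) * Real.exp (S y / 2 - c / 2) :=
            mul_le_mul_of_nonneg_left (by linarith) (Real.exp_pos _).le
        _ = Real.exp (S y / 2) := by rw [← Real.exp_add]; congr 1; ring
    have h2 : ∫ y, F0 y * (Real.exp (c / 2) * (1 + (S y / 2 - c / 2))) ∂μ =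
        Real.exp (c / 2) * hz := by
      have e : ∀ y, F0 y * (Real.exp (c / 2) * (1 + (S y / 2 - c / 2))) =
          Real.exp (c / 2) * (1 - c / 2) * F0 y + Real.exp (c / 2) / 2 * (F0 y * S y) :=
        fun y => by ring
      simp only [e]
      have I1 : Integrable (fun y => Real.exp (c / 2) * (1 - c / 2) * F0 y) μ :=
        hi (continuous_const.mul c0)
      have I2 : Integrable (fun y => Real.exp (c / 2) / 2 * (F0 y * S y)) μ :=
        hi (continuous_const.mul (c0.mul cS))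
      rw [integral_add I1 I2, integral_const_mul, integral_const_mul]
      have h4 : ∫ y, F0 y * S y ∂μ = c * hz := by rw [hc]; field_simp
      rw [h4]
      ring
    rw [h2] at h1
    exact h1
  -- Cauchy-Schwarz
  have hCS : U ^ 2 ≤ hp * hm := by
    set lam := Real.sqrt (hm / hp) with hlam
    have hl0 : 0 < lam := Real.sqrt_pos.2 (div_pos hm0 hp0)
    have hl2 : lam ^ 2 = hm / hp := Real.sq_sqrt (div_pos hm0 hp0).le
    have h1 : ∀ y, 2 * (F0 y * Real.exp (S y / 2)) ≤ lam * Fp y + lam⁻¹ * Fm y := by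
      intro y
      have h2 := hprod y
      have h3 : 0 < F0 y * Real.exp (S y / 2) := mul_pos (p0 y) (Real.exp_pos _)
      have h5 : (2 * (F0 y * Real.exp (S y / 2))) ^ 2 ≤ (lam * Fp y + lam⁻¹ * Fm y) ^ 2 := by
        have e : (lam * Fp y) * (lam⁻¹ * Fm y) = Fp y * Fm y := by
          field_simp [hl0.ne']
        have : (lam * Fp y + lam⁻¹ * Fm y) ^ 2 = (lam * Fp y - lam⁻¹ * Fm y) ^ 2 +
            4 * ((lam * Fp y) * (lam⁻¹ * Fm y)) := by ring
        rw [this, e, ← h2]
        nlinarith [sq_nonneg (lam * Fp y - lam⁻¹ * Fm y)]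
      have h6 : 0 ≤ lam * Fp y + lam⁻¹ * Fm y :=
        add_nonneg (mul_pos hl0 (pp y)).le (mul_pos (inv_pos.2 hl0) (pm y)).le
      exact abs_le_of_sq_le_sq' h5 h6 |>.2
    have h2 : 2 * U ≤ lam * hp + lam⁻¹ * hm := by
      have I1 : Integrable (fun y => 2 * (F0 y * Real.exp (S y / 2))) μ :=
        hi (continuous_const.mul cU)
      have I2 : Integrable (fun y => lam * Fp y) μ := hi (continuous_const.mul cp)
      have I3 : Integrable (fun y => lam⁻¹ * Fm y) μ := hi (continuous_const.mul cm)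
      have h3 : ∫ y, 2 * (F0 y * Real.exp (S y / 2)) ∂μ ≤ ∫ y, lam * Fp y + lam⁻¹ * Fm y ∂μ :=
        integral_mono I1 (I2.add I3) h1
      rw [integral_const_mul, integral_add I2 I3, integral_const_mul, integral_const_mul] at h3
      exact h3
    have h3 : lam * hp + lam⁻¹ * hm = 2 * (lam * hp) := by
      have e : lam⁻¹ * hm = lam * hp := by
        have : hm = lam ^ 2 * hp := by rw [hl2]; field_simp
        rw [this]
        field_simp
      rw [e]; ring
    have h4 : U ≤ lam * hp := by linarith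
    have hU0 : 0 ≤ U := (mul_pos (Real.exp_pos _) hz0).le.trans hJ
    calc U ^ 2 ≤ (lam * hp) ^ 2 := pow_le_pow_left₀ hU0 h4 2
      _ = hp * hm := by rw [mul_pow, hl2]; field_simp
  -- conclusion
  have e1 : Pool.Agent.N991.MK.conv μ f f (D.E X * x) = hp := by
    rw [hXY]; exact hsh Y
  have e2 : Pool.Agent.N991.MK.conv μ f f (D.E (-X) * x) = hm := by
    rw [hnX]; exact hsh (-Y)
  have e3 : Pool.Agent.N991.MK.conv μ f f x = hz := rfl
  rw [e1, e2, e3, hqX]
  have h5 : (Real.exp (c / 2) * hz) ^ 2 ≤ hp * hm :=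
    (pow_le_pow_left₀ (mul_pos (Real.exp_pos _) hz0).le hJ 2).trans hCS
  have h6 := Real.log_le_log (pow_pos (mul_pos (Real.exp_pos _) hz0) 2) h5
  rw [Real.log_pow, Real.log_mul (Real.exp_pos _).ne' hz0.ne', Real.log_exp,
    Real.log_mul hp0.ne' hm0.ne'] at h6
  push_cast at h6
  nlinarith

/-! ### The constants of semiconcavity along the iteration -/

section

variable [H.Normal] (hH : IsOpen (H : Set G)) (hE : ∀ X, D.E X ∈ H)

include hH hE

lemma SC.H4H {K Λ : ℝ} (hK : 0 ≤ K) {Z : G → ℝ} (h : Adm Z) (hs : SC D K Z)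
    (hΛ : ∀ x, ∀ y ∈ H, Real.log (Z (y * x)) - Real.log (Z x) ≤ Λ) {m : ℕ} (hg : GenH D H m)
    (hΛ2 : 2 ^ m * K ≤ Λ) :
    SC D (K / 4 * (1 - Real.exp (-(2 * Λ))) ^ 2) (H4 μ Z) := by
  have h1 := SC.convH (μ := μ) hH hE hK h.cont h.pos hs hΛ
  have he : 0 ≤ 1 - Real.exp (-(2 * Λ)) := by
    have h0 : 0 ≤ Λ := by simpa using hΛ 1 1 H.one_mem
    have : Real.exp (-(2 * Λ)) ≤ 1 := Real.exp_le_one_iff.2 (by linarith)
    linarith
  have he1 : 1 - Real.exp (-(2 * Λ)) ≤ 1 := by linarith [Real.exp_pos (-(2 * Λ))]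
  have hK1 : 0 ≤ K / 2 * (1 - Real.exp (-(2 * Λ))) := mul_nonneg (by linarith) he
  have hK2 : K / 2 * (1 - Real.exp (-(2 * Λ))) ≤ K := by nlinarith
  have h2 : ∀ x, ∀ y ∈ H, Real.log (Pool.Agent.N991.MK.conv μ Z Z (y * x)) -
      Real.log (Pool.Agent.N991.MK.conv μ Z Z x) ≤ Λ := by
    intro x y hy
    have h3 := SC.oscH hH hE hg hK1 (h.conv (μ := μ)).cont (h.conv (μ := μ)).pos h1 x y hy
    have h4 : (2 : ℝ) ^ m * (K / 2 * (1 - Real.exp (-(2 * Λ)))) ≤ 2 ^ m * K :=
      mul_le_mul_of_nonneg_left hK2 (by positivity)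
    linarith
  have h5 := SC.convH (μ := μ) hH hE hK1 (h.conv (μ := μ)).cont (h.conv (μ := μ)).pos h1 h2
  refine SC.mono (le_of_eq ?_) h5
  ring

/-- one step of the iteration -/
theorem SC.TTH {K : ℝ} (hK : 0 ≤ K) {Z : G → ℝ} (h : Adm Z) (hs : SC D K Z) {m : ℕ}
    (hg : GenH D H m) :
    SC D (K * (1 - Real.exp (-(2 * (2 ^ m * K)))) ^ 2) (TT μ Z) := by
  have h1 := SC.H4H (μ := μ) hH hE hK h hs (Λ := 2 ^ m * K)
    (fun x y hy => SC.oscH hH hE hg hK h.cont h.pos hs x y hy) hg le_rfl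
  have h2 := h1.pow 4
  refine SC.mono (le_of_eq ?_) h2
  push_cast
  ring

theorem SC.TTnH {K : ℝ} (hK : 0 ≤ K) {Z : G → ℝ} (h : Adm Z) (hs : SC D K Z) {m : ℕ}
    (hg : GenH D H m) : ∀ k, SC D (K * rate m K ^ k) (TTn μ Z k)
  | 0 => by simpa [Pool.Agent.N989.MK.TTn] using hs
  | k + 1 => by
    have h1 := SC.TTnH hK h hs hg k
    have h0 := rate_nonneg m K
    have h2 : 0 ≤ K * rate m K ^ k := mul_nonneg hK (pow_nonneg h0 k)
    have h3 : K * rate m K ^ k ≤ K := by
      have : rate m K ^ k ≤ 1 := pow_le_one₀ h0 (rate_lt m hK).le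
      nlinarith
    have h4 := SC.TTH (μ := μ) hH hE h2 (h.TTn k) h1 hg
    refine SC.mono ?_ h4
    have h5 : rate m (K * rate m K ^ k) ≤ rate m K := rate_mono m h2 h3
    calc _ = (K * rate m K ^ k) * rate m (K * rate m K ^ k) := rfl
      _ ≤ (K * rate m K ^ k) * rate m K := mul_le_mul_of_nonneg_left h5 h2
      _ = _ := by rw [pow_succ]; ring

end

end

end Pool.Agent.N541.HC
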