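import Mathlib
import Pool.Agent.N541.HC.HSC

/-!
# Convergence of the weights to functions of the cosets
-/

open MeasureTheory Pool.Agent.N991.MK Filter
open Pool.Agent.N989.MK
open scoped Topology

namespace Pool.Agent.N541.HC

set_option linter.unusedSectionVars false

noncomputable section

variable {G : Type*} [Group G] [TopologicalSpace G] [IsTopologicalGroup G] [CompactSpace G]
  [MeasurableSpace G] [BorelSpace G] [SecondCountableTopology G]
  (μ : Measure G) [IsProbabilityMeasure μ] [μ.IsHaarMeasure] [μ.IsMulRightInvariant]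
  [μ.IsInvInvariant] (H : Subgroup G)

/-- small deviations from the averages over the cosets -/
def SmH (a : ℝ) (Z : G → ℝ) : Prop := ∀ x, |Z x - Av μ H Z x| ≤ a * Av μ H Z x

variable {μ H}

/-- estimates of convolutions -/
lemma conv_abs_le {f g F K : G → ℝ} (hf : Continuous f) (hg : Continuous g) (hF : Continuous F)
    (hK : Continuous K) (h1 : ∀ x, |f x| ≤ F x) (h2 : ∀ x, |g x| ≤ K x) (x : G) :
    |conv μ f g x| ≤ conv μ F K x := by
  unfold conv
  have c1 : Continuous fun y => f y * g (y⁻¹ * x) := by fun_prop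
  have c2 : Continuous fun y => F y * K (y⁻¹ * x) := by fun_prop
  refine (abs_integral_le_integral_abs).trans ?_
  refine integral_mono (integrable_of_cont c1.abs) (integrable_of_cont c2) fun y => ?_
  show |f y * g (y⁻¹ * x)| ≤ F y * K (y⁻¹ * x)
  rw [abs_mul]
  exact mul_le_mul (h1 y) (h2 _) (abs_nonneg _) ((abs_nonneg _).trans (h1 y))

lemma conv_smul_l (a : ℝ) (f g : G → ℝ) (x : G) :
    conv μ (fun y => a * f y) g x = a * conv μ f g x := by
  unfold conv
  rw [← integral_const_mul]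
  refine integral_congr_ae (Filter.Eventually.of_forall fun y => ?_)
  beta_reduce
  ring

lemma conv_smul_r (a : ℝ) (f g : G → ℝ) (x : G) :
    conv μ f (fun y => a * g y) x = a * conv μ f g x := by
  unfold conv
  rw [← integral_const_mul]
  refine integral_congr_ae (Filter.Eventually.of_forall fun y => ?_)
  beta_reduce
  ring

lemma conv_sub_l {f f' g : G → ℝ} (hf : Continuous f) (hf' : Continuous f')
    (hg : Continuous g) (x : G) :
    conv μ (fun y => f y - f' y) g x = conv μ f g x - conv μ f' g x := by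
  unfold conv
  have c1 : Continuous fun y => f y * g (y⁻¹ * x) := by fun_prop
  have c2 : Continuous fun y => f' y * g (y⁻¹ * x) := by fun_prop
  rw [← integral_sub (integrable_of_cont c1) (integrable_of_cont c2)]
  refine integral_congr_ae (Filter.Eventually.of_forall fun y => ?_)
  beta_reduce
  ring

lemma conv_sub_r {f g g' : G → ℝ} (hf : Continuous f) (hg : Continuous g)
    (hg' : Continuous g') (x : G) :
    conv μ f (fun y => g y - g' y) x = conv μ f g x - conv μ f g' x := by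
  unfold conv
  have c1 : Continuous fun y => f y * g (y⁻¹ * x) := by fun_prop
  have c2 : Continuous fun y => f y * g' (y⁻¹ * x) := by fun_prop
  rw [← integral_sub (integrable_of_cont c1) (integrable_of_cont c2)]
  refine integral_congr_ae (Filter.Eventually.of_forall fun y => ?_)
  beta_reduce
  ring

lemma conv_mono {f g F K : G → ℝ} (hf : Continuous f) (hg : Continuous g) (hF : Continuous F)
    (hK : Continuous K) (f0 : ∀ x, 0 ≤ f x) (g0 : ∀ x, 0 ≤ g x) (h1 : ∀ x, f x ≤ F x)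
    (h2 : ∀ x, g x ≤ K x) (x : G) : conv μ f g x ≤ conv μ F K x :=
  (le_abs_self _).trans (conv_abs_le hf hg hF hK (fun x => by rw [abs_of_nonneg (f0 x)]; exact h1 x)
    (fun x => by rw [abs_of_nonneg (g0 x)]; exact h2 x) x)

section

variable [H.Normal] (hH : IsOpen (H : Set G))

include hH

/-- the deviation of the convolution -/
lemma conv_devH {Z : G → ℝ} (h : Adm Z) (x : G) :
    conv μ Z Z x - Av μ H (conv μ Z Z) x =
      conv μ (fun y => Z y - Av μ H Z y) (fun y => Z y - Av μ H Z y) x := by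
  have cA := Av_cont (μ := μ) hH h.cont
  have lA := Av_cls (μ := μ) (H := H) h.cls
  have cD : Continuous fun y => Z y - Av μ H Z y := h.cont.sub cA
  rw [conv_sub_l h.cont cA cD, conv_sub_r h.cont h.cont cA,
    conv_sub_r cA h.cont cA, ← Av_conv_left hH h.cont h.cont,
    ← Av_conv_right hH h.cont h.cont h.cls h.cls, ← Av_conv_left hH h.cont cA,
    ← Av_conv_right hH h.cont h.cont h.cls h.cls, Av_Av hH]
  ring

lemma SmH.conv {a : ℝ} {Z : G → ℝ} (h : Adm Z) (hs : SmH μ H a Z) :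
    SmH μ H (a ^ 2) (conv μ Z Z) := by
  have cA := Av_cont (μ := μ) hH h.cont
  intro x
  rw [conv_devH hH h x]
  have h1 := conv_abs_le (μ := μ) (f := fun y => Z y - Av μ H Z y)
    (g := fun y => Z y - Av μ H Z y) (F := fun y => a * Av μ H Z y)
    (K := fun y => a * Av μ H Z y) (h.cont.sub cA) (h.cont.sub cA) (continuous_const.mul cA)
    (continuous_const.mul cA) hs hs x
  rw [conv_smul_l, conv_smul_r, ← Av_conv_left hH h.cont cA,
    ← Av_conv_right hH h.cont h.cont h.cls h.cls, Av_Av hH] at h1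
  calc _ ≤ _ := h1
    _ = _ := by ring

lemma SmH.pow4 {b : ℝ} (hb0 : 0 ≤ b) (hb : b ≤ 1 / 100) {Z : G → ℝ} (h : Adm Z)
    (hs : SmH μ H b Z) : SmH μ H (9 * b) (fun x => Z x ^ 4) := by
  set u := Av μ H Z with hu
  have u0 : ∀ x, 0 < u x := Av_pos hH h.cont h.pos
  have hinv : ∀ x, ∀ y ∈ H, u (y * x) = u x := fun x y hy => Av_inv hy Z x
  have hlo : ∀ x, ((1 - b) * u x) ^ 4 ≤ Z x ^ 4 := fun x => by
    have := (abs_le.1 (hs x)).1
    refine pow_le_pow_left₀ (mul_nonneg (by linarith) (u0 x).le) (by linarith) 4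
  have hup : ∀ x, Z x ^ 4 ≤ ((1 + b) * u x) ^ 4 := fun x => by
    have := (abs_le.1 (hs x)).2
    exact pow_le_pow_left₀ (h.pos x).le (by linarith) 4
  have c4 : Continuous fun x => Z x ^ 4 := h.cont.pow 4
  intro x
  have hJ1 : ((1 - b) * u x) ^ 4 ≤ Av μ H (fun x => Z x ^ 4) x := by
    have h1 := Av_mono (μ := μ) hH (F := fun _ => ((1 - b) * u x) ^ 4) (F' := fun x => Z x ^ 4)
      continuous_const c4 (x := x) (fun y hy => by rw [← hinv x y hy]; exact hlo (y * x))
    rwa [Av_const hH] at h1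
  have hJ2 : Av μ H (fun x => Z x ^ 4) x ≤ ((1 + b) * u x) ^ 4 := by
    have h1 := Av_mono (μ := μ) hH (F := fun x => Z x ^ 4) (F' := fun _ => ((1 + b) * u x) ^ 4)
      c4 continuous_const (x := x) (fun y hy => by rw [← hinv x y hy]; exact hup (y * x))
    rwa [Av_const hH] at h1
  have h1 := hlo x
  have h2 := hup x
  have h3 : ((1 + b) * u x) ^ 4 - ((1 - b) * u x) ^ 4 ≤ 9 * b * ((1 - b) * u x) ^ 4 := by
    have e1 : ((1 + b) * u x) ^ 4 - ((1 - b) * u x) ^ 4 = (8 * b + 8 * b ^ 3) * u x ^ 4 := by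
      ring
    have e2 : 9 * b * ((1 - b) * u x) ^ 4 = 9 * b * (1 - b) ^ 4 * u x ^ 4 := by ring
    rw [e1, e2]
    refine mul_le_mul_of_nonneg_right ?_ (pow_nonneg (u0 x).le 4)
    have h4 : (0.96 : ℝ) ≤ (1 - b) ^ 4 := by
      have h5 : (0.99 : ℝ) ^ 4 ≤ (1 - b) ^ 4 := pow_le_pow_left₀ (by norm_num) (by linarith) 4
      norm_num at h5 ⊢
      linarith
    nlinarith [mul_nonneg hb0 hb0, mul_le_mul_of_nonneg_left h4 hb0]
  rw [abs_le]
  have h6 : 9 * b * ((1 - b) * u x) ^ 4 ≤ 9 * b * Av μ H (fun x => Z x ^ 4) x :=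
    mul_le_mul_of_nonneg_left hJ1 (by linarith)
  constructor <;> linarith

lemma SmH.TT {a : ℝ} (ha : 0 ≤ a) (ha1 : a ≤ 1 / 10) {Z : G → ℝ} (h : Adm Z)
    (hs : SmH μ H a Z) : SmH μ H (9 * a ^ 4) (TT μ Z) := by
  have h1 := SmH.conv hH h.conv (SmH.conv hH h hs)
  have e : (a ^ 2) ^ 2 = a ^ 4 := by ring
  rw [e] at h1
  have h2 : a ^ 4 ≤ 1 / 100 := by
    have h5 : a ^ 4 ≤ (1 / 10) ^ 4 := pow_le_pow_left₀ ha ha1 4
    norm_num at h5 ⊢
    linarith
  exact SmH.pow4 hH (by positivity) h2 h.H4 h1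

lemma SmH.of_osc {δ : ℝ} (hδ1 : δ ≤ 1) {Z : G → ℝ} (h : Adm Z)
    (ho : ∀ x, ∀ y ∈ H, Real.log (Z (y * x)) - Real.log (Z x) ≤ δ) : SmH μ H (2 * δ) Z := by
  have hδ : 0 ≤ δ := by simpa using ho 1 1 H.one_mem
  have h1 : ∀ x, ∀ y ∈ H, Z (y * x) ≤ Real.exp δ * Z x := fun x y hy => by
    calc Z (y * x) = Real.exp (Real.log (Z (y * x))) := (Real.exp_log (h.pos _)).symm
      _ ≤ Real.exp (δ + Real.log (Z x)) := Real.exp_le_exp.2 (by linarith [ho x y hy])
      _ = _ := by rw [Real.exp_add, Real.exp_log (h.pos x)]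
  have h4 : Real.exp δ - 1 ≤ 2 * δ := by
    have := Real.abs_exp_sub_one_le (x := δ) (by rw [abs_of_nonneg hδ]; exact hδ1)
    rw [abs_of_nonneg hδ] at this
    exact (le_abs_self _).trans this
  intro x
  set I := Av μ H Z x with hI
  have hI0 : 0 < I := Av_pos hH h.cont h.pos x
  have h6 : I ≤ Real.exp δ * Z x := by
    have := Av_mono (μ := μ) hH (F := Z) (F' := fun _ => Real.exp δ * Z x) h.cont
      continuous_const (x := x) (fun y hy => h1 x y hy)
    rwa [Av_const hH] at this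
  have h5 : Z x ≤ Real.exp δ * I := by
    have := Av_mono (μ := μ) hH (F := fun _ => Z x) (F' := fun z => Real.exp δ * Z z)
      continuous_const (continuous_const.mul h.cont) (x := x) (fun y hy => by
        have h7 := h1 (y * x) y⁻¹ (H.inv_mem hy)
        rwa [inv_mul_cancel_left] at h7)
    rwa [Av_const hH, Av_smul] at this
  rw [abs_le]
  have h7 : 1 ≤ Real.exp δ := Real.one_le_exp hδ
  have h8 : Real.exp δ * Real.exp (-δ) = 1 := by rw [← Real.exp_add]; simp
  constructor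
  · have h9 : (1 - δ) ≤ Real.exp (-δ) := by linarith [Real.add_one_le_exp (-δ)]
    have h10 : Real.exp (-δ) * I ≤ Z x := by
      have h11 := mul_le_mul_of_nonneg_left h6 (Real.exp_pos (-δ)).le
      have h12 : Real.exp (-δ) * (Real.exp δ * Z x) = Z x := by
        rw [← mul_assoc, mul_comm (Real.exp (-δ)), h8, one_mul]
      rw [h12] at h11
      exact h11
    nlinarith
  · nlinarith

variable {n : ℕ} {D : ED G n} (hE : ∀ X, D.E X ∈ H)

include hE

/-- after finitely many steps the deviations are small -/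
theorem exists_smallH {m : ℕ} (hg : GenH D H m) {K : ℝ} (hK : 0 ≤ K) : ∃ k0 : ℕ,
    ∀ Z : G → ℝ, Adm Z → SC D K Z → SmH μ H (1 / 10) (TTn μ Z k0) := by
  have h0 := rate_nonneg m K
  have h1 : Tendsto (fun k : ℕ => 2 ^ m * (K * rate m K ^ k)) atTop (𝓝 (2 ^ m * (K * 0))) :=
    ((tendsto_pow_atTop_nhds_zero_of_lt_one h0 (rate_lt m hK)).const_mul K).const_mul _
  rw [mul_zero, mul_zero] at h1
  obtain ⟨k0, hk0⟩ := (h1.eventually (gt_mem_nhds (show (0 : ℝ) < 1 / 20 by norm_num))).exists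
  refine ⟨k0, fun Z hZ hs => ?_⟩
  have h2 := SC.TTnH (μ := μ) hH hE hK hZ hs hg k0
  have h3 := hZ.TTn (μ := μ) k0
  have h4 : ∀ x, ∀ y ∈ H, Real.log (TTn μ Z k0 (y * x)) - Real.log (TTn μ Z k0 x) ≤ 1 / 20 := by
    intro x y hy
    have h5 := SC.oscH hH hE hg (mul_nonneg hK (pow_nonneg h0 _)) h3.cont h3.pos h2 x y hy
    linarith
  have h6 := SmH.of_osc (μ := μ) hH (by norm_num) h3 h4
  have e : (2 : ℝ) * (1 / 20) = 1 / 10 := by norm_num
  rwa [e] at h6

omit hE

/-- superexponential convergence -/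
theorem SmH.TTn {Z : G → ℝ} (h : Adm Z) (hs : SmH μ H (1 / 10) Z) : ∀ k,
    SmH μ H (10 / 21 * (21 / 100) ^ 4 ^ k) (TTn μ Z k)
  | 0 => by
    have e : (10 / 21 * (21 / 100) ^ 4 ^ 0 : ℝ) = 1 / 10 := by norm_num
    rw [e]; exact hs
  | k + 1 => by
    have h1 := SmH.TTn h hs k
    have h2 : (0 : ℝ) ≤ 10 / 21 * (21 / 100) ^ 4 ^ k := by positivity
    have h3 : (10 / 21 * (21 / 100) ^ 4 ^ k : ℝ) ≤ 1 / 10 := by
      have h4 : ((21 / 100 : ℝ)) ^ 4 ^ k ≤ (21 / 100) ^ 1 :=
        pow_le_pow_of_le_one (by norm_num) (by norm_num) (Nat.one_le_pow _ _ (by norm_num))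
      linarith
    have h5 := SmH.TT hH h2 h3 (h.TTn k) h1
    have h6 : 9 * (10 / 21 * (21 / 100) ^ 4 ^ k : ℝ) ^ 4 ≤ 10 / 21 * (21 / 100) ^ 4 ^ (k + 1) := by
      have e : ((21 / 100 : ℝ)) ^ 4 ^ (k + 1) = ((21 / 100) ^ 4 ^ k) ^ 4 := by
        rw [← pow_mul, pow_succ]
      rw [e, mul_pow]
      have h7 : (0 : ℝ) ≤ ((21 / 100) ^ 4 ^ k) ^ 4 := by positivity
      nlinarith
    intro x
    have h7 := h5 x
    refine h7.trans (mul_le_mul_of_nonneg_right h6 ?_)
    exact (Av_pos hH (h.TTn (μ := μ) (k + 1)).cont (h.TTn (μ := μ) (k + 1)).pos x).le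

end

end

end Pool.Agent.N541.HC
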