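import Mathlib
import Pool.Agent.N541.HC.Flow
import Pool.Agent.N541.HC.Stm2

/-!
# Invariant minorants of the weights
-/

open MeasureTheory Pool.Agent.N991.MK Filter
open Pool.Agent.N989.MK
open scoped Topology

namespace Pool.Agent.N541.HC

set_option linter.unusedSectionVars false

noncomputable section

variable {G : Type*} [Group G] [TopologicalSpace G] [IsTopologicalGroup G] [CompactSpace G]
  [MeasurableSpace G] [BorelSpace G] [SecondCountableTopology G]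
  {μ : Measure G} [IsProbabilityMeasure μ] [μ.IsHaarMeasure] [μ.IsMulRightInvariant]
  [μ.IsInvInvariant] {H : Subgroup G}

lemma Minor.mono {Q Q' : ℝ} {f : G → ℝ} (h : Minor H Q f) (h0 : ∀ x, 0 ≤ f x) (hQ : Q ≤ Q') :
    Minor H Q' f := by
  obtain ⟨m, h1, h2, h3, h4⟩ := h
  refine ⟨m, h1, h2, h3, fun x => ⟨(h4 x).1, (h4 x).2.1, ?_⟩⟩
  have := (h4 x).2.2
  nlinarith [mul_le_mul_of_nonneg_right hQ (h0 x)]

lemma Minor.pow3 {Q : ℝ} {f : G → ℝ} (h : Minor H Q f) (h0 : ∀ x, 0 ≤ f x) (hQ0 : 0 ≤ Q)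
    (hQ1 : Q ≤ 1) : Minor H (3 * Q) (fun x => f x ^ 3) := by
  obtain ⟨m, h1, h2, h3, h4⟩ := h
  refine ⟨fun x => m x ^ 3, h1.pow 3, fun g x => by beta_reduce; rw [h2], fun y hy x => by
    beta_reduce; rw [h3 y hy], fun x => ⟨pow_nonneg (h4 x).1 3,
      pow_le_pow_left₀ (h4 x).1 (h4 x).2.1 3, ?_⟩⟩
  have h5 := (h4 x).2.2
  have h6 : ((1 - Q) * f x) ^ 3 ≤ m x ^ 3 :=
    pow_le_pow_left₀ (mul_nonneg (by linarith) (h0 x)) h5 3
  refine le_trans ?_ h6
  rw [mul_pow]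
  refine mul_le_mul_of_nonneg_right ?_ (pow_nonneg (h0 x) 3)
  nlinarith [mul_nonneg hQ0 hQ0, mul_nonneg (mul_nonneg hQ0 hQ0) (sub_nonneg.2 hQ1)]

variable (hH : IsOpen (H : Set G)) [H.Normal]

include hH

lemma minor_of_SmH {a : ℝ} (ha0 : 0 ≤ a) (ha : a ≤ 1) {f : G → ℝ} (h : Adm f)
    (hs : SmH μ H a f) : Minor H (2 * a) f := by
  refine ⟨fun x => (1 - a) * Av μ H f x, continuous_const.mul (Av_cont hH h.cont), fun g x => ?_,
    fun y hy x => ?_, fun x => ?_⟩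
  · have := Av_cls (μ := μ) (H := H) h.cls g x
    beta_reduce
    rw [this]
  · beta_reduce
    rw [Av_inv hy]
  · have hA := Av_pos (μ := μ) hH h.cont h.pos x
    have h1 := abs_le.1 (hs x)
    refine ⟨mul_nonneg (by linarith) hA.le, by linarith [h1.1], ?_⟩
    have h2 : f x ≤ (1 + a) * Av μ H f x := by linarith [h1.2]
    by_cases h3 : 1 - 2 * a ≤ 0
    · have : (1 - 2 * a) * f x ≤ 0 := mul_nonpos_of_nonpos_of_nonneg h3 (h.pos x).le
      have : 0 ≤ (1 - a) * Av μ H f x := mul_nonneg (by linarith) hA.le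
      linarith
    · have h4 := mul_le_mul_of_nonneg_left h2 (le_of_lt (not_le.1 h3))
      nlinarith [mul_nonneg ha0 hA.le, mul_nonneg (mul_nonneg ha0 ha0) hA.le]

lemma minor_triv {f : G → ℝ} (h : Adm f) : ∃ Q : ℝ, 0 ≤ Q ∧ Q < 1 ∧ Minor H Q f := by
  obtain ⟨z, -, hz⟩ := isCompact_univ.exists_isMinOn (Set.univ_nonempty (α := G))
    h.cont.continuousOn
  obtain ⟨y, -, hy⟩ := isCompact_univ.exists_isMaxOn (Set.univ_nonempty (α := G))
    h.cont.continuousOn
  have h1 : ∀ x, f z ≤ f x := fun x => hz (Set.mem_univ x)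
  have h2 : ∀ x, f x ≤ f y := fun x => hy (Set.mem_univ x)
  have hz0 := h.pos z
  have hy0 := h.pos y
  refine ⟨1 - f z / f y, ?_, ?_, fun _ => f z, continuous_const, fun _ _ => rfl,
    fun _ _ _ => rfl, fun x => ⟨hz0.le, h1 x, ?_⟩⟩
  · rw [sub_nonneg, div_le_one hy0]
    exact h1 y
  · have := div_pos hz0 hy0
    linarith
  · have e : (1 - (1 - f z / f y)) * f x = f z * (f x / f y) := by field_simp; ring
    rw [e]
    have : f x / f y ≤ 1 := (div_le_one hy0).2 (h2 x)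
    nlinarith

/-- **The minorants of the weights along the iteration.** -/
theorem exists_minor' {w : G → ℝ} (hw : Adm w) {k0 : ℕ}
    (h1 : SmH μ H (1 / 10) (TTn μ w k0)) :
    ∃ C c : ℝ, 0 < C ∧ 0 < c ∧ ∃ Q : ℕ → ℝ, (∀ n, 0 ≤ Q n) ∧ (∀ n, Q n < 1) ∧
      (∀ n, Q n ≤ C * Real.exp (-(c * 4 ^ n))) ∧ Minor H (Q 0) w ∧
      ∀ n, Minor H (Q (n + 1)) (fun x => H4 μ (Zr μ w n) x ^ 3) := by
  have h2 := SmH.TTn (μ := μ) hH (hw.TTn (μ := μ) k0) h1
  set c : ℝ := Real.log (100 / 21) / 4 ^ k0 with hc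
  have hlog : 0 < Real.log (100 / 21) := Real.log_pos (by norm_num)
  have hc0 : 0 < c := by positivity
  set C : ℝ := 6 + Real.exp (c * 4 ^ k0) with hC
  have hC0 : 0 < C := by positivity
  have hadm : ∀ n, Adm (fun x => H4 μ (Zr μ w n) x ^ 3) := fun n => by
    have h3 : Adm (Zr μ w n) := by
      rw [Zr_eq]; exact hw.TTn n
    exact h3.H4.pow 3
  -- the functions
  have key : ∀ n : ℕ, ∃ Q : ℝ, 0 ≤ Q ∧ Q < 1 ∧ Q ≤ C * Real.exp (-(c * 4 ^ (n + 1))) ∧
      Minor H Q (fun x => H4 μ (Zr μ w n) x ^ 3) := by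
    intro n
    rcases lt_or_ge n k0 with hn | hn
    · obtain ⟨Q, q0, q1, q2⟩ := minor_triv (H := H) hH (hadm n)
      refine ⟨Q, q0, q1, q1.le.trans ?_, q2⟩
      have h3 : Real.exp (c * 4 ^ k0) * Real.exp (-(c * 4 ^ (n + 1))) ≤
          C * Real.exp (-(c * 4 ^ (n + 1))) :=
        mul_le_mul_of_nonneg_right (by rw [hC]; linarith) (Real.exp_pos _).le
      refine le_trans ?_ h3
      rw [← Real.exp_add]
      refine Real.one_le_exp ?_
      have h4 : (4 : ℝ) ^ (n + 1) ≤ 4 ^ k0 := pow_le_pow_right₀ (by norm_num) hn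
      nlinarith
    · obtain ⟨i, rfl⟩ : ∃ i, n = k0 + i := ⟨n - k0, by omega⟩
      have hz : Adm (Zr μ w (k0 + i)) := by
        rw [Zr_eq]; exact hw.TTn _
      have h3 : SmH μ H (10 / 21 * (21 / 100) ^ 4 ^ i) (Zr μ w (k0 + i)) := by
        rw [Zr_eq, TTn_add]
        exact h2 i
      set a : ℝ := 10 / 21 * (21 / 100) ^ 4 ^ i with ha
      have ha0 : 0 ≤ a := by positivity
      have hpw : ((21 / 100 : ℝ)) ^ 4 ^ i ≤ 21 / 100 := by
        have : ((21 / 100 : ℝ)) ^ 4 ^ i ≤ (21 / 100) ^ 1 :=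
          pow_le_pow_of_le_one (by norm_num) (by norm_num) (Nat.one_le_pow _ _ (by norm_num))
        linarith
      have ha1 : a ≤ 1 / 10 := by rw [ha]; linarith
      have h4 := SmH.conv hH hz.conv (SmH.conv hH hz h3)
      have e : (a ^ 2) ^ 2 = a ^ 4 := by ring
      rw [e] at h4
      have ha4 : a ^ 4 ≤ 1 / 10000 := by
        have h5 : a ^ 4 ≤ (1 / 10) ^ 4 := pow_le_pow_left₀ ha0 ha1 4
        norm_num at h5 ⊢
        linarith
      have ha40 : 0 ≤ a ^ 4 := by positivity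
      have h5 := minor_of_SmH hH ha40 (by linarith) (hz.H4 (μ := μ)) h4
      have h6 := h5.pow3 (fun x => ((hz.H4 (μ := μ)).pos x).le) (by positivity) (by linarith)
      refine ⟨3 * (2 * a ^ 4), by positivity, by linarith, ?_, h6⟩
      have h7 : ((21 / 100 : ℝ)) ^ 4 ^ (i + 1) = Real.exp (-(c * 4 ^ (k0 + i + 1))) := by
        have e1 : c * 4 ^ (k0 + i + 1) = Real.log (100 / 21) * 4 ^ (i + 1) := by
          rw [hc, add_assoc, pow_add]
          field_simp
        rw [e1, show (21 / 100 : ℝ) = Real.exp (-Real.log (100 / 21)) by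
          rw [Real.exp_neg, Real.exp_log (by norm_num)]; norm_num, ← Real.exp_nat_mul]
        congr 1
        push_cast
        ring
      rw [← h7]
      have h8 : a ^ 4 ≤ ((21 / 100 : ℝ)) ^ 4 ^ (i + 1) := by
        have e2 : ((21 / 100 : ℝ)) ^ 4 ^ (i + 1) = ((21 / 100) ^ 4 ^ i) ^ 4 := by
          rw [← pow_mul, pow_succ]
        rw [e2, ha, mul_pow]
        have h9 : (0 : ℝ) ≤ ((21 / 100) ^ 4 ^ i) ^ 4 := by positivity
        nlinarith
      have h9 : (0 : ℝ) ≤ ((21 / 100 : ℝ)) ^ 4 ^ (i + 1) := by positivity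
      have h10 : (6 : ℝ) ≤ C := by rw [hC]; linarith [Real.exp_pos (c * 4 ^ k0)]
      nlinarith [mul_le_mul_of_nonneg_right h10 h9]
  choose Q q0 q1 q2 q3 using key
  obtain ⟨Q', q0', q1', q2'⟩ := minor_triv (H := H) hH hw
  refine ⟨C + Real.exp c, c, by positivity, hc0, fun n => Nat.casesOn n Q' Q, ?_, ?_, ?_, q2', q3⟩
  · rintro (_ | n)
    · exact q0'
    · exact q0 n
  · rintro (_ | n)
    · exact q1'
    · exact q1 n
  · rintro (_ | n)
    · show Q' ≤ _
      have h3 : Real.exp c * Real.exp (-(c * 4 ^ 0)) ≤ (C + Real.exp c) *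
          Real.exp (-(c * 4 ^ 0)) :=
        mul_le_mul_of_nonneg_right (by linarith) (Real.exp_pos _).le
      refine q1'.le.trans (le_trans ?_ h3)
      rw [← Real.exp_add]
      refine Real.one_le_exp ?_
      simp
    · refine (q2 n).trans (mul_le_mul_of_nonneg_right ?_ (Real.exp_pos _).le)
      linarith [Real.exp_pos c]

end

end Pool.Agent.N541.HC
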