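import Mathlib
import Pool.Agent.N541.HC.Min
import Pool.Agent.N541.HC.Dec2

/-!
# Insertions with a small covered part
-/

open MeasureTheory Pool.Agent.N991.MK Filter
open Pool.Agent.N989.MK
open scoped Topology

namespace Pool.Agent.N541.HC

set_option linter.unusedSectionVars false

noncomputable section

variable {G : Type*} [Group G] [TopologicalSpace G] [IsTopologicalGroup G] [CompactSpace G]
  [MeasurableSpace G] [BorelSpace G] [SecondCountableTopology G]
  {μ : Measure G} [IsProbabilityMeasure μ] [μ.IsHaarMeasure] [μ.IsMulRightInvariant]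
  [μ.IsInvInvariant] {H : Subgroup G} [H.Normal] (hH : IsOpen (H : Set G)) {w : G → ℝ}

lemma Zr_adm' (hw : Adm w) (n : ℕ) : Adm (Zr μ w n) := by
  rw [Zr_eq]
  exact hw.TTn n

/-- a step of the recursion: bound -/
lemma ins_bd {Z B : G → ℝ} (h : Adm Z) (hB : Continuous B) {M : ℝ}
    (hM : ∀ x, |B x| ≤ M * Z x) (x : G) :
    |conv μ (conv μ B Z) (conv μ Z Z) x| ≤ M * H4 μ Z x := by
  have c1 : Continuous fun y => M * Z y := continuous_const.mul h.cont
  have h1 := conv_abs_le (μ := μ) (cont_conv hB h.cont) (cont_conv h.cont h.cont)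
    (F := conv μ (fun y => M * Z y) Z) (K := conv μ Z Z)
    (cont_conv c1 h.cont) (cont_conv h.cont h.cont)
    (conv_abs_le hB h.cont c1 h.cont hM (fun y => (abs_of_pos (h.pos y)).le))
    (fun y => (abs_of_pos (h.conv.pos y)).le) x
  have e : conv μ (fun y => M * Z y) Z = fun y => M * conv μ Z Z y := by
    funext y
    rw [conv_smul_l]
  rw [e, conv_smul_l] at h1
  exact h1

include hH

/-- the convolution with a function without averages has no averages -/
lemma ins_av {Z T : G → ℝ} (h : Adm Z) (hT : Continuous T) (hA : ∀ x, Av μ H T x = 0) (x : G) :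
    Av μ H (conv μ (conv μ T Z) (conv μ Z Z)) x = 0 := by
  rw [Av_conv_left hH (cont_conv hT h.cont) (cont_conv h.cont h.cont), Av_conv_left hH hT h.cont]
  have e : Av μ H T = fun _ => 0 := funext hA
  rw [e]
  simp [conv]

/-- **The covered part of an insertion.** -/
theorem cover {Q : ℕ → ℝ} (hQ0 : ∀ n, 0 ≤ Q n) (hw : Adm w)
    (hm : ∀ n, Minor H (Q (n + 1)) (fun x => H4 μ (Zr μ w n) x ^ 3)) (k : ℕ)
    {B U K : G → ℝ} (hU : Continuous U) (hK : Continuous K) (hB : ∀ x, B x = U x + K x)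
    (hA : ∀ x, Av μ H U x = 0) {M κ : ℝ} (hM : 0 ≤ M) (hκ : 0 ≤ κ)
    (hKb : ∀ x, |K x| ≤ κ * Zr μ w k x) (hBb : ∀ x, |B x| ≤ M * Zr μ w k x) (j : ℕ) :
    ∃ U' K' : G → ℝ, Continuous U' ∧ Continuous K' ∧ (∀ x, ZI μ w k B j x = U' x + K' x) ∧
      (∀ x, Av μ H U' x = 0) ∧
      (∀ x, |K' x| ≤ (κ + M * ∑ i ∈ Finset.range j, Q (k + i + 1)) * Zr μ w (k + j) x) ∧
      ∀ x, |ZI μ w k B j x| ≤ M * Zr μ w (k + j) x := by
  induction j with
  | zero =>
    refine ⟨U, K, hU, hK, hB, hA, fun x => ?_, hBb⟩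
    simpa using hKb x
  | succ j ih =>
    obtain ⟨U1, K1, cU, cK, e1, e2, e3, e4⟩ := ih
    set Z := Zr μ w (k + j) with hZ
    have hz : Adm Z := Zr_adm' hw (k + j)
    obtain ⟨m, m1, m2, m3, m4⟩ := hm (k + j)
    set κ' := κ + M * ∑ i ∈ Finset.range j, Q (k + i + 1) with hκ'
    have hκ0 : 0 ≤ κ' := add_nonneg hκ (mul_nonneg hM (Finset.sum_nonneg fun i _ => hQ0 _))
    set T : G → ℝ := conv μ (conv μ (ZI μ w k B j) Z) (conv μ Z Z) with hT
    set TU : G → ℝ := conv μ (conv μ U1 Z) (conv μ Z Z) with hTU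
    set TK : G → ℝ := conv μ (conv μ K1 Z) (conv μ Z Z) with hTK
    have cB : Continuous (ZI μ w k B j) := by
      have : ZI μ w k B j = fun x => U1 x + K1 x := funext e1
      rw [this]
      exact cU.add cK
    have cT : Continuous T := cont_conv (cont_conv cB hz.cont) (cont_conv hz.cont hz.cont)
    have cTU : Continuous TU := cont_conv (cont_conv cU hz.cont) (cont_conv hz.cont hz.cont)
    have cTK : Continuous TK := cont_conv (cont_conv cK hz.cont) (cont_conv hz.cont hz.cont)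
    set h : G → ℝ := fun x => H4 μ Z x ^ 3 with hh
    have ch : Continuous h := hz.H4.cont.pow 3
    have hTd : ∀ x, T x - TK x = TU x := by
      intro x
      have a1 : U1 = fun y => ZI μ w k B j y - K1 y := by
        funext y
        rw [e1]
        ring
      have a2 : conv μ U1 Z = fun y => conv μ (ZI μ w k B j) Z y - conv μ K1 Z y := by
        funext y
        rw [a1, conv_sub_l cB cK hz.cont]
      rw [hTU, a2, conv_sub_l (cont_conv cB hz.cont) (cont_conv cK hz.cont)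
        (cont_conv hz.cont hz.cont)]
    have hzi : ∀ x, ZI μ w k B (j + 1) x = T x * h x := fun x => rfl
    have hzr : ∀ x, Zr μ w (k + (j + 1)) x = h x * H4 μ Z x := fun x => by
      show H4 μ Z x ^ 4 = H4 μ Z x ^ 3 * H4 μ Z x
      ring
    have bT : ∀ x, |T x| ≤ M * H4 μ Z x := ins_bd hz cB e4
    have bK : ∀ x, |TK x| ≤ κ' * H4 μ Z x := ins_bd hz cK e3
    refine ⟨fun x => m x * TU x, fun x => m x * TK x + (h x - m x) * T x, m1.mul cTU,
      (m1.mul cTK).add ((ch.sub m1).mul cT), fun x => ?_, fun x => ?_, fun x => ?_, fun x => ?_⟩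
    · beta_reduce
      rw [hzi, ← hTd]
      ring
    · rw [Av_mul m TU x fun y hy => m3 y hy x]
      rw [ins_av hH hz cU e2 x, mul_zero]
    · have h0 : 0 ≤ h x := pow_nonneg (hz.H4.pos x).le 3
      obtain ⟨n1, n2, n3⟩ := m4 x
      have n2' : m x ≤ h x := n2
      have n3' : (1 - Q (k + j + 1)) * h x ≤ m x := n3
      have hH4 := (hz.H4 (μ := μ)).pos x
      rw [hzr, Finset.sum_range_succ]
      refine (abs_add_le _ _).trans ?_
      rw [abs_mul, abs_mul, abs_of_nonneg n1, abs_of_nonneg (sub_nonneg.2 n2')]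
      have g1 : m x * |TK x| ≤ h x * (κ' * H4 μ Z x) :=
        mul_le_mul n2' (bK x) (abs_nonneg _) h0
      have g2 : (h x - m x) * |T x| ≤ (Q (k + j + 1) * h x) * (M * H4 μ Z x) :=
        mul_le_mul (by linarith) (bT x) (abs_nonneg _) (mul_nonneg (hQ0 _) h0)
      calc m x * |TK x| + (h x - m x) * |T x| ≤
          h x * (κ' * H4 μ Z x) + (Q (k + j + 1) * h x) * (M * H4 μ Z x) := add_le_add g1 g2
        _ = _ := by rw [hκ']; ring
    · have h0 : 0 ≤ h x := pow_nonneg (hz.H4.pos x).le 3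
      rw [hzi, hzr, abs_mul, abs_of_nonneg h0]
      calc |T x| * h x ≤ M * H4 μ Z x * h x := mul_le_mul_of_nonneg_right (bT x) h0
        _ = _ := by ring

/-- the integral of the insertion -/
theorem cover_int {Q : ℕ → ℝ} (hQ0 : ∀ n, 0 ≤ Q n) (hw : Adm w)
    (hm : ∀ n, Minor H (Q (n + 1)) (fun x => H4 μ (Zr μ w n) x ^ 3)) (k : ℕ)
    {B U K : G → ℝ} (hU : Continuous U) (hK : Continuous K) (hB : ∀ x, B x = U x + K x)
    (hA : ∀ x, Av μ H U x = 0) {M κ : ℝ} (hM : 0 ≤ M) (hκ : 0 ≤ κ)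
    (hKb : ∀ x, |K x| ≤ κ * Zr μ w k x) (hBb : ∀ x, |B x| ≤ M * Zr μ w k x) (j : ℕ) :
    |∫ x, ZI μ w k B j x ∂μ| ≤
      (κ + M * ∑ i ∈ Finset.range j, Q (k + i + 1)) * ∫ x, Zr μ w (k + j) x ∂μ := by
  obtain ⟨U', K', cU, cK, e1, e2, e3, -⟩ :=
    cover hH hQ0 hw hm k hU hK hB hA hM hκ hKb hBb j
  have hz : Adm (Zr μ w (k + j)) := Zr_adm' hw (k + j)
  have h1 : ∫ x, U' x ∂μ = 0 := by
    rw [← Av_int hH cU]
    simp [e2]
  have h2 : ∫ x, ZI μ w k B j x ∂μ = ∫ x, K' x ∂μ := by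
    simp only [e1]
    rw [integral_add (integrable_of_cont cU) (integrable_of_cont cK), h1, zero_add]
  rw [h2]
  refine (abs_integral_le_integral_abs).trans ?_
  rw [← integral_const_mul]
  exact integral_mono (integrable_of_cont cK.abs)
    (integrable_of_cont (continuous_const.mul hz.cont)) e3

omit hH in
/-- the sum of the constants -/
lemma sum_Q {Q : ℕ → ℝ} {C c : ℝ} (hC : 0 ≤ C) (hc : 0 < c)
    (hQ : ∀ n, Q n ≤ C * Real.exp (-(c * 4 ^ n))) :
    ∃ S : ℝ, 0 ≤ S ∧ ∀ k j : ℕ, ∑ i ∈ Finset.range j, Q (k + i + 1) ≤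
      S * Real.exp (-(c * 4 ^ k)) := by
  set r : ℝ := Real.exp (-c) with hr
  have hr0 : 0 ≤ r := (Real.exp_pos _).le
  have hr1 : r < 1 := Real.exp_lt_one_iff.2 (by linarith)
  refine ⟨C * (1 - r)⁻¹, mul_nonneg hC (inv_nonneg.2 (by linarith)), fun k j => ?_⟩
  have h1 : ∀ i : ℕ, Q (k + i + 1) ≤ C * Real.exp (-(c * 4 ^ k)) * r ^ i := by
    intro i
    refine (hQ _).trans ?_
    rw [mul_assoc]
    refine mul_le_mul_of_nonneg_left ?_ hC
    rw [hr, ← Real.exp_nat_mul, ← Real.exp_add]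
    refine Real.exp_le_exp.2 ?_
    have h2 : (4 : ℝ) ^ k + i ≤ 4 ^ (k + i + 1) := by
      have h3 : (i : ℝ) + 1 ≤ 4 ^ (i + 1) := by
        have : i + 1 < 4 ^ (i + 1) := Nat.lt_pow_self (by norm_num)
        exact_mod_cast this.le
      have h4 : (1 : ℝ) ≤ 4 ^ k := one_le_pow₀ (by norm_num)
      have h5 : (4 : ℝ) ^ (k + i + 1) = 4 ^ k * 4 ^ (i + 1) := by rw [add_assoc, pow_add]
      rw [h5]
      nlinarith [Nat.cast_nonneg (α := ℝ) i]
    nlinarith
  refine (Finset.sum_le_sum fun i _ => h1 i).trans ?_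
  rw [← Finset.mul_sum]
  have h3 : ∑ i ∈ Finset.range j, r ^ i ≤ (1 - r)⁻¹ := by
    have h4 := (summable_geometric_of_lt_one hr0 hr1).sum_le_tsum (Finset.range j)
      (fun i _ => pow_nonneg hr0 i)
    rwa [tsum_geometric_of_lt_one hr0 hr1] at h4
  calc C * Real.exp (-(c * 4 ^ k)) * ∑ i ∈ Finset.range j, r ^ i ≤
      C * Real.exp (-(c * 4 ^ k)) * (1 - r)⁻¹ :=
        mul_le_mul_of_nonneg_left h3 (mul_nonneg hC (Real.exp_pos _).le)
    _ = _ := by ring

end

end Pool.Agent.N541.HC
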