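import Mathlib
import Pool.Agent.N541.HC.Av
import Pool.Agent.N541.HC.Defs

/-!
# Averages of representations over an open normal subgroup
-/

open MeasureTheory Matrix Pool.Agent.N991.MK Filter
open Pool.Agent.N989.MK
open scoped Topology

namespace Pool.Agent.N541.HC

set_option linter.unusedSectionVars false

noncomputable section

variable {G : Type*} [Group G] [TopologicalSpace G] [IsTopologicalGroup G] [CompactSpace G]
  [MeasurableSpace G] [BorelSpace G] [SecondCountableTopology G]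
  (μ : Measure G) [IsProbabilityMeasure μ] [μ.IsHaarMeasure] [μ.IsMulRightInvariant]
  [μ.IsInvInvariant] (H : Subgroup G) {M : ℕ} (ρ : G →* Matrix (Fin M) (Fin M) ℂ)

/-- the average of the representation over the subgroup -/
def Pm : Matrix (Fin M) (Fin M) ℂ :=
  Matrix.of fun i j => ∫ y, (ee μ H y : ℂ) * ρ y⁻¹ i j ∂μ

/-- the vectors fixed by the subgroup -/
def fixH : Submodule ℂ (Fin M → ℂ) where
  carrier := {v | ∀ g ∈ H, ρ g *ᵥ v = v}
  zero_mem' := fun g _ => mulVec_zero _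
  add_mem' := fun {a b} ha hb g hg => by
    rw [mulVec_add, ha g hg, hb g hg]
  smul_mem' := fun c v hv g hg => by
    rw [mulVec_smul, hv g hg]

variable {μ H ρ} (hH : IsOpen (H : Set G)) (hρ : Continuous ρ)

include hH in
lemma eeC_cont : Continuous fun y => (ee μ H y : ℂ) :=
  Complex.continuous_ofReal.comp (ee_cont hH)

lemma entry_cont (hρ : Continuous ρ) (i j : Fin M) : Continuous fun y => ρ y i j :=
  (continuous_apply j).comp ((continuous_apply i).comp hρ)

include hH hρ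

lemma integrable_entry (i j : Fin M) :
    Integrable (fun y => (ee μ H y : ℂ) * ρ y⁻¹ i j) μ :=
  ((eeC_cont hH).mul ((entry_cont hρ i j).comp continuous_inv)).integrable_of_hasCompactSupport
    (HasCompactSupport.of_compactSpace _)

lemma rho_Pm {h : G} (hh : h ∈ H) : ρ h * Pm μ H ρ = Pm μ H ρ := by
  ext i j
  rw [Matrix.mul_apply]
  have h1 : ∀ k, ρ h i k * Pm μ H ρ k j = ∫ y, ρ h i k * ((ee μ H y : ℂ) * ρ y⁻¹ k j) ∂μ :=
    fun k => (integral_const_mul _ _).symm
  simp only [h1]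
  rw [← integral_finsetSum _ fun k _ => (integrable_entry hH hρ k j).const_mul _]
  have h2 : ∀ y, ∑ k, ρ h i k * ((ee μ H y : ℂ) * ρ y⁻¹ k j) =
      (ee μ H y : ℂ) * ρ (h * y⁻¹) i j := by
    intro y
    rw [map_mul, Matrix.mul_apply, Finset.mul_sum]
    refine Finset.sum_congr rfl fun k _ => ?_
    ring
  simp only [h2]
  unfold Pm
  rw [Matrix.of_apply, ← integral_mul_right_eq_self (μ := μ)
    (fun y => (ee μ H y : ℂ) * ρ (h * y⁻¹) i j) h]
  refine integral_congr_ae (Eventually.of_forall fun y => ?_)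
  beta_reduce
  rw [ee_mul_right hh]
  congr 2
  group

lemma Pm_fix {v : Fin M → ℂ} (hv : v ∈ fixH H ρ) : Pm μ H ρ *ᵥ v = v := by
  funext i
  have h1 : ∀ j, Pm μ H ρ i j * v j = ∫ y, (ee μ H y : ℂ) * ρ y⁻¹ i j * v j ∂μ :=
    fun j => (integral_mul_const _ _).symm
  change ∑ j, Pm μ H ρ i j * v j = v i
  simp only [h1]
  rw [← integral_finsetSum _ fun j _ => (integrable_entry hH hρ i j).mul_const _]
  have h2 : ∀ y, ∑ j, (ee μ H y : ℂ) * ρ y⁻¹ i j * v j = (ee μ H y : ℂ) * v i := by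
    intro y
    by_cases hy : y ∈ H
    · have h3 : (ρ y⁻¹ *ᵥ v) i = v i := by rw [hv y⁻¹ (H.inv_mem hy)]
      have h4 : (ρ y⁻¹ *ᵥ v) i = ∑ j, ρ y⁻¹ i j * v j := rfl
      rw [← h3, h4, Finset.mul_sum]
      refine Finset.sum_congr rfl fun j _ => ?_
      ring
    · rw [ee_not hy]
      simp
  simp only [h2]
  have h5 : ∫ a, ((ee μ H a : ℝ) : ℂ) ∂μ = ((∫ a, ee μ H a ∂μ : ℝ) : ℂ) := integral_ofReal
  rw [integral_mul_const, h5, ee_int hH]
  simp

lemma Pm_mem (v : Fin M → ℂ) : Pm μ H ρ *ᵥ v ∈ fixH H ρ := fun h hh => by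
  rw [mulVec_mulVec, rho_Pm hH hρ hh]

/-- the trace of the average is the dimension of the fixed space -/
lemma trace_Pm : trace (Pm μ H ρ) = (Module.finrank ℂ (fixH H ρ) : ℂ) := by
  have h1 : LinearMap.IsProj (fixH H ρ) (Matrix.toLin' (Pm μ H ρ)) :=
    ⟨fun v => by rw [Matrix.toLin'_apply]; exact Pm_mem hH hρ v,
      fun v hv => by rw [Matrix.toLin'_apply]; exact Pm_fix hH hρ hv⟩
  have h2 := h1.trace
  rw [← h2, Matrix.trace_toLin'_eq]

lemma Pm_zero (h : fixH H ρ = ⊥) : Pm μ H ρ = 0 := by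
  have h1 : ∀ v, Pm μ H ρ *ᵥ v = 0 := fun v => by
    have h2 := Pm_mem (μ := μ) hH hρ v
    rw [h] at h2
    exact (Submodule.mem_bot ℂ).1 h2
  have h2 : Matrix.toLin' (Pm μ H ρ) = 0 := LinearMap.ext fun v => by
    rw [Matrix.toLin'_apply, h1]; rfl
  exact Matrix.toLin'.map_eq_zero_iff.1 h2

/-- the average of the trace of an equivariant function -/
lemma int_trace {U : G → Matrix (Fin M) (Fin M) ℂ} (hU : ∀ h ∈ H, ∀ x, U (h * x) = ρ h * U x)
    (x : G) : ∫ y, (ee μ H y : ℂ) * trace (U (y⁻¹ * x)) ∂μ = trace (Pm μ H ρ * U x) := by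
  have h1 : ∀ y, (ee μ H y : ℂ) * trace (U (y⁻¹ * x)) =
      ∑ i, ∑ j, (ee μ H y : ℂ) * ρ y⁻¹ i j * U x j i := by
    intro y
    by_cases hy : y ∈ H
    · rw [hU y⁻¹ (H.inv_mem hy), Matrix.trace, Finset.mul_sum]
      refine Finset.sum_congr rfl fun i _ => ?_
      rw [Matrix.diag_apply, Matrix.mul_apply, Finset.mul_sum]
      refine Finset.sum_congr rfl fun j _ => ?_
      ring
    · rw [ee_not hy]
      simp
  simp only [h1]
  rw [integral_finsetSum _ fun i _ => integrable_finsetSum _ fun j _ =>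
    (integrable_entry hH hρ i j).mul_const _, Matrix.trace]
  refine Finset.sum_congr rfl fun i _ => ?_
  rw [integral_finsetSum _ fun j _ => (integrable_entry hH hρ i j).mul_const _,
    Matrix.diag_apply, Matrix.mul_apply]
  refine Finset.sum_congr rfl fun j _ => ?_
  rw [integral_mul_const]
  rfl

lemma integrable_trace {U : G → Matrix (Fin M) (Fin M) ℂ} (cU : Continuous U) (x : G) :
    Integrable (fun y => (ee μ H y : ℂ) * trace (U (y⁻¹ * x))) μ := by
  have h1 : Continuous fun y => trace (U (y⁻¹ * x)) := by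
    refine Continuous.matrix_trace ?_
    exact cU.comp (continuous_inv.mul continuous_const)
  exact ((eeC_cont hH).mul h1).integrable_of_hasCompactSupport
    (HasCompactSupport.of_compactSpace _)

lemma Av_re {U : G → Matrix (Fin M) (Fin M) ℂ} (cU : Continuous U)
    (hU : ∀ h ∈ H, ∀ x, U (h * x) = ρ h * U x) (x : G) :
    Av μ H (fun x => (trace (U x)).re) x = (trace (Pm μ H ρ * U x)).re := by
  rw [← int_trace hH hρ hU x, Av_def]
  have h1 := (integrable_trace (μ := μ) (U := U) hH hρ cU x).re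
  have h2 := integral_re (integrable_trace (μ := μ) (U := U) hH hρ cU x)
  rw [show (∫ y, (ee μ H y : ℂ) * trace (U (y⁻¹ * x)) ∂μ).re =
    RCLike.re (∫ y, (ee μ H y : ℂ) * trace (U (y⁻¹ * x)) ∂μ) from rfl, ← h2]
  refine integral_congr_ae (Eventually.of_forall fun y => ?_)
  show _ = ((ee μ H y : ℂ) * trace (U (y⁻¹ * x))).re
  rw [Complex.re_ofReal_mul]

lemma Av_im {U : G → Matrix (Fin M) (Fin M) ℂ} (cU : Continuous U)
    (hU : ∀ h ∈ H, ∀ x, U (h * x) = ρ h * U x) (x : G) :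
    Av μ H (fun x => (trace (U x)).im) x = (trace (Pm μ H ρ * U x)).im := by
  rw [← int_trace hH hρ hU x, Av_def]
  have h2 := integral_im (integrable_trace (μ := μ) (U := U) hH hρ cU x)
  rw [show (∫ y, (ee μ H y : ℂ) * trace (U (y⁻¹ * x)) ∂μ).im =
    RCLike.im (∫ y, (ee μ H y : ℂ) * trace (U (y⁻¹ * x)) ∂μ) from rfl, ← h2]
  refine integral_congr_ae (Eventually.of_forall fun y => ?_)
  show _ = ((ee μ H y : ℂ) * trace (U (y⁻¹ * x))).im
  rw [Complex.im_ofReal_mul]

end

end Pool.Agent.N541.HC
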