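import Mathlib
import Pool.Agent.N541.HC.Conf
import Pool.Agent.N541.HC.Rep

/-!
# The area law for rectangles
-/

open MeasureTheory Matrix Pool.Agent.N991.MK Filter
open Pool.Agent.N989.MK
open scoped Topology

namespace Pool.Agent.N541.HC

set_option linter.unusedSectionVars false

noncomputable section

section exc

variable {G : Type*} [Group G] [TopologicalSpace G] [IsTopologicalGroup G] [CompactSpace G]
  [MeasurableSpace G] [BorelSpace G] [SecondCountableTopology G]
  {μ : Measure G} [IsProbabilityMeasure μ] [μ.IsHaarMeasure] [μ.IsMulRightInvariant]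
  [μ.IsInvInvariant] {w : G → ℝ}

/-- the norm of a complex expectation -/
lemma ExC_le (hw : Adm w) (n : ℕ) {O : (Ed n → G) → ℂ} (hO : Continuous O) (d : ℝ) {e : ℝ}
    (h1 : |∫ U : Ed n → G, (O U).re * wt w U ∂(Measure.pi fun _ => μ) -
      d * ∫ U : Ed n → G, wt w U ∂(Measure.pi fun _ => μ)| ≤
        e * ∫ U : Ed n → G, wt w U ∂(Measure.pi fun _ => μ))
    (h2 : |∫ U : Ed n → G, (O U).im * wt w U ∂(Measure.pi fun _ => μ)| ≤
        e * ∫ U : Ed n → G, wt w U ∂(Measure.pi fun _ => μ)) :
    ‖ExC μ w n O - d‖ ≤ 2 * e := by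
  set Z := ∫ U : Ed n → G, wt w U ∂(Measure.pi fun _ => μ) with hZ
  have hZ0 : 0 < Z := by
    rw [hZ, int_wt hw.cont hw.cls]
    exact (Zr_adm' hw n).ipos
  have hc : Continuous fun U : Ed n → G => O U * ((wt w U : ℝ) : ℂ) :=
    hO.mul (Complex.continuous_ofReal.comp (wt_cont hw.cont))
  have hi : Integrable (fun U : Ed n → G => O U * ((wt w U : ℝ) : ℂ))
      (Measure.pi fun _ => μ) :=
    hc.integrable_of_hasCompactSupport (HasCompactSupport.of_compactSpace _)
  set I := ∫ U : Ed n → G, O U * ((wt w U : ℝ) : ℂ) ∂(Measure.pi fun _ => μ) with hI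
  have hre : I.re = ∫ U : Ed n → G, (O U).re * wt w U ∂(Measure.pi fun _ => μ) := by
    have h3 := integral_re hi
    rw [show I.re = RCLike.re I from rfl, hI, ← h3]
    refine integral_congr_ae (Eventually.of_forall fun U => ?_)
    show (O U * ((wt w U : ℝ) : ℂ)).re = _
    rw [Complex.re_mul_ofReal]
  have him : I.im = ∫ U : Ed n → G, (O U).im * wt w U ∂(Measure.pi fun _ => μ) := by
    have h3 := integral_im hi
    rw [show I.im = RCLike.im I from rfl, hI, ← h3]
    refine integral_congr_ae (Eventually.of_forall fun U => ?_)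
    show (O U * ((wt w U : ℝ) : ℂ)).im = _
    rw [Complex.im_mul_ofReal]
  rw [← hre] at h1
  rw [← him] at h2
  have e1 : ExC μ w n O - d = (I - (d * Z : ℝ)) / (Z : ℂ) := by
    unfold ExC
    have hZc : (Z : ℂ) ≠ 0 := by exact_mod_cast hZ0.ne'
    rw [← hI, ← hZ]
    push_cast
    field_simp
  rw [e1, norm_div, Complex.norm_real, Real.norm_eq_abs, abs_of_pos hZ0, div_le_iff₀ hZ0]
  refine (Complex.norm_le_abs_re_add_abs_im _).trans ?_
  rw [Complex.sub_re, Complex.sub_im, Complex.ofReal_re, Complex.ofReal_im, sub_zero]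
  linarith

end exc

variable {G : Type} [Group G] [TopologicalSpace G] [IsTopologicalGroup G] [CompactSpace G]
  [MeasurableSpace G] [BorelSpace G] [SecondCountableTopology G]
  {μ : Measure G} [IsProbabilityMeasure μ] [μ.IsHaarMeasure] [μ.IsMulRightInvariant]
  [μ.IsInvInvariant] {H : Subgroup G} [H.Normal] (hH : IsOpen (H : Set G)) {w : G → ℝ}

open scoped Matrix.Norms.L2Operator

include hH

theorem area_law (hw : Adm w) {k0 : ℕ} (h0 : SmH μ H (1 / 10) (TTn μ w k0)) {M : ℕ}
    (hL : TaskL) (hB : TaskB G (Matrix (Fin M) (Fin M) ℂ))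
    (hM : TaskM G (Matrix (Fin M) (Fin M) ℂ))
    (hR : ∀ (n : ℕ) (σ : Sec n) (a b : ℕ), Continuous fun U : Ed n → G => rect n σ U a b)
    (ρ : G →* Matrix (Fin M) (Fin M) ℂ) (hρ : Continuous ρ)
    (hu : ∀ g, ρ g ∈ unitaryGroup (Fin M) ℂ) (hf : fixH H ρ = ⊥) : AreaLaw μ w ρ := by
  -- the constants
  obtain ⟨C0, c0, hC0, hc0, Q, Q0, Q1, Q2, Qm0, Qm⟩ := exists_minor' (μ := μ) hH hw h0
  obtain ⟨lam, l, hl0, hl, hlam⟩ := hL Q C0 c0 hc0 Q0 Q1 Q2
  obtain ⟨S, hS0, hS⟩ := sum_Q hC0.le hc0 Q2
  -- norms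
  have hn1 : ‖(1 : Matrix (Fin M) (Fin M) ℂ)‖ ≤ 1 := by
    rcases subsingleton_or_nontrivial (Matrix (Fin M) (Fin M) ℂ) with h | h
    · rw [Subsingleton.elim (1 : Matrix (Fin M) (Fin M) ℂ) 0, norm_zero]
      exact zero_le_one
    · rw [CStarRing.norm_one]
  have hnρ : ∀ g, ‖ρ g‖ ≤ 1 := by
    intro g
    rcases subsingleton_or_nontrivial (Matrix (Fin M) (Fin M) ℂ) with h | h
    · rw [Subsingleton.elim (ρ g) 0, norm_zero]
      exact zero_le_one
    · exact (CStarRing.norm_of_mem_unitary (hu g)).le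
  obtain ⟨cFR, eFR, dFR⟩ := hM μ ρ w hρ hw.cont hw.cls
  have dec := hB μ H ρ w Q lam hρ hnρ hn1 hw hlam Qm0 Qm
  -- the trace
  let T : Matrix (Fin M) (Fin M) ℂ →L[ℝ] ℂ :=
    LinearMap.toContinuousLinearMap
      { toFun := fun A => trace A
        map_add' := fun A B => trace_add A B
        map_smul' := fun c A => by
          simp [trace_smul] }
  have hT : ∀ A, T A = trace A := fun A => rfl
  set Ct := ‖T‖ with hCt
  have hTb : ∀ A, ‖trace A‖ ≤ Ct * ‖A‖ := fun A => T.le_opNorm A
  have hCt0 : 0 ≤ Ct := norm_nonneg _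
  set c := min l c0 with hc
  have hcpos : 0 < c := lt_min hl0 hc0
  refine ⟨2 * (Ct + Ct * S), c, hcpos, fun k j P σ a b ha hb => ?_⟩
  have hPm : Pm μ H ρ = 0 := Pm_zero hH hρ hf
  obtain ⟨U, K', cU, cK, hUK, hUρ, hKb, hFb⟩ := dec k a b ha hb
  -- the bound of the insertion, for the real and the imaginary part
  have key : ∀ L : ℂ →L[ℝ] ℝ, (∀ z, |L z| ≤ ‖z‖) →
      (∀ x, Av μ H (fun x => L (trace (U x))) x = 0) →
      |∫ V : Ed (k + j) → G, L (trace (ρ (rect k σ (fun e => V (emk k j P e)) a b))) *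
        wt w V ∂(Measure.pi fun _ => μ)| ≤
        (Ct + Ct * S) * Real.exp (-(c * (a * b))) *
          ∫ V : Ed (k + j) → G, wt w V ∂(Measure.pi fun _ => μ) := by
    intro L hLb hLA
    set O : (Ed k → G) → ℝ := fun V => L (trace (ρ (rect k σ V a b))) with hO
    have cO : Continuous O := L.continuous.comp ((hρ.comp (hR k σ a b)).matrix_trace)
    set B : G → ℝ := fun x => L (trace (FR μ w ρ k a b x)) with hBd
    have cB : Continuous B := L.continuous.comp (cFR k a b).matrix_trace
    have lB : Cls B := by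
      intro g x
      rw [hBd]
      beta_reduce
      rw [eFR k a b g x, trace_mul_comm, ← mul_assoc, ← map_mul, inv_mul_cancel, map_one,
        one_mul]
    have hOB : ∀ V : BE k → G, ∫ I : IE k → G, O (Sum.elim V I) *
        wt w (Sum.elim V I : Ed k → G) ∂(Measure.pi fun _ => μ) = B (lp V) := by
      intro V
      have h1 := dFR k σ a b ha hb V
      rw [hBd]
      beta_reduce
      rw [← h1]
      have h2 : Continuous fun I : IE k → G => (Sum.elim V I : Ed k → G) := by
        refine continuous_pi fun e => ?_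
        rcases e with e | e
        · exact continuous_const
        · exact continuous_apply e
      have h3 : Continuous fun I : IE k → G => wt w (Sum.elim V I : Ed k → G) •
          ρ (rect k σ (Sum.elim V I : Ed k → G) a b) :=
        ((wt_cont hw.cont).comp h2).smul (hρ.comp ((hR k σ a b).comp h2))
      have h4 := (L.comp T).integral_comp_comm (μ := Measure.pi fun _ : IE k => μ)
        (h3.integrable_of_hasCompactSupport (HasCompactSupport.of_compactSpace _))
      have h5 : ∀ A, (L.comp T) A = L (trace A) := fun A => rfl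
      rw [h5] at h4
      rw [← h4]
      refine integral_congr_ae (Eventually.of_forall fun I => ?_)
      beta_reduce
      rw [h5, trace_smul]
      have h6 : L (wt w (Sum.elim V I : Ed k → G) •
          trace (ρ (rect k σ (Sum.elim V I : Ed k → G) a b))) =
          wt w (Sum.elim V I : Ed k → G) •
            L (trace (ρ (rect k σ (Sum.elim V I : Ed k → G) a b))) := L.map_smul _ _
      rw [h6, smul_eq_mul, mul_comm]
    have h1 := int_insG (μ := μ) hw.cont hw.cls k cO cB lB hOB j P
    have e1 : ∫ V : Ed (k + j) → G, L (trace (ρ (rect k σ (fun e => V (emk k j P e)) a b))) *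
        wt w V ∂(Measure.pi fun _ => μ) = ∫ x, ZI μ w k B j x ∂μ := h1
    rw [e1, int_wt hw.cont hw.cls]
    have h2 := cover_int (μ := μ) hH Q0 hw Qm k (B := B) (U := fun x => L (trace (U x)))
      (K := fun x => L (trace (K' x))) (L.continuous.comp cU.matrix_trace)
      (L.continuous.comp cK.matrix_trace)
      (fun x => by
        rw [hBd]
        beta_reduce
        rw [hUK x, trace_add, map_add]) hLA (M := Ct)
      (κ := Ct * Real.exp (-(lam k * (a * b)))) hCt0 (by positivity)
      (fun x => by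
        refine (hLb _).trans ((hTb _).trans ?_)
        rw [mul_assoc]
        exact mul_le_mul_of_nonneg_left (hKb x) hCt0)
      (fun x => by
        refine (hLb _).trans ((hTb _).trans ?_)
        exact mul_le_mul_of_nonneg_left (hFb x) hCt0) j
    refine h2.trans ?_
    have hZ0 : 0 < ∫ x, Zr μ w (k + j) x ∂μ := (Zr_adm' hw _).ipos
    refine mul_le_mul_of_nonneg_right ?_ hZ0.le
    have hab : (0 : ℝ) ≤ (a : ℝ) * b := by positivity
    have g1 : Real.exp (-(lam k * (a * b))) ≤ Real.exp (-(c * (a * b))) := by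
      refine Real.exp_le_exp.2 (neg_le_neg ?_)
      exact mul_le_mul_of_nonneg_right ((min_le_left _ _).trans (hl k)) hab
    have g2 : ∑ i ∈ Finset.range j, Q (k + i + 1) ≤ S * Real.exp (-(c * (a * b))) := by
      refine (hS k j).trans (mul_le_mul_of_nonneg_left ?_ hS0)
      refine Real.exp_le_exp.2 (neg_le_neg ?_)
      have h3 : (a : ℝ) * b ≤ 4 ^ k := by
        have h4 : a * b ≤ 2 ^ k * 2 ^ k := Nat.mul_le_mul ha hb
        have h5 : 2 ^ k * 2 ^ k = 4 ^ k := by rw [← mul_pow]; norm_num
        rw [h5] at h4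
        exact_mod_cast h4
      calc c * (a * b) ≤ c * 4 ^ k := mul_le_mul_of_nonneg_left h3 hcpos.le
        _ ≤ c0 * 4 ^ k := mul_le_mul_of_nonneg_right (min_le_right _ _) (by positivity)
    calc Ct * Real.exp (-(lam k * (a * b))) + Ct * ∑ i ∈ Finset.range j, Q (k + i + 1) ≤
        Ct * Real.exp (-(c * (a * b))) + Ct * (S * Real.exp (-(c * (a * b)))) :=
          add_le_add (mul_le_mul_of_nonneg_left g1 hCt0) (mul_le_mul_of_nonneg_left g2 hCt0)
      _ = _ := by ring
  have hcO : Continuous fun V : Ed (k + j) → G =>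
      trace (ρ (rect k σ (fun e => V (emk k j P e)) a b)) := by
    have h2 : Continuous fun (V : Ed (k + j) → G) (e : Ed k) => V (emk k j P e) :=
      continuous_pi fun e => continuous_apply _
    exact (hρ.comp ((hR k σ a b).comp h2)).matrix_trace
  have hre := key Complex.reCLM (fun z => Complex.abs_re_le_norm z) (fun x => by
    have h1 := Av_re (μ := μ) hH hρ cU hUρ x
    rw [hPm, zero_mul, trace_zero] at h1
    exact h1)
  have him := key Complex.imCLM (fun z => Complex.abs_im_le_norm z) (fun x => by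
    have h1 := Av_im (μ := μ) hH hρ cU hUρ x
    rw [hPm, zero_mul, trace_zero] at h1
    exact h1)
  have hfin := ExC_le (μ := μ) hw (k + j) hcO 0 (e := (Ct + Ct * S) * Real.exp (-(c * (a * b))))
    (by rw [zero_mul, sub_zero]; exact hre) him
  rw [Complex.ofReal_zero, sub_zero] at hfin
  refine hfin.trans (le_of_eq ?_)
  ring

end

end Pool.Agent.N541.HC
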