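import Mathlib
import Pool.Agent.N541.HC.Area
import Pool.Agent.N20.HC.R
import Pool.Agent.N20.HC.L
import Pool.Agent.N618.HC.TaskB
import Pool.Agent.N558.HC.M

/-!
# The area law for rectangles, with the tasks of the co-authors
-/

open MeasureTheory Matrix Pool.Agent.N991.MK Filter
open Pool.Agent.N989.MK
open scoped Topology Matrix.Norms.L2Operator

namespace Pool.Agent.N541.HC

set_option linter.unusedSectionVars false

variable {G : Type} [Group G] [TopologicalSpace G] [IsTopologicalGroup G]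
  [CompactSpace G] [MeasurableSpace G] [BorelSpace G] [SecondCountableTopology G]
  {μ : Measure G} [IsProbabilityMeasure μ] [μ.IsHaarMeasure] [μ.IsMulRightInvariant]
  [μ.IsInvInvariant] {H : Subgroup G} [H.Normal] (hH : IsOpen (H : Set G)) {w : G → ℝ}

include hH

/-- the area law if the weight is nearly invariant at some scale -/
theorem area_law'' (hw : Adm w) {k0 : ℕ} (h0 : SmH μ H (1 / 10) (TTn μ w k0)) {M : ℕ}
    (ρ : G →* Matrix (Fin M) (Fin M) ℂ) (hρ : Continuous ρ)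
    (hu : ∀ g, ρ g ∈ unitaryGroup (Fin M) ℂ) (hf : fixH H ρ = ⊥) : AreaLaw μ w ρ :=
  area_law hH hw h0 Pool.Agent.N20.HC.taskL Pool.Agent.N618.HC.taskB
    (Pool.Agent.N558.HC.taskM (Pool.Agent.N20.HC.rectSucc G)) Pool.Agent.N20.HC.rect_cont
    ρ hρ hu hf

/-- the area law for semiconcave actions -/
theorem area_law' {n : ℕ} {D : ED G n} (hE : ∀ X, D.E X ∈ H) {m : ℕ} (hg : GenH D H m) {K : ℝ}
    (hK : 0 ≤ K) (hw : Adm w) (hs : SC D K w) {M : ℕ}
    (ρ : G →* Matrix (Fin M) (Fin M) ℂ) (hρ : Continuous ρ)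
    (hu : ∀ g, ρ g ∈ unitaryGroup (Fin M) ℂ) (hf : fixH H ρ = ⊥) : AreaLaw μ w ρ := by
  obtain ⟨k0, hk0⟩ := exists_smallH (μ := μ) hH hE hg hK
  exact area_law'' hH hw (hk0 w hw hs) ρ hρ hu hf

end Pool.Agent.N541.HC
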