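import Mathlib
import Pool.Agent.N541.HC.Flow
import Pool.Agent.N541.HC.Dec

/-!
# Bounds of the expectations of the loops around the subsquares
-/

open MeasureTheory Pool.Agent.N991.MK Filter
open Pool.Agent.N989.MK
open scoped Topology

namespace Pool.Agent.N541.HC

set_option linter.unusedSectionVars false

noncomputable section

variable {G : Type*} [Group G] [TopologicalSpace G] [IsTopologicalGroup G] [CompactSpace G]
  [MeasurableSpace G] [BorelSpace G] [SecondCountableTopology G]
  {μ : Measure G} [IsProbabilityMeasure μ] [μ.IsHaarMeasure] [μ.IsMulRightInvariant]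
  [μ.IsInvInvariant] {H : Subgroup G} [H.Normal] (hH : IsOpen (H : Set G)) {w : G → ℝ}

lemma Zr_adm (hw : Adm w) (n : ℕ) : Adm (Zr μ w n) := by
  rw [Zr_eq]
  exact hw.TTn n

lemma H4_adm {Z : G → ℝ} (h : Adm Z) : Adm (conv μ (conv μ Z Z) (conv μ Z Z)) := h.H4

section

include hH

/-! ### Confinement -/

/-- the mean of a product with a function without averages -/
lemma int_noav {Z O : G → ℝ} (h : Adm Z) {a : ℝ} (hs : SmH μ H a Z) (hO : Continuous O) {M : ℝ}
    (hM : ∀ x, |O x| ≤ M) (hA : ∀ x, Av μ H O x = 0) :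
    |∫ x, O x * Z x ∂μ| ≤ M * a * ∫ x, Z x ∂μ := by
  have cA := Av_cont (μ := μ) hH h.cont
  have h1 : ∫ x, O x * Av μ H Z x ∂μ = 0 := by
    have h2 := int_Av_mul (μ := μ) hH (F := Av μ H Z) (T := O) cA hO (fun y hy x => Av_inv hy Z x)
    simp only [hA, mul_zero, integral_zero] at h2
    rw [← h2]
    exact integral_congr_ae (Eventually.of_forall fun x => mul_comm _ _)
  have h2 : ∫ x, O x * Z x ∂μ = ∫ x, O x * (Z x - Av μ H Z x) ∂μ := by
    have e : ∀ x, O x * (Z x - Av μ H Z x) = O x * Z x - O x * Av μ H Z x := fun x => by ring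
    simp only [e]
    have i1 : Integrable (fun x => O x * Z x) μ := integrable_of_cont (hO.mul h.cont)
    have i2 : Integrable (fun x => O x * Av μ H Z x) μ := integrable_of_cont (hO.mul cA)
    rw [integral_sub i1 i2, h1, sub_zero]
  rw [h2]
  refine (abs_integral_le_integral_abs).trans ?_
  have h3 : ∀ x, |O x * (Z x - Av μ H Z x)| ≤ M * a * Av μ H Z x := fun x => by
    rw [abs_mul, mul_assoc]
    exact mul_le_mul (hM x) (hs x) (abs_nonneg _) ((abs_nonneg _).trans (hM x))
  have h4 := integral_mono (μ := μ) (f := fun x => |O x * (Z x - Av μ H Z x)|)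
    (g := fun x => M * a * Av μ H Z x) (integrable_of_cont (hO.mul (h.cont.sub cA)).abs)
    (integrable_of_cont (continuous_const.mul cA)) h3
  rw [integral_const_mul, Av_int hH h.cont] at h4
  exact h4

/-- the convolution with an insertion without averages -/
lemma conv_noav {Z O : G → ℝ} (h : Adm Z) {a : ℝ} (ha0 : 0 ≤ a) (ha : a ≤ 1 / 10)
    (hs : SmH μ H a Z) (hO : Continuous O)
    (hOc : Cls O) {M : ℝ} (hM : ∀ x, |O x| ≤ M) (hA : ∀ x, Av μ H O x = 0) (x : G) :
    |conv μ (fun y => O y * Z y) Z x| ≤ 3 * M * a * conv μ Z Z x := by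
  have hM0 : 0 ≤ M := (abs_nonneg _).trans (hM 1)
  have cA := Av_cont (μ := μ) hH h.cont
  have lA := Av_cls (μ := μ) (H := H) h.cls
  set u := Av μ H Z with hu
  have u0 : ∀ x, 0 < u x := Av_pos hH h.cont h.pos
  have cD : Continuous fun y => Z y - u y := h.cont.sub cA
  have cOu : Continuous fun y => O y * u y := hO.mul cA
  have cOZ : Continuous fun y => O y * Z y := hO.mul h.cont
  have cOD : Continuous fun y => O y * (Z y - u y) := hO.mul cD
  have lOu : Cls fun y => O y * u y := fun g y => by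
    show O _ * u _ = O _ * u _
    rw [hOc, lA]
  have h1 : conv μ (fun y => O y * u y) u x = 0 := by
    rw [hu, ← Av_conv_right hH cOu h.cont lOu h.cls, Av_conv_left hH cOu h.cont]
    have h2 : Av μ H (fun y => O y * Av μ H Z y) = fun _ => 0 := by
      funext z
      have h3 := Av_mul (μ := μ) (H := H) u O z (fun y hy => Av_inv hy Z z)
      rw [hA, mul_zero] at h3
      rw [← h3]
      congr 1
      funext y
      exact mul_comm _ _
    rw [h2]
    unfold conv
    simp
  have h2 : conv μ (fun y => O y * Z y) Z x = conv μ (fun y => O y * (Z y - u y)) Z x +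
      conv μ (fun y => O y * u y) (fun y => Z y - u y) x := by
    rw [conv_sub_r cOu h.cont cA, h1, sub_zero]
    have e : (fun y => O y * (Z y - u y)) = fun y => O y * Z y - O y * u y := by
      funext y; ring
    rw [e, conv_sub_l cOZ cOu h.cont]
    ring
  have b1 : ∀ y, |O y * (Z y - u y)| ≤ M * a * u y := fun y => by
    rw [abs_mul, mul_assoc]
    exact mul_le_mul (hM y) (hs y) (abs_nonneg _) hM0
  have b2 : ∀ y, |O y * u y| ≤ M * u y := fun y => by
    rw [abs_mul, abs_of_pos (u0 y)]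
    exact mul_le_mul_of_nonneg_right (hM y) (u0 y).le
  have b3 : ∀ y, u y ≤ 10 / 9 * Z y := fun y => by
    have h3 := (abs_le.1 (hs y)).1
    have h4 : a * u y ≤ 1 / 10 * u y := mul_le_mul_of_nonneg_right ha (u0 y).le
    linarith
  have c1 := conv_abs_le (μ := μ) cOD h.cont (F := fun y => M * a * u y) (K := Z)
    (continuous_const.mul cA) h.cont b1 (fun y => (abs_of_pos (h.pos y)).le) x
  have c2 := conv_abs_le (μ := μ) cOu cD (F := fun y => M * u y) (K := fun y => a * u y)
    (continuous_const.mul cA) (continuous_const.mul cA) b2 hs x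
  rw [conv_smul_l] at c1
  rw [conv_smul_l, conv_smul_r] at c2
  have c3 : conv μ u Z x ≤ 10 / 9 * conv μ Z Z x := by
    rw [← conv_smul_l]
    exact conv_mono cA h.cont (continuous_const.mul h.cont) h.cont (fun y => (u0 y).le)
      (fun y => (h.pos y).le) b3 (fun y => le_rfl) x
  have c4 : conv μ u u x ≤ 10 / 9 * (10 / 9 * conv μ Z Z x) := by
    rw [← conv_smul_r, ← conv_smul_l]
    exact conv_mono cA cA (continuous_const.mul h.cont) (continuous_const.mul h.cont)
      (fun y => (u0 y).le) (fun y => (u0 y).le) b3 b3 x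
  have hz : 0 < conv μ Z Z x := h.conv.pos x
  rw [h2]
  refine (abs_add_le _ _).trans ?_
  have hMa : 0 ≤ M * a := mul_nonneg hM0 ha0
  have d1 := mul_le_mul_of_nonneg_left c3 hMa
  have d2 := mul_le_mul_of_nonneg_left c4 hMa
  have e1 : M * (a * conv μ u u x) = M * a * conv μ u u x := by ring
  rw [e1] at c2
  have e2 : 3 * M * a * conv μ Z Z x = M * a * (3 * conv μ Z Z x) := by ring
  rw [e2]
  have d3 : M * a * (10 / 9 * conv μ Z Z x) + M * a * (10 / 9 * (10 / 9 * conv μ Z Z x)) ≤
      M * a * (3 * conv μ Z Z x) := by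
    rw [← mul_add]
    exact mul_le_mul_of_nonneg_left (by linarith) hMa
  linarith

end

/-- bounds of the partition functions with an insertion go to the next level -/
lemma ZO_step (hw : Adm w) (k : ℕ) {O : G → ℝ} (hO : Continuous O) {δ : ℝ} {j : ℕ}
    (h : ∀ x, |ZO μ w k O j x| ≤ δ * Zr μ w (k + j) x) (x : G) :
    |ZO μ w k O (j + 1) x| ≤ δ * Zr μ w (k + (j + 1)) x := by
  have hz := Zr_adm (μ := μ) hw (k + j)
  have cz := ZO_cont (μ := μ) hw.cont k hO j
  have c1 : Continuous fun y => δ * Zr μ w (k + j) y := continuous_const.mul hz.cont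
  have h1 := conv_abs_le (μ := μ) (cont_conv cz hz.cont) (cont_conv hz.cont hz.cont)
    (F := conv μ (fun y => δ * Zr μ w (k + j) y) (Zr μ w (k + j)))
    (K := conv μ (Zr μ w (k + j)) (Zr μ w (k + j)))
    (cont_conv c1 hz.cont) (cont_conv hz.cont hz.cont)
    (conv_abs_le cz hz.cont c1 hz.cont h (fun y => (abs_of_pos (hz.pos y)).le))
    (fun y => (abs_of_pos (hz.conv.pos y)).le) x
  have e : conv μ (fun y => δ * Zr μ w (k + j) y) (Zr μ w (k + j)) =
      fun y => δ * conv μ (Zr μ w (k + j)) (Zr μ w (k + j)) y := by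
    funext y
    rw [conv_smul_l]
  rw [e, conv_smul_l] at h1
  have hp := (H4_adm (μ := μ) hz).pos x
  set Q := conv μ (conv μ (Zr μ w (k + j)) (Zr μ w (k + j)))
    (conv μ (Zr μ w (k + j)) (Zr μ w (k + j))) x with hQ
  change |conv μ (conv μ (ZO μ w k O j) (Zr μ w (k + j)))
    (conv μ (Zr μ w (k + j)) (Zr μ w (k + j))) x * Q ^ 3| ≤ δ * Q ^ 4
  rw [abs_mul, abs_of_pos (pow_pos hp 3)]
  refine (mul_le_mul_of_nonneg_right h1 (pow_pos hp 3).le).trans (le_of_eq ?_)
  ring

include hH

theorem conf_bound (hw : Adm w) (k : ℕ) {a : ℝ} (ha0 : 0 ≤ a) (ha : a ≤ 1 / 10)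
    (hs : SmH μ H a (Zr μ w k)) {O : G → ℝ} (hO : Continuous O) (hOc : Cls O) {M : ℝ}
    (hM : ∀ x, |O x| ≤ M) (hA : ∀ x, Av μ H O x = 0) (j : ℕ) :
    |∫ x, ZO μ w k O j x ∂μ| ≤ 3 * M * a * ∫ x, Zr μ w (k + j) x ∂μ := by
  have hM0 : 0 ≤ M := (abs_nonneg _).trans (hM 1)
  rcases j with _ | j
  · have h1 := int_noav hH (Zr_adm (μ := μ) hw k) hs hO hM hA
    refine h1.trans ?_
    have h2 : 0 < ∫ x, Zr μ w k x ∂μ := (Zr_adm hw k).ipos
    have h3 : 0 ≤ M * a := mul_nonneg hM0 ha0
    change M * a * ∫ x, Zr μ w k x ∂μ ≤ 3 * M * a * ∫ x, Zr μ w k x ∂μ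
    nlinarith [mul_nonneg h3 h2.le]
  · have key : ∀ j x, |ZO μ w k O (j + 1) x| ≤ 3 * M * a * Zr μ w (k + (j + 1)) x := by
      intro j
      induction j with
      | zero =>
        intro x
        have hz := Zr_adm (μ := μ) hw k
        have cOZ : Continuous fun y => O y * Zr μ w k y := hO.mul hz.cont
        have c1 : Continuous fun y => 3 * M * a * conv μ (Zr μ w k) (Zr μ w k) y :=
          continuous_const.mul (cont_conv hz.cont hz.cont)
        have h1 := conv_abs_le (μ := μ) (cont_conv cOZ hz.cont) (cont_conv hz.cont hz.cont)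
          (F := fun y => 3 * M * a * conv μ (Zr μ w k) (Zr μ w k) y)
          (K := conv μ (Zr μ w k) (Zr μ w k)) c1 (cont_conv hz.cont hz.cont)
          (conv_noav hH hz ha0 ha hs hO hOc hM hA)
          (fun y => (abs_of_pos (hz.conv.pos y)).le) x
        rw [conv_smul_l] at h1
        have hp := (H4_adm (μ := μ) hz).pos x
        set Q := conv μ (conv μ (Zr μ w k) (Zr μ w k)) (conv μ (Zr μ w k) (Zr μ w k)) x with hQ
        change |conv μ (conv μ (fun y => O y * Zr μ w k y) (Zr μ w k))
          (conv μ (Zr μ w k) (Zr μ w k)) x * Q ^ 3| ≤ 3 * M * a * Q ^ 4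
        rw [abs_mul, abs_of_pos (pow_pos hp 3)]
        refine (mul_le_mul_of_nonneg_right h1 (pow_pos hp 3).le).trans (le_of_eq ?_)
        ring
      | succ j ih => exact ZO_step hw k hO ih
    have c1 := ZO_cont (μ := μ) hw.cont k hO (j + 1)
    have hz := Zr_adm (μ := μ) hw (k + (j + 1))
    refine (abs_integral_le_integral_abs).trans ?_
    rw [← integral_const_mul]
    exact integral_mono (integrable_of_cont c1.abs)
      (integrable_of_cont (continuous_const.mul hz.cont)) (key j)

end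

end Pool.Agent.N541.HC
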