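import Mathlib
import Pool.Agent.N541.HC.Bound

/-!
# The deconfined phase: loops see only the open normal subgroup
-/

open MeasureTheory Pool.Agent.N991.MK Filter
open Pool.Agent.N989.MK
open scoped Topology

namespace Pool.Agent.N541.HC

set_option linter.unusedSectionVars false

noncomputable section

variable {G : Type*} [Group G] [TopologicalSpace G] [IsTopologicalGroup G] [CompactSpace G]
  [MeasurableSpace G] [BorelSpace G] [SecondCountableTopology G]
  (μ : Measure G) [IsProbabilityMeasure μ] [μ.IsHaarMeasure] [μ.IsMulRightInvariant]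
  [μ.IsInvInvariant] (H : Subgroup G)

/-- the indicator of the complement of the subgroup -/
def oh (x : G) : ℝ := 1 - μ.real (H : Set G) * ee μ H x

/-- the weight off the subgroup is small, compared with the average over the subgroup -/
def OffA (t : ℝ) (Z : G → ℝ) : Prop := ∀ x, x ∉ H → Z x ≤ t * Av μ H Z 1

variable {μ H} [H.Normal] (hH : IsOpen (H : Set G)) {w : G → ℝ}

lemma Av_one {F : G → ℝ} {x : G} (hx : x ∈ H) : Av μ H F x = Av μ H F 1 := by
  have := Av_inv (μ := μ) hx F 1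
  rwa [mul_one] at this

section

include hH

lemma oh_mem {x : G} (hx : x ∈ H) : oh μ H x = 0 := by
  have := p_pos (μ := μ) hH
  unfold oh
  rw [ee_mem hx, mul_inv_cancel₀ this.ne', sub_self]

omit hH in
lemma oh_not {x : G} (hx : x ∉ H) : oh μ H x = 1 := by
  unfold oh
  rw [ee_not hx, mul_zero, sub_zero]

lemma oh_nonneg (x : G) : 0 ≤ oh μ H x := by
  by_cases hx : x ∈ H
  · rw [oh_mem hH hx]
  · rw [oh_not hx]; exact zero_le_one

lemma oh_le (x : G) : oh μ H x ≤ 1 := by
  by_cases hx : x ∈ H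
  · rw [oh_mem hH hx]; exact zero_le_one
  · rw [oh_not hx]

lemma oh_cont : Continuous (oh μ H) :=
  continuous_const.sub (continuous_const.mul (ee_cont hH))

/-- the total mass -/
lemma int_eq_Av {Z : G → ℝ} (hZ : Continuous Z) :
    ∫ x, Z x ∂μ = μ.real (H : Set G) * Av μ H Z 1 + ∫ x, oh μ H x * Z x ∂μ := by
  have h1 : Av μ H Z 1 = ∫ x, ee μ H x * Z x ∂μ := by
    rw [Av_def, ← integral_inv_eq_self (μ := μ)]
    refine integral_congr_ae (Eventually.of_forall fun x => ?_)
    beta_reduce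
    rw [ee_inv, inv_inv, mul_one]
  have i1 : Integrable (fun x => ee μ H x * Z x) μ := integrable_of_cont ((ee_cont hH).mul hZ)
  have i2 : Integrable (fun x => oh μ H x * Z x) μ := integrable_of_cont ((oh_cont hH).mul hZ)
  rw [h1, ← integral_const_mul, ← integral_add (i1.const_mul _) i2]
  refine integral_congr_ae (Eventually.of_forall fun x => ?_)
  beta_reduce
  unfold oh
  ring

lemma int_oh_le {Z : G → ℝ} (hZ : Continuous Z) (h0 : ∀ x, 0 < Z x) {t : ℝ} (ht0 : 0 ≤ t)
    (ht : OffA μ H t Z) : ∫ x, oh μ H x * Z x ∂μ ≤ t * Av μ H Z 1 := by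
  have hA := Av_pos (μ := μ) hH hZ h0 1
  have h1 : ∀ x, oh μ H x * Z x ≤ t * Av μ H Z 1 := by
    intro x
    by_cases hx : x ∈ H
    · rw [oh_mem hH hx, zero_mul]
      exact mul_nonneg ht0 hA.le
    · rw [oh_not hx, one_mul]
      exact ht x hx
  have h2 := integral_mono (μ := μ) (f := fun x => oh μ H x * Z x)
    (g := fun _ => t * Av μ H Z 1) (integrable_of_cont ((oh_cont hH).mul hZ))
    (integrable_const _) h1
  simpa using h2

lemma int_le_Av {Z : G → ℝ} (hZ : Continuous Z) (h0 : ∀ x, 0 < Z x) {t : ℝ} (ht0 : 0 ≤ t)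
    (ht : OffA μ H t Z) : ∫ x, Z x ∂μ ≤ (μ.real (H : Set G) + t) * Av μ H Z 1 := by
  rw [int_eq_Av hH hZ, add_mul]
  exact add_le_add le_rfl (int_oh_le hH hZ h0 ht0 ht)

lemma Av_le_int {Z : G → ℝ} (hZ : Continuous Z) (h0 : ∀ x, 0 < Z x) :
    μ.real (H : Set G) * Av μ H Z 1 ≤ ∫ x, Z x ∂μ := by
  rw [int_eq_Av hH hZ]
  have : 0 ≤ ∫ x, oh μ H x * Z x ∂μ :=
    integral_nonneg fun x => mul_nonneg (oh_nonneg hH x) (h0 x).le
  linarith

/-- lower bound of the fourfold convolution on the subgroup -/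
lemma H4_lower {Z : G → ℝ} (h : Adm Z) {a : ℝ} (ha : a ≤ 1 / 2) (hs : SmH μ H a Z) {x : G}
    (hx : x ∈ H) : (μ.real (H : Set G)) ^ 3 * (Av μ H Z 1 / 2) ^ 4 ≤
      conv μ (conv μ Z Z) (conv μ Z Z) x := by
  have hp := p_pos (μ := μ) hH
  set p := μ.real (H : Set G) with hpd
  set A := Av μ H Z 1 with hA
  have hA0 : 0 < A := Av_pos hH h.cont h.pos 1
  set c := p * (A / 2) with hc
  have hc0 : 0 ≤ c := by positivity
  have ce := ee_cont (μ := μ) hH
  have cce : Continuous fun y => c * ee μ H y := continuous_const.mul ce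
  have h1 : ∀ y, c * ee μ H y ≤ Z y := by
    intro y
    by_cases hy : y ∈ H
    · rw [ee_mem hy]
      have h2 := (abs_le.1 (hs y)).1
      rw [Av_one hy, ← hA] at h2
      have h3 : a * A ≤ 1 / 2 * A := mul_le_mul_of_nonneg_right ha hA0.le
      have h4 : c * p⁻¹ = A / 2 := by
        rw [hc]; field_simp
      rw [h4]
      linarith
    · rw [ee_not hy, mul_zero]
      exact (h.pos y).le
  have hee : conv μ (ee μ H) (ee μ H) = ee μ H := by
    funext y
    exact Av_id (μ := μ) hH (F := ee μ H) fun z hz => ee_mul_left hz y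
  have h2 : ∀ y, c * (c * ee μ H y) ≤ conv μ Z Z y := by
    intro y
    have h3 := conv_mono (μ := μ) cce cce h.cont h.cont
      (fun z => mul_nonneg hc0 (ee_nonneg z)) (fun z => mul_nonneg hc0 (ee_nonneg z)) h1 h1 y
    rwa [conv_smul_l, conv_smul_r, hee] at h3
  have cce2 : Continuous fun y => c * (c * ee μ H y) := continuous_const.mul cce
  have h3 := conv_mono (μ := μ) cce2 cce2 h.conv.cont h.conv.cont
    (fun z => mul_nonneg hc0 (mul_nonneg hc0 (ee_nonneg z)))
    (fun z => mul_nonneg hc0 (mul_nonneg hc0 (ee_nonneg z))) h2 h2 x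
  rw [conv_smul_l, conv_smul_l, conv_smul_r, conv_smul_r, hee, ee_mem hx] at h3
  refine (le_of_eq ?_).trans h3
  rw [hc, ← hpd]
  field_simp

/-- upper bound of the fourfold convolution with an insertion off the subgroup -/
lemma ins_upper {Z : G → ℝ} (h : Adm Z) {t : ℝ} (ht0 : 0 ≤ t) (ht : OffA μ H t Z) (x : G) :
    conv μ (conv μ (fun y => oh μ H y * Z y) Z) (conv μ Z Z) x ≤
      t * Av μ H Z 1 * (∫ x, Z x ∂μ) ^ 3 := by
  set A := Av μ H Z 1 with hA
  have hA0 : 0 < A := Av_pos hH h.cont h.pos 1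
  have htA : 0 ≤ t * A := mul_nonneg ht0 hA0.le
  have cB : Continuous fun y => oh μ H y * Z y := (oh_cont hH).mul h.cont
  have hB0 : ∀ y, 0 ≤ oh μ H y * Z y := fun y => mul_nonneg (oh_nonneg hH y) (h.pos y).le
  have hB : ∀ y, oh μ H y * Z y ≤ t * A := by
    intro y
    by_cases hy : y ∈ H
    · rw [oh_mem hH hy, zero_mul]; exact htA
    · rw [oh_not hy, one_mul]; exact ht y hy
  have hcc : ∀ (c : ℝ) (g : G → ℝ) (y : G), conv μ (fun _ => c) g y = c * ∫ z, g z ∂μ := by
    intro c g y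
    unfold conv
    rw [integral_const_mul, integral_inv_eq_self (μ := μ) (fun z => g (z * y)),
      integral_mul_right_eq_self (μ := μ) g y]
  have h1 : ∀ y, conv μ (fun y => oh μ H y * Z y) Z y ≤ t * A * ∫ z, Z z ∂μ := by
    intro y
    rw [← hcc]
    exact conv_mono (μ := μ) cB h.cont continuous_const h.cont hB0 (fun z => (h.pos z).le) hB
      (fun z => le_rfl) y
  have h2 := conv_mono (μ := μ) (f := conv μ (fun y => oh μ H y * Z y) Z) (g := conv μ Z Z)
    (F := fun _ => t * A * ∫ z, Z z ∂μ) (K := conv μ Z Z) (cont_conv cB h.cont) h.conv.cont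
    continuous_const h.conv.cont
    (fun y => integral_nonneg fun z => mul_nonneg (hB0 z) (h.pos _).le)
    (fun y => (h.conv.pos y).le) h1 (fun y => le_rfl) x
  rw [hcc, int_conv h.cont h.cont] at h2
  refine h2.trans (le_of_eq ?_)
  ring

/-- an insertion off the subgroup is not seen from the subgroup -/
lemma ins_small {Z : G → ℝ} (h : Adm Z) {a : ℝ} (ha : a ≤ 1 / 2) (hs : SmH μ H a Z) {t : ℝ}
    (ht0 : 0 ≤ t) (htp : t ≤ μ.real (H : Set G)) (ht : OffA μ H t Z) (x : G) :
    conv μ (conv μ (fun y => oh μ H y * Z y) Z) (conv μ Z Z) x ≤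
      (oh μ H x + 128 * t) * conv μ (conv μ Z Z) (conv μ Z Z) x := by
  have hp := p_pos (μ := μ) hH
  have hQ := (H4_adm (μ := μ) h).pos x
  have cB : Continuous fun y => oh μ H y * Z y := (oh_cont hH).mul h.cont
  have hB0 : ∀ y, 0 ≤ oh μ H y * Z y := fun y => mul_nonneg (oh_nonneg hH y) (h.pos y).le
  by_cases hx : x ∈ H
  · rw [oh_mem hH hx, zero_add]
    have h1 := ins_upper hH h ht0 ht x
    have h2 := H4_lower hH h ha hs hx
    have h3 := int_le_Av hH h.cont h.pos ht0 ht
    set p := μ.real (H : Set G) with hpd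
    set A := Av μ H Z 1 with hA
    have hA0 : 0 < A := Av_pos hH h.cont h.pos 1
    have hI0 : 0 < ∫ x, Z x ∂μ := h.ipos
    have h4 : ∫ x, Z x ∂μ ≤ 2 * p * A := by
      refine h3.trans (mul_le_mul_of_nonneg_right (by linarith) hA0.le)
    have h5 : (∫ x, Z x ∂μ) ^ 3 ≤ (2 * p * A) ^ 3 := pow_le_pow_left₀ hI0.le h4 3
    have h6 := mul_le_mul_of_nonneg_left h5 (mul_nonneg ht0 hA0.le)
    have h7 := mul_le_mul_of_nonneg_left h2 (mul_nonneg (by norm_num : (0 : ℝ) ≤ 128) ht0)
    have e1 : t * A * (2 * p * A) ^ 3 = 128 * t * (p ^ 3 * (A / 2) ^ 4) := by ring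
    rw [e1] at h6
    exact h1.trans (h6.trans h7)
  · rw [oh_not hx]
    have h1 := conv_mono (μ := μ) (f := conv μ (fun y => oh μ H y * Z y) Z) (g := conv μ Z Z)
      (F := conv μ Z Z) (K := conv μ Z Z) (cont_conv cB h.cont) h.conv.cont h.conv.cont
      h.conv.cont (fun y => integral_nonneg fun z => mul_nonneg (hB0 z) (h.pos _).le)
      (fun y => (h.conv.pos y).le)
      (conv_mono (μ := μ) cB h.cont h.cont h.cont hB0 (fun y => (h.pos y).le)
        (fun y => by
          have := mul_le_mul_of_nonneg_right (oh_le (μ := μ) hH y) (h.pos y).le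
          rwa [one_mul] at this) (fun y => le_rfl)) (fun y => le_rfl) x
    nlinarith [mul_nonneg ht0 hQ.le]

/-- the insertion of a function which is constant on the subgroup -/
theorem dcf_point (hw : Adm w) (k : ℕ) {τ : ℝ} (hτ0 : 0 ≤ τ) (hτp : τ ≤ μ.real (H : Set G))
    (hs : ∀ i, SmH μ H (1 / 2) (Zr μ w (k + i)))
    (ht : ∀ i, OffA μ H (τ / 2 ^ i) (Zr μ w (k + i))) {O : G → ℝ} (hO : Continuous O)
    {d R : ℝ} (hR : 0 ≤ R) (hd : ∀ x, |O x - d| ≤ R * oh μ H x) (j : ℕ) : ∀ x,
    |ZO μ w k O j x - d * Zr μ w (k + j) x| ≤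
      R * (256 * τ * (1 - 1 / 2 ^ j) + oh μ H x) * Zr μ w (k + j) x := by
  induction j with
  | zero =>
    intro x
    have hz := Zr_adm (μ := μ) hw k
    have e : ZO μ w k O 0 x - d * Zr μ w (k + 0) x = (O x - d) * Zr μ w k x := by
      change O x * Zr μ w k x - d * Zr μ w k x = _
      ring
    rw [e, abs_mul, abs_of_pos (hz.pos x)]
    have := mul_le_mul_of_nonneg_right (hd x) (hz.pos x).le
    simpa using this
  | succ j ih =>
    intro x
    set Z := Zr μ w (k + j) with hZ
    have hz : Adm Z := Zr_adm hw (k + j)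
    have cB := ZO_cont (μ := μ) hw.cont k hO j
    set B := ZO μ w k O j with hB
    set c := R * (256 * τ * (1 - 1 / 2 ^ j)) with hc
    have hj : (0 : ℝ) ≤ 1 - 1 / 2 ^ j := by
      have : (1 : ℝ) / 2 ^ j ≤ 1 := by
        rw [div_le_one (by positivity)]
        exact one_le_pow₀ (by norm_num)
      linarith
    have hc0 : 0 ≤ c := by positivity
    have coZ : Continuous fun y => oh μ H y * Z y := (oh_cont hH).mul hz.cont
    have cdZ : Continuous fun y => d * Z y := continuous_const.mul hz.cont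
    have cD : Continuous fun y => B y - d * Z y := cB.sub cdZ
    have cF : Continuous fun y => c * Z y - -(R) * (oh μ H y * Z y) :=
      (continuous_const.mul hz.cont).sub (continuous_const.mul coZ)
    have h1 : ∀ y, |B y - d * Z y| ≤ c * Z y - -(R) * (oh μ H y * Z y) := by
      intro y
      refine (ih y).trans (le_of_eq ?_)
      rw [hc]; ring
    have h2 := conv_abs_le (μ := μ) (cont_conv cD hz.cont) hz.conv.cont
      (F := conv μ (fun y => c * Z y - -(R) * (oh μ H y * Z y)) Z) (K := conv μ Z Z)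
      (cont_conv cF hz.cont) hz.conv.cont
      (conv_abs_le cD hz.cont cF hz.cont h1 (fun y => (abs_of_pos (hz.pos y)).le))
      (fun y => (abs_of_pos (hz.conv.pos y)).le) x
    have cBZ := cont_conv (μ := μ) cB hz.cont
    have coZZ := cont_conv (μ := μ) coZ hz.cont
    have cZZ := cont_conv (μ := μ) hz.cont hz.cont
    have e1 : conv μ (fun y => B y - d * Z y) Z = fun y => conv μ B Z y - d * conv μ Z Z y := by
      funext y
      rw [conv_sub_l cB cdZ hz.cont, conv_smul_l]
    have e2 : conv μ (fun y => c * Z y - -(R) * (oh μ H y * Z y)) Z =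
        fun y => c * conv μ Z Z y - -(R) * conv μ (fun y => oh μ H y * Z y) Z y := by
      funext y
      rw [conv_sub_l (f := fun y => c * Z y) (f' := fun y => -(R) * (oh μ H y * Z y))
        (continuous_const.mul hz.cont) (continuous_const.mul coZ) hz.cont, conv_smul_l,
        conv_smul_l]
    rw [e1, e2, conv_sub_l (f := conv μ B Z) (f' := fun y => d * conv μ Z Z y) cBZ
      (continuous_const.mul cZZ) cZZ, conv_smul_l,
      conv_sub_l (f := fun y => c * conv μ Z Z y)
      (f' := fun y => -(R) * conv μ (fun y => oh μ H y * Z y) Z y) (continuous_const.mul cZZ)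
      (continuous_const.mul coZZ) cZZ, conv_smul_l, conv_smul_l] at h2
    have h3 := ins_small hH hz (le_refl (1 / 2)) (hs j) (t := τ / 2 ^ j) (by positivity)
      ((div_le_self hτ0 (one_le_pow₀ (by norm_num))).trans hτp) (ht j) x
    set Q := conv μ (conv μ Z Z) (conv μ Z Z) x with hQ
    have hQ0 : 0 < Q := (H4_adm (μ := μ) hz).pos x
    have e3 : ZO μ w k O (j + 1) x = conv μ (conv μ B Z) (conv μ Z Z) x * Q ^ 3 := rfl
    have e4 : Zr μ w (k + (j + 1)) x = Q ^ 4 := rfl
    rw [e3, e4]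
    have e5 : conv μ (conv μ B Z) (conv μ Z Z) x * Q ^ 3 - d * Q ^ 4 =
        (conv μ (conv μ B Z) (conv μ Z Z) x - d * Q) * Q ^ 3 := by ring
    rw [e5, abs_mul, abs_of_pos (pow_pos hQ0 3)]
    have h4 : |conv μ (conv μ B Z) (conv μ Z Z) x - d * Q| ≤
        R * (256 * τ * (1 - 1 / 2 ^ (j + 1)) + oh μ H x) * Q := by
      refine h2.trans ?_
      have h5 := mul_le_mul_of_nonneg_left h3 hR
      have e6 : R * (256 * τ * (1 - 1 / 2 ^ (j + 1)) + oh μ H x) * Q =
          c * Q + R * ((oh μ H x + 128 * (τ / 2 ^ j)) * Q) := by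
        rw [hc, pow_succ]
        field_simp
        ring
      rw [e6]
      linarith
    calc _ ≤ R * (256 * τ * (1 - 1 / 2 ^ (j + 1)) + oh μ H x) * Q * Q ^ 3 :=
          mul_le_mul_of_nonneg_right h4 (pow_pos hQ0 3).le
      _ = _ := by ring

theorem dcf_bound (hw : Adm w) (k : ℕ) {τ : ℝ} (hτ0 : 0 ≤ τ) (hτp : τ ≤ μ.real (H : Set G))
    (hs : ∀ i, SmH μ H (1 / 2) (Zr μ w (k + i)))
    (ht : ∀ i, OffA μ H (τ / 2 ^ i) (Zr μ w (k + i))) {O : G → ℝ} (hO : Continuous O)
    {d R : ℝ} (hR : 0 ≤ R) (hd : ∀ x, |O x - d| ≤ R * oh μ H x) (j : ℕ) :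
    |∫ x, ZO μ w k O j x ∂μ - d * ∫ x, Zr μ w (k + j) x ∂μ| ≤
      R * (256 * τ + τ / μ.real (H : Set G)) * ∫ x, Zr μ w (k + j) x ∂μ := by
  have hp := p_pos (μ := μ) hH
  have hz := Zr_adm (μ := μ) hw (k + j)
  have cO := ZO_cont (μ := μ) hw.cont k hO j
  have key := dcf_point hH hw k hτ0 hτp hs ht hO hR hd j
  set Z := Zr μ w (k + j) with hZ
  have coZ : Continuous fun y => oh μ H y * Z y := (oh_cont hH).mul hz.cont
  have cdZ : Continuous fun y => d * Z y := continuous_const.mul hz.cont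
  have i1 : Integrable (fun x => ZO μ w k O j x) μ := integrable_of_cont cO
  have i2 : Integrable (fun x => d * Z x) μ := integrable_of_cont cdZ
  rw [← integral_const_mul, ← integral_sub i1 i2]
  refine (abs_integral_le_integral_abs).trans ?_
  have h1 : ∀ x, |ZO μ w k O j x - d * Z x| ≤
      R * (256 * τ) * Z x + R * (oh μ H x * Z x) := by
    intro x
    refine (key x).trans ?_
    have h2 : R * (256 * τ * (1 - 1 / 2 ^ j)) ≤ R * (256 * τ) := by
      refine mul_le_mul_of_nonneg_left ?_ hR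
      have h3 : (0 : ℝ) ≤ 1 / 2 ^ j := by positivity
      nlinarith
    have h3 := mul_le_mul_of_nonneg_right h2 (hz.pos x).le
    nlinarith
  have h2 := integral_mono (μ := μ) (f := fun x => |ZO μ w k O j x - d * Z x|)
    (g := fun x => R * (256 * τ) * Z x + R * (oh μ H x * Z x))
    (integrable_of_cont (cO.sub cdZ).abs) (integrable_of_cont
      ((continuous_const.mul hz.cont).add (continuous_const.mul coZ))) h1
  have i3 : Integrable (fun x => R * (256 * τ) * Z x) μ :=
    integrable_of_cont (continuous_const.mul hz.cont)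
  have i4 : Integrable (fun x => R * (oh μ H x * Z x)) μ :=
    integrable_of_cont (continuous_const.mul coZ)
  rw [integral_add i3 i4, integral_const_mul, integral_const_mul] at h2
  refine h2.trans ?_
  have h3 := int_oh_le (μ := μ) hH hz.cont hz.pos (by positivity) (ht j)
  have h4 := Av_le_int (μ := μ) hH hz.cont hz.pos
  set p := μ.real (H : Set G) with hpd
  have hA0 : 0 < Av μ H Z 1 := Av_pos hH hz.cont hz.pos 1
  have h5 : τ / 2 ^ j * Av μ H Z 1 ≤ τ / p * ∫ x, Z x ∂μ := by
    have h6 : τ / 2 ^ j ≤ τ := div_le_self hτ0 (one_le_pow₀ (by norm_num))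
    calc τ / 2 ^ j * Av μ H Z 1 ≤ τ * Av μ H Z 1 := mul_le_mul_of_nonneg_right h6 hA0.le
      _ = τ / p * (p * Av μ H Z 1) := by field_simp
      _ ≤ τ / p * ∫ x, Z x ∂μ := mul_le_mul_of_nonneg_left h4 (by positivity)
  have h7 := mul_le_mul_of_nonneg_left (h3.trans h5) hR
  have e : R * (256 * τ + τ / p) * ∫ x, Z x ∂μ = R * (256 * τ) * (∫ x, Z x ∂μ) +
      R * (τ / p * ∫ x, Z x ∂μ) := by ring
  rw [e]
  linarith

end

end

end Pool.Agent.N541.HC
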