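import Mathlib
import Pool.Agent.N541.HC.Dcf
import Pool.Agent.N541.HC.Area
import Pool.Agent.N319.HC.C

/-!
# The deconfined phase
-/

open MeasureTheory Matrix Pool.Agent.N991.MK Filter
open Pool.Agent.N989.MK
open scoped Topology

namespace Pool.Agent.N541.HC

set_option linter.unusedSectionVars false

noncomputable section

section

variable {G : Type*} [Group G] [TopologicalSpace G] [IsTopologicalGroup G] [CompactSpace G]
  [MeasurableSpace G] [BorelSpace G] [SecondCountableTopology G]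
  {μ : Measure G} [IsProbabilityMeasure μ] [μ.IsHaarMeasure] [μ.IsMulRightInvariant]
  [μ.IsInvInvariant] {H : Subgroup G} (hH : IsOpen (H : Set G)) {w : G → ℝ}

include hH

lemma av_eq (f : G → ℝ) : Pool.Agent.N319.HC.av μ H f = Av μ H f 1 := by
  have h1 : Av μ H f 1 = ∫ x, ee μ H x * f x ∂μ := by
    rw [Av_def, ← integral_inv_eq_self (μ := μ)]
    refine integral_congr_ae (Eventually.of_forall fun x => ?_)
    beta_reduce
    rw [ee_inv, inv_inv, mul_one]
  have h2 : ∀ x, ee μ H x * f x = Set.indicator (H : Set G)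
      (fun x => (μ.real (H : Set G))⁻¹ * f x) x := by
    intro x
    by_cases hx : x ∈ H
    · rw [ee_mem hx, Set.indicator_of_mem (s := (H : Set G)) hx]
    · rw [ee_not hx, Set.indicator_of_notMem (s := (H : Set G)) hx, zero_mul]
  rw [h1]
  simp only [h2]
  rw [integral_indicator hH.measurableSet, integral_const_mul]
  unfold Pool.Agent.N319.HC.av
  rw [div_eq_inv_mul]

lemma off_iff {t : ℝ} {f : G → ℝ} : Pool.Agent.N319.HC.Off μ H t f ↔ OffA μ H t f := by
  unfold Pool.Agent.N319.HC.Off OffA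
  rw [av_eq hH]

variable [H.Normal] {n : ℕ} {D : ED G n}

/-- the expectations of class functions of the loops in the deconfined phase -/
theorem dcf_loop (hE : ∀ X, D.E X ∈ H) {m : ℕ} (hg : GenH D H m) {K : ℝ} (hK : 0 ≤ K)
    (hw : Adm w) (hs : SC D K w) {t : ℝ} (ht0 : 0 ≤ t)
    (ht : ∀ k, OffA μ H (t / 2 ^ k) (TTn μ w k)) {O : G → ℝ} (hO : Continuous O) (hOc : Cls O)
    {ε : ℝ} (hε : 0 < ε) : ∃ k0 : ℕ, ∀ k, k0 ≤ k → ∀ (j : ℕ) (P : Pq j),
      |∫ U : Ed (k + j) → G, O (loop k j P U) * wt w U ∂(Measure.pi fun _ => μ) -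
        Av μ H O 1 * ∫ U : Ed (k + j) → G, wt w U ∂(Measure.pi fun _ => μ)| ≤
        ε * ∫ U : Ed (k + j) → G, wt w U ∂(Measure.pi fun _ => μ) := by
  have hp := p_pos (μ := μ) hH
  set p := μ.real (H : Set G) with hpd
  -- the bound of O
  obtain ⟨M0, hM0⟩ : ∃ M0 : ℝ, ∀ x, |O x| ≤ M0 := by
    obtain ⟨z, -, hz⟩ := isCompact_univ.exists_isMaxOn (Set.univ_nonempty (α := G))
      hO.abs.continuousOn
    exact ⟨|O z|, fun x => hz (Set.mem_univ x)⟩
  have hM00 : 0 ≤ M0 := (abs_nonneg _).trans (hM0 1)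
  set O1 : G → ℝ := Av μ H O with hO1
  have cO1 : Continuous O1 := Av_cont hH hO
  have lO1 : Cls O1 := Av_cls hOc
  have hO1b : ∀ x, |O1 x| ≤ M0 := by
    intro x
    rw [abs_le]
    have h1 := Av_mono (μ := μ) hH (F := fun _ => -M0) (F' := O) continuous_const hO (x := x)
      (fun y _ => (abs_le.1 (hM0 _)).1)
    have h2 := Av_mono (μ := μ) hH (F := O) (F' := fun _ => M0) hO continuous_const (x := x)
      (fun y _ => (abs_le.1 (hM0 _)).2)
    rw [Av_const hH] at h1 h2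
    exact ⟨h1, h2⟩
  set O2 : G → ℝ := fun x => O x - O1 x with hO2
  have cO2 : Continuous O2 := hO.sub cO1
  have lO2 : Cls O2 := fun g x => by
    show O _ - O1 _ = O x - O1 x
    rw [hOc, lO1]
  have hO2b : ∀ x, |O2 x| ≤ 2 * M0 := fun x => by
    refine (abs_sub _ _).trans ?_
    linarith [hM0 x, hO1b x]
  have hO2A : ∀ x, Av μ H O2 x = 0 := fun x => by
    rw [hO2, Av_sub hH hO cO1, hO1, Av_Av hH, sub_self]
  have hd : ∀ x, |O1 x - O1 1| ≤ 2 * M0 * oh μ H x := by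
    intro x
    by_cases hx : x ∈ H
    · rw [oh_mem hH hx, hO1, Av_one hx, sub_self, abs_zero, mul_zero]
    · rw [oh_not hx, mul_one]
      refine (abs_sub _ _).trans ?_
      linarith [hO1b x, hO1b 1]
  -- the deviations
  obtain ⟨k1, hk1⟩ := exists_smallH (μ := μ) hH hE hg hK
  have h2 := SmH.TTn (μ := μ) hH (hw.TTn (μ := μ) k1) (hk1 w hw hs)
  have h3 : ∀ i, SmH μ H (10 / 21 * (21 / 100) ^ 4 ^ i) (Zr μ w (k1 + i)) := by
    intro i
    rw [Zr_eq, TTn_add]
    exact h2 i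
  have ha1 : ∀ i : ℕ, (10 / 21 * (21 / 100) ^ 4 ^ i : ℝ) ≤ 1 / 10 := by
    intro i
    have : ((21 / 100 : ℝ)) ^ 4 ^ i ≤ (21 / 100) ^ 1 :=
      pow_le_pow_of_le_one (by norm_num) (by norm_num) (Nat.one_le_pow _ _ (by norm_num))
    linarith
  have hA0 : ∀ i : ℕ, Av μ H (Zr μ w i) 1 > 0 := fun i =>
    Av_pos hH (Zr_adm' (μ := μ) hw i).cont (Zr_adm' (μ := μ) hw i).pos 1
  -- the limits
  have lim1 : Tendsto (fun i : ℕ => 3 * (2 * M0) * (10 / 21 * (21 / 100 : ℝ) ^ i)) atTop (𝓝 0) := by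
    have h4 := (tendsto_pow_atTop_nhds_zero_of_lt_one (r := (21 / 100 : ℝ)) (by norm_num)
      (by norm_num)).const_mul (10 / 21 : ℝ)
    have h5 := h4.const_mul (3 * (2 * M0))
    simpa using h5
  have lim2 : Tendsto (fun k : ℕ => 2 * M0 * (256 * (t * (1 / 2) ^ k) +
      (t * (1 / 2) ^ k) / p)) atTop (𝓝 0) := by
    have h4 := (tendsto_pow_atTop_nhds_zero_of_lt_one (r := (1 / 2 : ℝ)) (by norm_num)
      (by norm_num)).const_mul t
    rw [mul_zero] at h4
    have h5 := ((h4.const_mul 256).add (h4.div_const p)).const_mul (2 * M0)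
    simpa using h5
  have lim3 : Tendsto (fun k : ℕ => t * (1 / 2 : ℝ) ^ k) atTop (𝓝 0) := by
    have h4 := (tendsto_pow_atTop_nhds_zero_of_lt_one (r := (1 / 2 : ℝ)) (by norm_num)
      (by norm_num)).const_mul t
    rwa [mul_zero] at h4
  obtain ⟨i1, hi1⟩ := eventually_atTop.1 (lim1.eventually (gt_mem_nhds (half_pos hε)))
  obtain ⟨k2, hk2⟩ := eventually_atTop.1 (lim2.eventually (gt_mem_nhds (half_pos hε)))
  obtain ⟨k3, hk3⟩ := eventually_atTop.1 (lim3.eventually (gt_mem_nhds hp))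
  refine ⟨max (k1 + i1) (max k2 k3), fun k hk j P => ?_⟩
  have hkk1 : k1 + i1 ≤ k := (le_max_left _ _).trans hk
  have hkk2 : k2 ≤ k := ((le_max_left _ _).trans (le_max_right _ _)).trans hk
  have hkk3 : k3 ≤ k := ((le_max_right _ _).trans (le_max_right _ _)).trans hk
  obtain ⟨i, rfl⟩ : ∃ i, k = k1 + i := ⟨k - k1, by omega⟩
  have hi : i1 ≤ i := by omega
  set a : ℝ := 10 / 21 * (21 / 100) ^ 4 ^ i with ha
  have ha0 : 0 ≤ a := by positivity
  have haε : 3 * (2 * M0) * a ≤ ε / 2 := by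
    refine le_trans ?_ (hi1 i hi).le
    refine mul_le_mul_of_nonneg_left ?_ (by positivity)
    refine mul_le_mul_of_nonneg_left ?_ (by norm_num)
    exact pow_le_pow_of_le_one (by norm_num) (by norm_num) (Nat.lt_pow_self (by norm_num)).le
  have b1 := conf_bound (μ := μ) hH hw (k1 + i) ha0 (ha1 i) (h3 i) cO2 lO2 hO2b hO2A j
  have hmono : ∀ {a b : ℝ} {i : ℕ}, SmH μ H a (Zr μ w i) → a ≤ b → SmH μ H b (Zr μ w i) := by
    intro a b i h hab x
    exact (h x).trans (mul_le_mul_of_nonneg_right hab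
      (Av_pos hH (Zr_adm' (μ := μ) hw i).cont (Zr_adm' (μ := μ) hw i).pos x).le)
  have b2 := dcf_bound (μ := μ) hH hw (k1 + i) (τ := t / 2 ^ (k1 + i)) (by positivity)
    (by
      have := (hk3 (k1 + i) hkk3).le
      rwa [one_div, inv_pow, ← div_eq_mul_inv] at this)
    (fun l => by
      rw [add_assoc]
      exact hmono (h3 (i + l)) ((ha1 _).trans (by norm_num)))
    (fun l => by
      rw [Zr_eq]
      have := ht (k1 + i + l)
      rwa [pow_add 2 (k1 + i) l, ← div_div] at this)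
    cO1 (d := O1 1) (R := 2 * M0) (by positivity) hd j
  have b3 := hk2 (k1 + i) hkk2
  have e3 : t * (1 / 2 : ℝ) ^ (k1 + i) = t / 2 ^ (k1 + i) := by
    rw [one_div, inv_pow, ← div_eq_mul_inv]
  rw [e3] at b3
  have c1 := int_loop (μ := μ) hw.cont hw.cls (k1 + i) j P cO2 lO2
  have c2 := int_loop (μ := μ) hw.cont hw.cls (k1 + i) j P cO1 lO1
  have hlc : Continuous fun U : Ed (k1 + i + j) → G => loop (k1 + i) j P U :=
    lp_cont.comp (continuous_pi fun e => continuous_apply _)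
  have c3 : ∫ U : Ed (k1 + i + j) → G, O (loop (k1 + i) j P U) * wt w U
      ∂(Measure.pi fun _ => μ) = (∫ x, ZO μ w (k1 + i) O2 j x ∂μ) +
        ∫ x, ZO μ w (k1 + i) O1 j x ∂μ := by
    rw [← c1, ← c2, ← integral_add]
    · refine integral_congr_ae (Eventually.of_forall fun U => ?_)
      simp only [hO2]
      ring
    · exact ((cO2.comp hlc).mul (wt_cont hw.cont)).integrable_of_hasCompactSupport
        (HasCompactSupport.of_compactSpace _)
    · exact ((cO1.comp hlc).mul (wt_cont hw.cont)).integrable_of_hasCompactSupport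
        (HasCompactSupport.of_compactSpace _)
  rw [c3, int_wt hw.cont hw.cls]
  set Z := ∫ x, Zr μ w (k1 + i + j) x ∂μ with hZ
  have hZ0 : 0 < Z := (Zr_adm' hw _).ipos
  have e4 : (∫ x, ZO μ w (k1 + i) O2 j x ∂μ) + (∫ x, ZO μ w (k1 + i) O1 j x ∂μ) - O1 1 * Z =
      (∫ x, ZO μ w (k1 + i) O2 j x ∂μ) + ((∫ x, ZO μ w (k1 + i) O1 j x ∂μ) - O1 1 * Z) := by
    ring
  rw [e4]
  refine (abs_add_le _ _).trans ?_
  have g1 := mul_le_mul_of_nonneg_right haε hZ0.le
  have g2 := mul_le_mul_of_nonneg_right b3.le hZ0.le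
  calc _ ≤ 3 * (2 * M0) * a * Z + 2 * M0 * (256 * (t / 2 ^ (k1 + i)) +
        t / 2 ^ (k1 + i) / p) * Z := add_le_add b1 b2
    _ ≤ ε / 2 * Z + ε / 2 * Z := add_le_add g1 g2
    _ = ε * Z := by ring

/-- **The deconfined phase.** -/
theorem deconf (hE : ∀ X, D.E X ∈ H) {m : ℕ} (hg : GenH D H m) {K : ℝ} (hK : 0 ≤ K)
    (hw : Adm w) (hs : SC D K w) {t : ℝ} (ht0 : 0 ≤ t)
    (ht : ∀ k, OffA μ H (t / 2 ^ k) (TTn μ w k)) (hR : RectFull G) {M : ℕ}
    (ρ : G →* Matrix (Fin M) (Fin M) ℂ) (hρ : Continuous ρ) {ε : ℝ} (hε : 0 < ε) :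
    ∃ k0 : ℕ, ∀ k, k0 ≤ k → ∀ (j : ℕ) (P : Pq j) (σ : Sec k),
      ‖wil μ w ρ k j P σ (2 ^ k) (2 ^ k) - (Module.finrank ℂ (fixH H ρ) : ℝ)‖ ≤ ε := by
  have cls : ∀ L : ℂ →L[ℝ] ℝ, Cls fun x => L (trace (ρ x)) := by
    intro L g x
    show L (trace (ρ _)) = L (trace (ρ x))
    rw [map_mul, trace_mul_comm, ← map_mul]
    congr 3
    group
  have cont : ∀ L : ℂ →L[ℝ] ℝ, Continuous fun x => L (trace (ρ x)) := fun L =>
    L.continuous.comp hρ.matrix_trace
  have hε2 : 0 < ε / 2 := by positivity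
  obtain ⟨k1, hk1⟩ := dcf_loop (μ := μ) hH hE hg hK hw hs ht0 ht (cont Complex.reCLM)
    (cls Complex.reCLM) hε2
  obtain ⟨k2, hk2⟩ := dcf_loop (μ := μ) hH hE hg hK hw hs ht0 ht (cont Complex.imCLM)
    (cls Complex.imCLM) hε2
  have hρU : ∀ h ∈ H, ∀ x, (ρ : G → Matrix (Fin M) (Fin M) ℂ) (h * x) = ρ h * ρ x :=
    fun h _ x => map_mul ρ h x
  have e1 : Av μ H (fun x => (trace (ρ x)).re) 1 = (Module.finrank ℂ (fixH H ρ) : ℝ) := by
    rw [Av_re (U := fun x => ρ x) hH hρ hρ hρU, map_one, mul_one, trace_Pm hH hρ]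
    simp
  have e2 : Av μ H (fun x => (trace (ρ x)).im) 1 = 0 := by
    rw [Av_im (U := fun x => ρ x) hH hρ hρ hρU, map_one, mul_one, trace_Pm hH hρ]
    simp
  refine ⟨max k1 k2, fun k hk j P σ => ?_⟩
  have h1 := hk1 k ((le_max_left _ _).trans hk) j P
  have h2 := hk2 k ((le_max_right _ _).trans hk) j P
  have e3 : ∀ U : Ed (k + j) → G, rect k σ (fun e => U (emk k j P e)) (2 ^ k) (2 ^ k) =
      loop k j P U := fun U => hR k σ (fun e => U (emk k j P e))
  have hlc : Continuous fun U : Ed (k + j) → G => loop k j P U :=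
    lp_cont.comp (continuous_pi fun e => continuous_apply _)
  have hO : Continuous fun U : Ed (k + j) → G => trace (ρ (loop k j P U)) :=
    (hρ.comp hlc).matrix_trace
  change |∫ U : Ed (k + j) → G, (trace (ρ (loop k j P U))).re * wt w U
    ∂(Measure.pi fun _ => μ) - Av μ H (fun x => (trace (ρ x)).re) 1 * _| ≤ _ at h1
  change |∫ U : Ed (k + j) → G, (trace (ρ (loop k j P U))).im * wt w U
    ∂(Measure.pi fun _ => μ) - Av μ H (fun x => (trace (ρ x)).im) 1 * _| ≤ _ at h2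
  rw [e1] at h1
  rw [e2, zero_mul, sub_zero] at h2
  have h3 := ExC_le (μ := μ) hw (k + j) hO _ h1 h2
  unfold wil
  simp only [e3]
  refine h3.trans (le_of_eq ?_)
  ring

end

end

end Pool.Agent.N541.HC
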