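import Mathlib
import Pool.Agent.N541.HC.Deconf
import Pool.Agent.N9.HCA
import Pool.Agent.N163.HC.Comp
import Pool.Agent.N541.HC.Area2

/-!
# The classification for closed subgroups of the unitary group
-/

open MeasureTheory MeasureTheory.Measure Matrix Pool.Agent.N991.MK Filter
open Pool.Agent.N989.MK
open Pool.Agent.H906R3.YM Pool.Agent.W793.YM Pool.Agent.TH618.YM Pool.Agent.N984.TW
open scoped Topology Matrix.Norms.Frobenius ComplexOrder

namespace Pool.Agent.N541.HC

set_option linter.unusedSectionVars false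

noncomputable section

section haar

variable {G : Type*} [Group G] [TopologicalSpace G] [IsTopologicalGroup G] [CompactSpace G]
  [MeasurableSpace G] [BorelSpace G] (μ : Measure G) [IsProbabilityMeasure μ] [μ.IsHaarMeasure]

/-- the normalised Haar measure of a compact group is right invariant -/
lemma haar_right' : μ.IsMulRightInvariant := by
  constructor
  intro g
  have h1 : IsHaarMeasure (μ.map (· * g)) := inferInstance
  have h2 : IsProbabilityMeasure (μ.map (· * g)) :=
    isProbabilityMeasure_map (measurable_mul_const g).aemeasurable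
  exact isHaarMeasure_eq_of_isProbabilityMeasure _ _

/-- the normalised Haar measure of a compact group is invariant under the inverse -/
lemma haar_inv' : μ.IsInvInvariant := by
  have := haar_right' μ
  constructor
  have h2 : IsProbabilityMeasure μ.inv := by
    unfold Measure.inv
    exact isProbabilityMeasure_map measurable_inv.aemeasurable
  have h3 : IsHaarMeasure μ.inv := { }
  exact isHaarMeasure_eq_of_isProbabilityMeasure _ _

end haar

/-- the identity component is normal -/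
lemma comp_normal (G : Type*) [Group G] [TopologicalSpace G] [IsTopologicalGroup G] :
    (Subgroup.connectedComponentOfOne G).Normal := by
  constructor
  intro x hx g
  have h1 : Continuous fun y : G => g * y * g⁻¹ := by fun_prop
  have h2 := h1.image_connectedComponent_subset 1
  have h3 : g * 1 * g⁻¹ = 1 := by simp
  rw [h3] at h2
  exact h2 ⟨x, hx, rfl⟩

variable {N n : ℕ} {G : Subgroup (UN N)}

instance sct : SecondCountableTopology G := by
  have h : SecondCountableTopology (UN N) :=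
    @TopologicalSpace.Subtype.secondCountableTopology (Mat N) _ _ _
  exact TopologicalSpace.Subtype.secondCountableTopology _

/-- the Wilson action is smooth -/
lemma wilson_smooth (β : ℝ) : ContDiff ℝ 2 (fun A : Matrix (Fin N) (Fin N) ℂ =>
    β * (trace A).re) := by
  let T : Matrix (Fin N) (Fin N) ℂ →L[ℝ] ℝ :=
    LinearMap.toContinuousLinearMap
      { toFun := fun A => (trace A).re
        map_add' := fun A B => by rw [trace_add, Complex.add_re]
        map_smul' := fun c A => by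
          rw [trace_smul, Complex.smul_re]
          rfl }
  have h : ContDiff ℝ 2 (fun A => β * T A) := contDiff_const.mul T.contDiff
  exact h

lemma trace_inv (x : G) : trace (mt x⁻¹) = star (trace (mt x)) := by
  have : mt x⁻¹ = (mt x)ᴴ := rfl
  rw [this, trace_conjTranspose]

lemma trace_conj (g x : G) : trace (mt (g * x * g⁻¹)) = trace (mt x) := by
  rw [mt_mul, mt_mul, trace_mul_comm, ← mul_assoc, ← mt_mul, inv_mul_cancel, mt_one, one_mul]

/-- weights given by actions are admissible -/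
lemma adm_of {S : Matrix (Fin N) (Fin N) ℂ → ℝ} (hS : Continuous S)
    (h1 : ∀ g x : G, S (mt (g * x * g⁻¹)) = S (mt x)) (h2 : ∀ x : G, S (mt x⁻¹) = S (mt x)) :
    Adm (fun x : G => Real.exp (S (mt x))) :=
  ⟨Real.continuous_exp.comp (hS.comp mt_cont), fun _ => Real.exp_pos _,
    fun g x => by rw [h1], fun x => by rw [h2]⟩

/-- the trace of a unitary matrix other than the identity -/
lemma trace_lt {x : G} (hx : x ≠ 1) : (trace (mt x)).re < N := by
  by_contra hcon
  push Not at hcon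
  set A : Matrix (Fin N) (Fin N) ℂ := mt x with hA
  have hu : Aᴴ * A = 1 := rhoG_unit' x
  have h1 : trace ((A - 1)ᴴ * (A - 1)) = 2 * (N : ℂ) - (trace A + star (trace A)) := by
    have e : (A - 1)ᴴ * (A - 1) = Aᴴ * A - Aᴴ - A + 1 := by
      rw [conjTranspose_sub, conjTranspose_one]
      noncomm_ring
    rw [e, hu, trace_add, trace_sub, trace_sub, trace_one, trace_conjTranspose]
    simp only [Fintype.card_fin]
    ring
  have h2 : (trace ((A - 1)ᴴ * (A - 1))).re = 2 * N - 2 * (trace A).re := by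
    rw [h1]
    simp only [Complex.sub_re, Complex.add_re, Complex.mul_re, Complex.star_def, Complex.conj_re,
      Complex.natCast_re, Complex.natCast_im, Complex.re_ofNat, Complex.im_ofNat]
    ring
  have h3 : 0 ≤ trace ((A - 1)ᴴ * (A - 1)) :=
    (posSemidef_conjTranspose_mul_self (A - 1)).trace_nonneg
  have h4 : trace ((A - 1)ᴴ * (A - 1)) = 0 := by
    have h5 := (Complex.le_def.1 h3).1
    have h6 := (Complex.le_def.1 h3).2
    refine Complex.ext ?_ h6.symm
    rw [h2] at h5 ⊢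
    simp only [Complex.zero_re] at h5 ⊢
    linarith
  rw [trace_conjTranspose_mul_self_eq_zero_iff, sub_eq_zero] at h4
  apply hx
  exact mt_inj (h4.trans mt_one.symm)

/-- a planar surface -/
def sec0 : ∀ n : ℕ, Sec n
  | 0 => ()
  | n + 1 => (0, fun _ => sec0 n)

section

variable [MeasurableSpace G] [BorelSpace G] (μ : Measure G) [IsProbabilityMeasure μ]
  [μ.IsHaarMeasure]

/-- the Wilson weight is small off an open subgroup, at weak coupling -/
lemma wilson_off (hG : IsClosed (G : Set (UN N))) {H : Subgroup G} (hH : IsOpen (H : Set G))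
    {t : ℝ} (ht : 0 < t) : ∃ β₀ : ℝ, 0 ≤ β₀ ∧ ∀ β, β₀ ≤ β →
      Pool.Agent.N319.HC.Off μ H t (fun x : G => Real.exp (β * (trace (mt x)).re)) := by
  have hcomp : CompactSpace G := isCompact_iff_compactSpace.1 hG.isCompact
  have hr := haar_right' μ
  have hi := haar_inv' μ
  have cF : Continuous fun x : G => (trace (mt x)).re :=
    Complex.continuous_re.comp mt_cont.matrix_trace
  have hcl : IsClosed ((H : Set G)ᶜ) := hH.isClosed_compl
  rcases Set.eq_empty_or_nonempty ((H : Set G)ᶜ) with hem | hne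
  · refine ⟨0, le_rfl, fun β _ x hx => ?_⟩
    have : x ∈ ((H : Set G)ᶜ) := hx
    rw [hem] at this
    exact absurd this (Set.notMem_empty x)
  · obtain ⟨z, hz, hmax⟩ := hcl.isCompact.exists_isMaxOn hne cF.continuousOn
    set m := (trace (mt z)).re with hm
    have hmN : m < N := trace_lt (by
      rintro rfl
      exact hz H.one_mem)
    set s := (N + m) / 2 with hs
    set W : Set G := (H : Set G) ∩ {x | s < (trace (mt x)).re} with hW
    have hWo : IsOpen W := hH.inter (isOpen_lt continuous_const cF)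
    have hW1 : (1 : G) ∈ W := by
      refine ⟨H.one_mem, ?_⟩
      show s < (trace (mt (1 : G))).re
      rw [mt_one, trace_one]
      simp only [Fintype.card_fin, Complex.natCast_re]
      rw [hs]; linarith
    have hWpos : 0 < μ.real W := by
      rw [measureReal_def]
      exact ENNReal.toReal_pos (hWo.measure_pos μ ⟨1, hW1⟩).ne' (measure_ne_top _ _)
    have hp := Pool.Agent.N319.HC.real_pos (μ := μ) hH
    set p := μ.real (H : Set G) with hpd
    have lim : Tendsto (fun β : ℝ => Real.exp (-((s - m) * β))) atTop (𝓝 0) := by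
      refine Real.tendsto_exp_neg_atTop_nhds_zero.comp ?_
      exact Tendsto.const_mul_atTop (by rw [hs]; linarith) tendsto_id
    have hc : 0 < t / p * μ.real W := by positivity
    obtain ⟨β₀, hβ₀⟩ := eventually_atTop.1 (lim.eventually (gt_mem_nhds hc))
    refine ⟨max β₀ 0, le_max_right _ _, fun β hβ x hx => ?_⟩
    have hβ0 : 0 ≤ β := (le_max_right _ _).trans hβ
    have h1 := hβ₀ β ((le_max_left _ _).trans hβ)
    have h2 : (trace (mt x)).re ≤ m := hmax (show x ∈ (H : Set G)ᶜ from hx)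
    have h3 : Real.exp (β * (trace (mt x)).re) ≤ Real.exp (β * m) :=
      Real.exp_le_exp.2 (mul_le_mul_of_nonneg_left h2 hβ0)
    have cE : Continuous fun x : G => Real.exp (β * (trace (mt x)).re) :=
      Real.continuous_exp.comp (continuous_const.mul cF)
    have hint : Integrable (fun x : G => Real.exp (β * (trace (mt x)).re)) μ :=
      cE.integrable_of_hasCompactSupport (HasCompactSupport.of_compactSpace _)
    have h4 : μ.real W * Real.exp (β * s) ≤
        ∫ x in (H : Set G), Real.exp (β * (trace (mt x)).re) ∂μ := by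
      have h5 : ∫ _ in W, Real.exp (β * s) ∂μ ≤
          ∫ x in W, Real.exp (β * (trace (mt x)).re) ∂μ := by
        refine setIntegral_mono_on (integrable_const _) hint.integrableOn hWo.measurableSet
          fun x hx => ?_
        exact Real.exp_le_exp.2 (mul_le_mul_of_nonneg_left hx.2.le hβ0)
      rw [setIntegral_const, smul_eq_mul] at h5
      refine h5.trans ?_
      exact setIntegral_mono_set hint.integrableOn
        (Eventually.of_forall fun x => (Real.exp_pos _).le)
        (LE.le.eventuallyLE Set.inter_subset_left)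
    unfold Pool.Agent.N319.HC.av
    refine h3.trans ?_
    rw [← hpd]
    have h6 : Real.exp (β * m) = Real.exp (-((s - m) * β)) * Real.exp (β * s) := by
      rw [← Real.exp_add]; congr 1; ring
    rw [h6]
    calc Real.exp (-((s - m) * β)) * Real.exp (β * s) ≤ t / p * μ.real W * Real.exp (β * s) :=
          mul_le_mul_of_nonneg_right h1.le (Real.exp_pos _).le
      _ = t / p * (μ.real W * Real.exp (β * s)) := by ring
      _ ≤ t / p * ∫ x in (H : Set G), Real.exp (β * (trace (mt x)).re) ∂μ :=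
          mul_le_mul_of_nonneg_left h4 (by positivity)
      _ = _ := by ring

/-- the area law is not satisfied if the Wilson loops of the squares do not tend to zero -/
lemma not_area {w : G → ℝ} {M : ℕ} {ρ : G →* Matrix (Fin M) (Fin M) ℂ}
    (h : ∀ ε : ℝ, 0 < ε → ∃ k0 : ℕ, ∀ k, k0 ≤ k → ∀ (j : ℕ) (P : Pq j) (σ : Sec k),
      ‖wil μ w ρ k j P σ (2 ^ k) (2 ^ k) - (Module.finrank ℂ (fixed ρ) : ℂ)‖ ≤ ε)
    (hA : AreaLaw μ w ρ) : fixed ρ = ⊥ := by
  obtain ⟨C, c, hc, hA⟩ := hA
  by_contra hne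
  have hpos : 0 < Module.finrank ℂ (fixed ρ) := by
    rw [Module.finrank_pos_iff]
    exact (Submodule.nontrivial_iff_ne_bot).2 hne
  have hge : (1 : ℝ) ≤ Module.finrank ℂ (fixed ρ) := by exact_mod_cast hpos
  obtain ⟨k0, hk0⟩ := h (1 / 2) (by norm_num)
  have lim : Tendsto (fun k : ℕ => C * Real.exp (-(c * ((2 : ℝ) ^ k * 2 ^ k)))) atTop (𝓝 0) := by
    have h1 : Tendsto (fun k : ℕ => c * ((2 : ℝ) ^ k * 2 ^ k)) atTop atTop := by
      refine Tendsto.const_mul_atTop hc ?_
      have h2 : Tendsto (fun k : ℕ => (2 : ℝ) ^ k) atTop atTop :=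
        tendsto_pow_atTop_atTop_of_one_lt (by norm_num)
      exact h2.atTop_mul_atTop₀ h2
    have h3 := (Real.tendsto_exp_neg_atTop_nhds_zero.comp h1).const_mul C
    simpa using h3
  obtain ⟨k1, hk1⟩ := eventually_atTop.1 (lim.eventually (gt_mem_nhds (by norm_num : (0 : ℝ) <
    1 / 4)))
  set k := max k0 k1 with hk
  obtain ⟨σ⟩ : Nonempty (Sec k) := ⟨sec0 k⟩
  have h4 := hk0 k (le_max_left _ _) 0 () σ
  have h5 := hA k 0 () σ (2 ^ k) (2 ^ k) le_rfl le_rfl
  have h6 := hk1 k (le_max_right _ _)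
  push_cast at h5
  have h7 : ‖(Module.finrank ℂ (fixed ρ) : ℂ)‖ = Module.finrank ℂ (fixed ρ) := by
    rw [Complex.norm_natCast]
  have h8 : ‖(Module.finrank ℂ (fixed ρ) : ℂ)‖ ≤
      ‖wil μ w ρ k 0 () σ (2 ^ k) (2 ^ k)‖ +
        ‖wil μ w ρ k 0 () σ (2 ^ k) (2 ^ k) - (Module.finrank ℂ (fixed ρ) : ℂ)‖ := by
    have h9 := norm_sub_norm_le (Module.finrank ℂ (fixed ρ) : ℂ)
      (wil μ w ρ k 0 () σ (2 ^ k) (2 ^ k))
    rw [norm_sub_rev] at h9
    linarith
  rw [h7] at h8
  linarith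

/-- the area law at strong coupling -/
lemma strong (hG : IsClosed (G : Set (UN N))) : ∃ β₁ : ℝ, 0 < β₁ ∧ ∀ β, |β| ≤ β₁ →
    ∀ (M : ℕ) (ρ : G →* Matrix (Fin M) (Fin M) ℂ), Continuous ρ →
      (∀ g, ρ g ∈ unitaryGroup (Fin M) ℂ) →
      (∀ v : Fin M → ℂ, (∀ g, ρ g *ᵥ v = v) → v = 0) → AreaLaw μ (act G β) ρ := by
  have hcomp : CompactSpace G := isCompact_iff_compactSpace.1 hG.isCompact
  have hr := haar_right' μ
  have hi := haar_inv' μ
  have cF : Continuous fun x : G => (trace (mt x)).re :=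
    Complex.continuous_re.comp mt_cont.matrix_trace
  obtain ⟨M0, hM0⟩ : ∃ M0 : ℝ, ∀ x : G, |(trace (mt x)).re| ≤ M0 := by
    obtain ⟨z, -, hz⟩ := isCompact_univ.exists_isMaxOn (Set.univ_nonempty (α := G))
      cF.abs.continuousOn
    exact ⟨_, fun x => hz (Set.mem_univ x)⟩
  have hM00 : 0 ≤ M0 := (abs_nonneg _).trans (hM0 1)
  refine ⟨1 / (40 * (M0 + 1)), by positivity, fun β hβ M ρ hρ hu hf => ?_⟩
  have hw : Adm (fun x : G => Real.exp (β * (trace (mt x)).re)) :=
    adm_of (wilson_smooth β).continuous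
      (fun g x => by
        have := trace_conj g x
        beta_reduce
        rw [this])
      (fun x => by
        have := trace_inv x
        beta_reduce
        rw [this]
        simp)
  have hH : IsOpen ((⊤ : Subgroup G) : Set G) := by
    rw [Subgroup.coe_top]
    exact isOpen_univ
  have hb : ∀ x : G, |β * (trace (mt x)).re| ≤ 1 / 40 := by
    intro x
    rw [abs_mul]
    calc |β| * |(trace (mt x)).re| ≤ 1 / (40 * (M0 + 1)) * (M0 + 1) :=
          mul_le_mul hβ ((hM0 x).trans (by linarith)) (abs_nonneg _) (by positivity)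
      _ = 1 / 40 := by
          have : M0 + 1 ≠ 0 := by positivity
          field_simp
  have h1 : SmH μ ⊤ (2 * (1 / 20)) (fun x : G => Real.exp (β * (trace (mt x)).re)) := by
    refine SmH.of_osc hH (by norm_num) hw fun x y _ => ?_
    rw [Real.log_exp, Real.log_exp]
    have h2 := abs_le.1 (hb (y * x))
    have h3 := abs_le.1 (hb x)
    linarith
  have h2 : SmH μ ⊤ (1 / 10) (TTn μ (fun x : G => Real.exp (β * (trace (mt x)).re)) 0) := by
    have e : (2 : ℝ) * (1 / 20) = 1 / 10 := by norm_num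
    rw [e] at h1
    exact h1
  refine area_law'' hH hw h2 ρ hρ hu ?_
  rw [Submodule.eq_bot_iff]
  intro v hv
  exact hf v fun g => hv g (Subgroup.mem_top g)

/-- **The classification of the area law** -/
theorem main (hG : IsClosed (G : Set (UN N))) :
    (∀ S : Matrix (Fin N) (Fin N) ℂ → ℝ, ContDiff ℝ 2 S →
      (∀ g x : G, S (mx (g * x * g⁻¹)) = S (mx x)) → (∀ x : G, S (mx x⁻¹) = S (mx x)) →
      ∀ (M : ℕ) (ρ : G →* Matrix (Fin M) (Fin M) ℂ), Continuous ρ →
        (∀ g, ρ g ∈ unitaryGroup (Fin M) ℂ) → fixed ρ = ⊥ →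
        AreaLaw μ (fun x => Real.exp (S (mx x))) ρ) ∧
    (∃ β₁ : ℝ, 0 < β₁ ∧ ∀ β, |β| ≤ β₁ →
      ∀ (M : ℕ) (ρ : G →* Matrix (Fin M) (Fin M) ℂ), Continuous ρ →
        (∀ g, ρ g ∈ unitaryGroup (Fin M) ℂ) →
        (∀ v : Fin M → ℂ, (∀ g, ρ g *ᵥ v = v) → v = 0) → AreaLaw μ (act G β) ρ) ∧
    (∃ β₀ : ℝ, ∀ β, β₀ ≤ β → ∀ (M : ℕ) (ρ : G →* Matrix (Fin M) (Fin M) ℂ), Continuous ρ →
      (∀ g, ρ g ∈ unitaryGroup (Fin M) ℂ) →
        (∀ ε : ℝ, 0 < ε → ∃ k0 : ℕ, ∀ k, k0 ≤ k → ∀ (j : ℕ) (P : Pq j) (σ : Sec k),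
          ‖wil μ (act G β) ρ k j P σ (2 ^ k) (2 ^ k) - (Module.finrank ℂ (fixed ρ) : ℂ)‖ ≤ ε) ∧
        (AreaLaw μ (act G β) ρ ↔ fixed ρ = ⊥)) ∧
    ((∀ β : ℝ, 0 < β → AreaLaw μ (act G β) (taut G)) ↔ fixed (taut G) = ⊥) ∧
    ((∃ β₀ : ℝ, ∀ β, β₀ ≤ β → AreaLaw μ (act G β) (taut G)) ↔ fixed (taut G) = ⊥) := by
  have hcomp : CompactSpace G := isCompact_iff_compactSpace.1 hG.isCompact
  have hr := haar_right' μ
  have hi := haar_inv' μ
  have hN := comp_normal G
  obtain ⟨n, ⟨B⟩⟩ := exists_frame hG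
  obtain ⟨hE, hH, m, hg⟩ := Pool.Agent.N163.HC.comp_facts B hG
  have P1 : ∀ S : Matrix (Fin N) (Fin N) ℂ → ℝ, ContDiff ℝ 2 S →
      (∀ g x : G, S (mx (g * x * g⁻¹)) = S (mx x)) → (∀ x : G, S (mx x⁻¹) = S (mx x)) →
      ∀ (M : ℕ) (ρ : G →* Matrix (Fin M) (Fin M) ℂ), Continuous ρ →
        (∀ g, ρ g ∈ unitaryGroup (Fin M) ℂ) → fixed ρ = ⊥ →
        AreaLaw μ (fun x => Real.exp (S (mx x))) ρ := by
    intro S hS h1 h2 M ρ hρ hu hf
    obtain ⟨K, hK, hs⟩ := Pool.Agent.N9.HC.c2_SC B hG hS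
    exact area_law' hH (D := EDG B hG) hE hg hK (adm_of hS.continuous h1 h2) hs ρ hρ hu hf
  have conj : ∀ (β : ℝ) (g x : G), β * (trace (mx (g * x * g⁻¹))).re = β * (trace (mx x)).re :=
    fun β g x => by
      have := trace_conj g x
      change trace (mx (g * x * g⁻¹)) = trace (mx x) at this
      rw [this]
  have inv : ∀ (β : ℝ) (x : G), β * (trace (mx x⁻¹)).re = β * (trace (mx x)).re :=
    fun β x => by
      have := trace_inv x
      change trace (mx x⁻¹) = star (trace (mx x)) at this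
      rw [this]
      simp
  have P1' : ∀ (β : ℝ) (M : ℕ) (ρ : G →* Matrix (Fin M) (Fin M) ℂ), Continuous ρ →
        (∀ g, ρ g ∈ unitaryGroup (Fin M) ℂ) → fixed ρ = ⊥ → AreaLaw μ (act G β) ρ :=
    fun β M ρ hρ hu hf => P1 _ (wilson_smooth β) (conj β) (inv β) M ρ hρ hu hf
  have P2 : ∃ β₀ : ℝ, ∀ β, β₀ ≤ β → ∀ (M : ℕ) (ρ : G →* Matrix (Fin M) (Fin M) ℂ),
      Continuous ρ → (∀ g, ρ g ∈ unitaryGroup (Fin M) ℂ) →
        (∀ ε : ℝ, 0 < ε → ∃ k0 : ℕ, ∀ k, k0 ≤ k → ∀ (j : ℕ) (P : Pq j) (σ : Sec k),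
          ‖wil μ (act G β) ρ k j P σ (2 ^ k) (2 ^ k) - (Module.finrank ℂ (fixed ρ) : ℂ)‖ ≤ ε) ∧
        (AreaLaw μ (act G β) ρ ↔ fixed ρ = ⊥) := by
    obtain ⟨t, ht0, ht⟩ := Pool.Agent.N319.HC.off_iter (μ := μ) hH
    obtain ⟨β₀, hβ₀, hoff⟩ := wilson_off μ hG hH ht0
    refine ⟨β₀, fun β hβ M ρ hρ hu => ?_⟩
    have hw : Adm (fun x : G => Real.exp (β * (trace (mt x)).re)) :=
      adm_of (wilson_smooth β).continuous (conj β) (inv β)
    obtain ⟨K, hK, hs⟩ := Pool.Agent.N9.HC.c2_SC B hG (wilson_smooth β)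
    have h1 : ∀ k, OffA μ (Subgroup.connectedComponentOfOne G) (t / 2 ^ k)
        (TTn μ (fun x : G => Real.exp (β * (trace (mt x)).re)) k) := fun k =>
      (off_iff hH).1 (ht _ hw t ht0.le le_rfl (hoff β hβ) k)
    have h2 : ∀ ε : ℝ, 0 < ε → ∃ k0 : ℕ, ∀ k, k0 ≤ k → ∀ (j : ℕ) (P : Pq j) (σ : Sec k),
        ‖wil μ (act G β) ρ k j P σ (2 ^ k) (2 ^ k) - (Module.finrank ℂ (fixed ρ) : ℂ)‖ ≤ ε := by
      intro ε hε
      obtain ⟨k0, hk0⟩ := deconf (μ := μ) hH (D := EDG B hG) hE hg hK hw hs ht0.le h1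
        (Pool.Agent.N20.HC.rectFull G) ρ hρ hε
      refine ⟨k0, fun k hk j P σ => ?_⟩
      have := hk0 k hk j P σ
      push_cast at this
      exact this
    exact ⟨h2, not_area μ h2, P1' β M ρ hρ hu⟩
  have ct : Continuous (taut G) := continuous_subtype_val.comp continuous_subtype_val
  have ut : ∀ g, taut G g ∈ unitaryGroup (Fin N) ℂ := fun g => (g : UN N).2
  refine ⟨P1, strong μ hG, P2, ⟨fun h => ?_, fun h β _ => P1' β N _ ct ut h⟩,
    ⟨fun ⟨β₁, h⟩ => ?_, fun h => ⟨0, fun β _ => P1' β N _ ct ut h⟩⟩⟩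
  · obtain ⟨β₀, hβ₀⟩ := P2
    exact (hβ₀ (max β₀ 1) (le_max_left _ _) N _ ct ut).2.1 (h _ (lt_max_of_lt_right one_pos))
  · obtain ⟨β₀, hβ₀⟩ := P2
    exact (hβ₀ (max β₀ β₁) (le_max_left _ _) N _ ct ut).2.1 (h _ (le_max_right _ _))

end

end

end Pool.Agent.N541.HC
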